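import Mathlib

open Polynomial Finset

namespace Pool.Agent.LucasVanishAux

/-- The squared-binomial polynomial value. -/
def Hsum {F : Type*} [CommRing F] (n : ℕ) (l : F) : F :=
  ∑ k ∈ range (n + 1), (n.choose k : F) ^ 2 * l ^ k

section iso

variable {p : ℕ} [hp : Fact p.Prime]

/-- Coefficient at `4p-1` of a derivative vanishes. -/
lemma coeff_deriv_zero (g : (ZMod p)[X]) : (derivative g).coeff (4 * p - 1) = 0 := by
  have h : 4 * p - 1 + 1 = 4 * p := by have := hp.out.pos; omega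
  rw [coeff_derivative, h]
  have : (((4 * p - 1 : ℕ) : ZMod p) + 1) = 0 := by
    have h2 : (((4 * p - 1 : ℕ) : ZMod p) + 1) = ((4 * p - 1 + 1 : ℕ) : ZMod p) := by push_cast; ring
    rw [h2, h]; simp
  rw [this, mul_zero]

/-- Terms whose exponent is not `-1` mod `p`. -/
lemma term_zero (N D W : (ZMod p)[X]) (hD : derivative D = 3)
    (hW : derivative N * D - 6 * N = 3 * W) (h3 : (3 : ZMod p) ≠ 0) (e m : ℕ)
    (hem : m + 1 + 2 * (e + 1) = 3 * p) (he : ((e + 1 : ℕ) : ZMod p) ≠ 0) :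
    (N ^ e * D ^ m * W).coeff (4 * p - 1) = 0 := by
  have key : derivative (N ^ (e + 1) * D ^ (m + 1)) = C (((e + 1 : ℕ) : ZMod p) * 3) * (N ^ e * D ^ m * W) := by
    have hm' : ((m : (ZMod p)[X]) + 1) = -2 * ((e : (ZMod p)[X]) + 1) := by
      have := congrArg (Nat.cast : ℕ → (ZMod p)[X]) hem
      push_cast at this
      simp only [CharP.cast_eq_zero, mul_zero] at this
      linear_combination this
    have h3' : (C 3 : (ZMod p)[X]) = 3 := map_ofNat C 3
    rw [derivative_mul, derivative_pow_succ, derivative_pow_succ, hD]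
    simp only [map_mul, map_natCast, Nat.cast_add, Nat.cast_one, map_add, map_one, h3']
    rw [hm']
    linear_combination ((e : (ZMod p)[X]) + 1) * N ^ e * D ^ m * hW
  have h0 := coeff_deriv_zero (N ^ (e + 1) * D ^ (m + 1))
  rw [key, coeff_C_mul] at h0
  exact (mul_eq_zero.mp h0).resolve_left (mul_ne_zero he h3)

/-- double-sum expansion of the homogenised product -/
lemma expand_prod (n : ℕ) (N M : (ZMod p)[X]) (l : ZMod p) :
    (N * (N - M) * (N - C l * M)) ^ n =
      ∑ i ∈ range (n + 1), ∑ j ∈ range (n + 1),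
        C (((n.choose i : ZMod p) * (n.choose j : ZMod p)) * ((-1) ^ (n - i) * (-l) ^ (n - j))) *
          (N ^ (n + i + j) * M ^ (n - i + (n - j))) := by
  have h1 : (N - M) ^ n = ∑ i ∈ range (n + 1), C ((n.choose i : ZMod p) * (-1) ^ (n - i)) * (N ^ i * M ^ (n - i)) := by
    rw [sub_eq_add_neg, add_pow]
    refine sum_congr rfl fun i _ => ?_
    rw [neg_pow M]
    simp only [map_mul, map_natCast, map_pow, map_neg, map_one]
    ring
  have h2 : (N - C l * M) ^ n = ∑ j ∈ range (n + 1), C ((n.choose j : ZMod p) * (-l) ^ (n - j)) * (N ^ j * M ^ (n - j)) := by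
    rw [sub_eq_add_neg, add_pow]
    refine sum_congr rfl fun j _ => ?_
    simp only [map_mul, map_natCast, map_pow, map_neg]
    rw [← neg_mul, mul_pow]
    ring
  rw [mul_pow, mul_pow, h1, h2, mul_assoc, sum_mul_sum, mul_sum]
  refine sum_congr rfl fun i _ => ?_
  rw [mul_sum]
  refine sum_congr rfl fun j _ => ?_
  simp only [map_mul, map_natCast, map_pow, map_neg, map_one]
  ring

/-- The diagonal sum. -/
lemma diag_sum (n : ℕ) (l : ZMod p) :
    (∑ i ∈ range (n + 1), ∑ j ∈ range (n + 1),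
        (((n.choose i : ZMod p) * (n.choose j : ZMod p)) * ((-1) ^ (n - i) * (-l) ^ (n - j))) *
          (if i + j = n then 1 else 0)) = (-1) ^ n * Hsum n l := by
  unfold Hsum
  rw [mul_sum, sum_comm, ← sum_range_reflect]
  refine sum_congr rfl fun j hj => ?_
  rw [mem_range] at hj
  rw [sum_eq_single j]
  · have h1 : n + 1 - 1 - j = n - j := by omega
    have h2 : j + (n - j) = n := by omega
    rw [h1, if_pos h2, Nat.choose_symm (by omega : j ≤ n), mul_one]
    have h3 : n - (n - j) = j := by omega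
    rw [h3, neg_pow l]
    have : ((-1 : ZMod p)) ^ n = (-1) ^ (n - j) * (-1) ^ j := by rw [← pow_add]; congr 1; omega
    rw [this]; ring
  · intro i hi hij
    rw [if_neg (by omega), mul_zero]
  · intro h; exact absurd (mem_range.mpr hj) h

/-- Coefficient of the homogenised side. -/
lemma rhs_coeff (n : ℕ) (hn : p = 2 * n + 1) (N D W : (ZMod p)[X]) (hD : derivative D = 3)
    (hW : derivative N * D - 6 * N = 3 * W) (h3 : (3 : ZMod p) ≠ 0)
    (hNd : N.natDegree = 3) (hDd : D.natDegree = 1) (hWd : W.natDegree = 3) (l : ZMod p) :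
    (((N * (N - D ^ 2) * (N - C l * D ^ 2)) ^ n) * W).coeff (4 * p - 1) =
      (N.leadingCoeff ^ (2 * n) * D.leadingCoeff ^ (2 * n) * W.leadingCoeff) * ((-1) ^ n * Hsum n l) := by
  rw [expand_prod, ← diag_sum, sum_mul, finsetSum_coeff, mul_sum]
  refine sum_congr rfl fun i hi => ?_
  rw [sum_mul, finsetSum_coeff, mul_sum]
  refine sum_congr rfl fun j hj => ?_
  rw [mem_range] at hi hj
  have e1 : C ((n.choose i : ZMod p) * (n.choose j : ZMod p) * ((-1) ^ (n - i) * (-l) ^ (n - j))) *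
      (N ^ (n + i + j) * (D ^ 2) ^ (n - i + (n - j))) * W =
      C ((n.choose i : ZMod p) * (n.choose j : ZMod p) * ((-1) ^ (n - i) * (-l) ^ (n - j))) *
      (N ^ (n + i + j) * D ^ (2 * (n - i + (n - j))) * W) := by
    rw [← pow_mul]; ring
  rw [e1, coeff_C_mul]
  by_cases h : i + j = n
  · rw [if_pos h, mul_one]
    have h4 : n + i + j = 2 * n := by omega
    have h5 : 2 * (n - i + (n - j)) = 2 * n := by omega
    rw [h4, h5]
    have hlc : (N ^ (2 * n) * D ^ (2 * n) * W).coeff (4 * p - 1) =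
        N.leadingCoeff ^ (2 * n) * D.leadingCoeff ^ (2 * n) * W.leadingCoeff := by
      have hdeg : 4 * p - 1 = (2 * n) * 3 + (2 * n) * 1 + 3 := by omega
      rw [hdeg]
      have g1 : (N ^ (2 * n)).natDegree ≤ 2 * n * 3 := (natDegree_pow_le).trans (by rw [hNd])
      have g2 : (D ^ (2 * n)).natDegree ≤ 2 * n * 1 := (natDegree_pow_le).trans (by rw [hDd])
      have g3 : (N ^ (2 * n) * D ^ (2 * n)).natDegree ≤ 2 * n * 3 + 2 * n * 1 :=
        natDegree_mul_le.trans (Nat.add_le_add g1 g2)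
      rw [coeff_mul_add_eq_of_natDegree_le g3 hWd.le, coeff_mul_add_eq_of_natDegree_le g1 g2,
        coeff_pow_of_natDegree_le hNd.le, coeff_pow_of_natDegree_le hDd.le]
      simp only [leadingCoeff, hNd, hDd, hWd]
    rw [hlc]; ring
  · rw [if_neg h, mul_zero, mul_zero]
    rw [term_zero N D W hD hW h3 (n + i + j) (2 * (n - i + (n - j))) (by omega), mul_zero]
    intro h0
    rw [ZMod.natCast_eq_zero_iff] at h0
    obtain ⟨c, hc⟩ := h0
    have : c = 1 := by
      have hc1 : c < 2 := by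
        by_contra hge
        have : 2 ≤ c := by omega
        have : p * 2 ≤ p * c := Nat.mul_le_mul_left p this
        omega
      have hc0 : c ≠ 0 := by rintro rfl; omega
      omega
    subst this
    omega

/-- The Legendre side: coefficient of index `2n` of `(x(x-1)(x-l))^n`. -/
lemma legendre_coeff (n : ℕ) (l : ZMod p) :
    ((X * (X - 1) * (X - C l)) ^ n : (ZMod p)[X]).coeff (2 * n) = (-1) ^ n * Hsum n l := by
  have h := expand_prod n (X : (ZMod p)[X]) 1 l
  rw [mul_one] at h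
  rw [h, ← diag_sum, finsetSum_coeff]
  refine sum_congr rfl fun i hi => ?_
  rw [finsetSum_coeff]
  refine sum_congr rfl fun j hj => ?_
  rw [coeff_C_mul, one_pow, mul_one, coeff_X_pow]
  congr 1
  by_cases h : i + j = n
  · rw [if_pos h, if_pos (by omega)]
  · rw [if_neg h, if_neg (by omega)]

/-- The Frobenius side. -/
lemma lhs_coeff (n : ℕ) (hn : p = 2 * n + 1) (hn0 : 0 < n) (W : (ZMod p)[X]) (hWd : W.natDegree = 3) (l : ZMod p) :
    (((X * (X - 1) * (X - C l)) ^ n : (ZMod p)[X]) * W ^ p).coeff (4 * p - 1) =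
      W.leadingCoeff * ((-1) ^ n * Hsum n l) := by
  rw [← legendre_coeff]
  set f : (ZMod p)[X] := (X * (X - 1) * (X - C l)) ^ n with hf
  have hfd : f.natDegree ≤ 3 * n := by
    rw [hf]
    refine natDegree_pow_le.trans ?_
    rw [mul_comm 3 n]
    refine Nat.mul_le_mul_left n ?_
    refine natDegree_mul_le.trans ?_
    have h1 : (X * (X - 1) : (ZMod p)[X]).natDegree ≤ 2 := by
      refine natDegree_mul_le.trans ?_
      have : (X - 1 : (ZMod p)[X]).natDegree ≤ 1 := by
        have := natDegree_X_sub_C_le (1 : ZMod p)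
        simpa using this
      have h2 := natDegree_X_le (R := ZMod p)
      omega
    have h2 := natDegree_X_sub_C_le l
    omega
  have hlead : W.leadingCoeff = W.coeff 3 := by rw [leadingCoeff, hWd]
  rw [hlead]
  have hWe : W = C (W.coeff 0) * X ^ 0 + C (W.coeff 1) * X ^ 1 + C (W.coeff 2) * X ^ 2 +
      C (W.coeff 3) * X ^ 3 := by
    conv_lhs => rw [W.as_sum_range_C_mul_X_pow, hWd]
    simp only [sum_range_succ, sum_range_zero, zero_add]
  have hWp : W ^ p = C (W.coeff 0) * (X ^ p) ^ 0 + C (W.coeff 1) * (X ^ p) ^ 1 +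
      C (W.coeff 2) * (X ^ p) ^ 2 + C (W.coeff 3) * (X ^ p) ^ 3 := by
    rw [← ZMod.expand_card]
    conv_lhs => rw [hWe]
    simp only [map_add, map_mul, expand_C, map_pow, expand_X]
  rw [hWp]
  rw [mul_add, mul_add, mul_add, coeff_add, coeff_add, coeff_add]
  have hz : ∀ (i : ℕ), i ≤ 2 → (f * (C (W.coeff i) * (X ^ p) ^ i)).coeff (4 * p - 1) = 0 := by
    intro i hi
    have : f * (C (W.coeff i) * (X ^ p) ^ i) = C (W.coeff i) * (f * X ^ (p * i)) := by
      rw [← pow_mul]; ring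
    rw [this, coeff_C_mul, coeff_mul_X_pow']
    have hpi : p * i ≤ p * 2 := Nat.mul_le_mul_left p hi
    rw [coeff_eq_zero_of_natDegree_lt (p := f) (by omega)]
    simp
  rw [hz 0 (by norm_num), hz 1 (by norm_num), hz 2 (by norm_num), zero_add, zero_add, zero_add]
  have : f * (C (W.coeff 3) * (X ^ p) ^ 3) = C (W.coeff 3) * (f * X ^ (p * 3)) := by
      rw [← pow_mul]; ring
  rw [this, coeff_C_mul, coeff_mul_X_pow', if_pos (by omega)]
  have e : 4 * p - 1 - p * 3 = 2 * n := by omega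
  rw [e]

/-- The key identity `H(88+24r) = H(88-24r)`. -/
lemma H_eq (n : ℕ) (hn : p = 2 * n + 1) (hn0 : 1 < n) (r : ZMod p) (hr : r ^ 2 = 13) :
    Hsum n (88 + 24 * r) = Hsum n (88 - 24 * r) := by
  have h3 : (3 : ZMod p) ≠ 0 := by
    intro h
    have h' : ((3 : ℕ) : ZMod p) = 0 := by exact_mod_cast h
    rw [ZMod.natCast_eq_zero_iff] at h'
    have := Nat.le_of_dvd (by norm_num) h'
    omega
  have hs : (7 - 2 * r : ZMod p) ≠ 0 := by
    intro h
    have : (3 : ZMod p) = 0 := by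
      have h9 : (3 : ZMod p) * ( (49 - 4 * 13)) = 0 := by
        have : (7 - 2 * r : ZMod p) * (7 + 2 * r) = 49 - 4 * 13 := by linear_combination (-4) * hr
        rw [← this, h]; ring
      have h10 : (3 : ZMod p) * (49 - 4 * 13) = - (3 * 3) := by norm_num
      rw [h10, neg_eq_zero, mul_self_eq_zero] at h9
      exact h9
    exact h3 this
  have hC : (C r : (ZMod p)[X]) ^ 2 = 13 := by rw [← C_pow, hr]; exact map_ofNat C 13
  set R : (ZMod p)[X] := C r with hR
  set s : (ZMod p)[X] := 7 - 2 * R with hsdef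
  set N : (ZMod p)[X] := X * (s * X - 12) ^ 2 with hN
  set D : (ZMod p)[X] := 3 * X + 2 + 2 * R with hD
  set W : (ZMod p)[X] := (s * X - 12) * (s * X + 2 + 2 * R) * (X - 4) with hW
  have e1 : N - D ^ 2 = (X - 1) * (s * X + 2 + 2 * R) ^ 2 := by
    rw [hN, hD, hsdef]
    linear_combination ((-12) * X + 12 * X ^ 2) * hC
  have hl1 : (C (88 + 24 * r) : (ZMod p)[X]) = 88 + 24 * R := by
    rw [C_add, C_mul, hR]; rfl
  have hl2 : (C (88 - 24 * r) : (ZMod p)[X]) = 88 - 24 * R := by
    rw [C_sub, C_mul, hR]; rfl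
  have e2 : N - C (88 - 24 * r) * D ^ 2 = s ^ 2 * ((X - C (88 + 24 * r)) * (X - 4) ^ 2) := by
    rw [hl1, hl2, hN, hD, hsdef]
    linear_combination ((-5280) + (2784) * X + (-288) * X ^ 2 + (1632) * R + (-768) * R * X
      + (96) * R * X ^ 2) * hC
  have hprod : N * (N - D ^ 2) * (N - C (88 - 24 * r) * D ^ 2) =
      s ^ 2 * ((X * (X - 1) * (X - C (88 + 24 * r))) * W ^ 2) := by
    rw [e1, e2, hN, hW]; ring
  have hdD : derivative D = 3 := by
    rw [hD, hR]; simp
  have hdN : derivative N = (s * X - 12) ^ 2 + 2 * X * (s * (s * X - 12)) := by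
    have hds : derivative s = 0 := by rw [hsdef, hR]; simp
    rw [hN]
    simp only [derivative_mul, derivative_X, derivative_pow, derivative_sub, hds, derivative_ofNat]
    simp only [Nat.cast_ofNat, map_ofNat]
    ring
  have hWrel : derivative N * D - 6 * N = 3 * W := by
    rw [hdN, hN, hW, hD, hsdef]
    linear_combination (144 * X + (-84) * X ^ 2 + 24 * R * X ^ 2) * hC
  set s0 : ZMod p := 7 - 2 * r with hs0
  have hsC : s = C s0 := by rw [hsdef, hR, hs0, C_sub, C_mul]; rfl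
  have hlin1 : (s * X - 12 : (ZMod p)[X]) = C s0 * X + C (-12) := by
    rw [hsC, C_neg, sub_eq_add_neg]; rfl
  have hlin2 : (s * X + 2 + 2 * R : (ZMod p)[X]) = C s0 * X + C (2 + 2 * r) := by
    rw [hsC, C_add, C_mul, ← hR, add_assoc]; rfl
  have hlin3 : (X - 4 : (ZMod p)[X]) = C 1 * X + C (-4) := by
    rw [C_neg, C_1, one_mul, sub_eq_add_neg]; rfl
  have hlin4 : (D : (ZMod p)[X]) = C 3 * X + C (2 + 2 * r) := by
    rw [hD, C_add, C_mul, ← hR, add_assoc]; rfl
  have hDdeg : D.natDegree = 1 := by rw [hlin4]; exact natDegree_linear h3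
  have hDlc : D.leadingCoeff = 3 := by rw [hlin4]; exact leadingCoeff_linear h3
  have hNdeg : N.natDegree = 3 := by
    rw [hN, hlin1, natDegree_mul X_ne_zero (pow_ne_zero _ (by
      intro h; have := natDegree_linear (b := (-12 : ZMod p)) hs; rw [h] at this; simp at this)),
      natDegree_pow, natDegree_linear hs, natDegree_X]
  have hNlc : N.leadingCoeff = s0 ^ 2 := by
    rw [hN, hlin1, leadingCoeff_mul, leadingCoeff_pow, leadingCoeff_linear hs, leadingCoeff_X, one_mul]
  have hne1 : (C s0 * X + C (-12) : (ZMod p)[X]) ≠ 0 := by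
    intro h; have := natDegree_linear (b := (-12 : ZMod p)) hs; rw [h] at this; simp at this
  have hne2 : (C s0 * X + C (2 + 2 * r) : (ZMod p)[X]) ≠ 0 := by
    intro h; have := natDegree_linear (b := (2 + 2 * r : ZMod p)) hs; rw [h] at this; simp at this
  have hne3 : (C 1 * X + C (-4) : (ZMod p)[X]) ≠ 0 := by
    intro h
    have := natDegree_linear (a := (1 : ZMod p)) (b := (-4 : ZMod p)) one_ne_zero
    rw [h] at this; simp at this
  have hWdeg : W.natDegree = 3 := by
    rw [hW, hlin1, hlin2, hlin3, natDegree_mul (mul_ne_zero hne1 hne2) hne3,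
      natDegree_mul hne1 hne2, natDegree_linear hs, natDegree_linear hs, natDegree_linear one_ne_zero]
  have hWlc : W.leadingCoeff = s0 ^ 2 := by
    rw [hW, hlin1, hlin2, hlin3, leadingCoeff_mul, leadingCoeff_mul, leadingCoeff_linear hs,
      leadingCoeff_linear hs, leadingCoeff_linear one_ne_zero]
    ring
  have hR1 := rhs_coeff n hn N D W hdD hWrel h3 hNdeg hDdeg hWdeg (88 - 24 * r)
  have hL1 := lhs_coeff n hn (by omega) W hWdeg (88 + 24 * r)
  have hT : (N * (N - D ^ 2) * (N - C (88 - 24 * r) * D ^ 2)) ^ n * W =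
      C (s0 ^ (2 * n)) * (((X * (X - 1) * (X - C (88 + 24 * r))) ^ n) * W ^ p) := by
    have hWp : W ^ p = W ^ (2 * n) * W := by rw [← pow_succ, ← hn]
    rw [hWp, hprod, mul_pow, mul_pow, ← pow_mul, ← pow_mul, hsC, C_pow]
    ring
  rw [hT, coeff_C_mul, hL1, hNlc, hWlc, hDlc] at hR1
  have hp1 : p - 1 = 2 * n := by omega
  have f1 : s0 ^ (2 * n) = 1 := by rw [← hp1]; exact ZMod.pow_card_sub_one_eq_one hs
  have f2 : (3 : ZMod p) ^ (2 * n) = 1 := by rw [← hp1]; exact ZMod.pow_card_sub_one_eq_one h3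
  have f3 : (s0 ^ 2) ^ (2 * n) = 1 := by rw [← pow_mul, mul_comm, pow_mul, f1, one_pow]
  rw [f1, f2, f3, one_mul, one_mul, one_mul] at hR1
  have hs2 : s0 ^ 2 ≠ 0 := pow_ne_zero 2 hs
  have hR2 := mul_left_cancel₀ hs2 hR1
  exact mul_left_cancel₀ (pow_ne_zero n (neg_ne_zero.mpr one_ne_zero)) hR2

/-- `C(2k,k) = (-4)^k C(n,k)` modulo `p = 2n+1`. -/
lemma centralBinom_eq (n : ℕ) (hn : p = 2 * n + 1) (k : ℕ) (hk : k ≤ n) :
    ((Nat.centralBinom k : ℕ) : ZMod p) = (-4) ^ k * (n.choose k : ZMod p) := by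
  induction k with
  | zero => simp
  | succ k ih =>
    have ih' := ih (by omega)
    have h1 := congrArg (Nat.cast : ℕ → ZMod p) (Nat.succ_mul_centralBinom_succ k)
    have h2 := congrArg (Nat.cast : ℕ → ZMod p) (Nat.choose_succ_right_eq n k)
    have hne : ((k : ZMod p) + 1) ≠ 0 := by
      intro h
      have h' : ((k + 1 : ℕ) : ZMod p) = 0 := by exact_mod_cast h
      rw [ZMod.natCast_eq_zero_iff] at h'
      have := Nat.le_of_dvd (by omega) h'
      omega
    have hp0 : (2 * (n : ZMod p) + 1) = 0 := by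
      have : ((2 * n + 1 : ℕ) : ZMod p) = 0 := by
        rw [ZMod.natCast_eq_zero_iff]; exact dvd_of_eq hn
      exact_mod_cast this
    push_cast [Nat.cast_sub (by omega : k ≤ n)] at h1 h2
    apply mul_left_cancel₀ hne
    rw [h1, ih']
    linear_combination (-(-4) ^ (k + 1)) * h2 + (2 * (-4) ^ k * (n.choose k : ZMod p)) * hp0

end iso

/-- Binet-type formula in a field of characteristic `p`. -/
lemma binet {F : Type*} [CommRing F] (U : ℕ → ℤ) (hU0 : U 0 = 0) (hU1 : U 1 = 1)
    (hrec : ∀ n, U (n + 2) = 11 * U (n + 1) - U n)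
    (a b : F) (hs : a + b = 11) (hm : a * b = 1) (k : ℕ) :
    (a - b) * ((U k : ℤ) : F) = a ^ k - b ^ k := by
  induction k using Nat.strong_induction_on with
  | _ k ih =>
    match k with
    | 0 => simp [hU0]
    | 1 => simp [hU1]
    | (m + 2) =>
      have h1 := ih (m + 1) (by omega)
      have h0 := ih m (by omega)
      rw [hrec m]
      push_cast
      linear_combination 11 * h1 - h0 + (b ^ (m + 1) - a ^ (m + 1)) * hs + (a ^ m - b ^ m) * hm

/-- Main theorem. -/
theorem main (U : ℕ → ℤ) (hU0 : U 0 = 0) (hU1 : U 1 = 1)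
    (hrec : ∀ n, U (n + 2) = 11 * U (n + 1) - U n) (p : ℕ) (hp : p.Prime) (hp3 : 3 < p)
    (hres : p % 13 = 1 ∨ p % 13 = 3 ∨ p % 13 = 4 ∨ p % 13 = 9 ∨ p % 13 = 10 ∨ p % 13 = 12) :
    (p : ℤ) ∣ ∑ k ∈ range ((p - 1) / 2 + 1), (Nat.choose (2 * k) k : ℤ) ^ 2 * U k := by
  have hsq13 : IsSquare ((p : ℕ) : ZMod 13) := by
    have hcast : (p : ZMod 13) = ((p % 13 : ℕ) : ZMod 13) := by
      rw [ZMod.natCast_mod]
    rw [hcast]
    rcases hres with h | h | h | h | h | h <;> rw [h]
    · exact ⟨1, by decide⟩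
    · exact ⟨4, by decide⟩
    · exact ⟨2, by decide⟩
    · exact ⟨3, by decide⟩
    · exact ⟨6, by decide⟩
    · exact ⟨5, by decide⟩
  have : Fact p.Prime := ⟨hp⟩
  have : Fact (Nat.Prime 13) := ⟨by norm_num⟩
  obtain ⟨n, hn⟩ : ∃ n, p = 2 * n + 1 := by
    rcases hp.eq_two_or_odd' with h | h
    · omega
    · exact h
  have hn1 : 1 < n := by omega
  have hn2 : (p - 1) / 2 = n := by omega
  -- 13 is a square
  have hsq : IsSquare ((13 : ℕ) : ZMod p) := by
    rw [← ZMod.exists_sq_eq_prime_iff_of_mod_four_eq_one (p := 13) (q := p) (by norm_num) (by omega)]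
    exact hsq13
  obtain ⟨r, hr⟩ := hsq
  have hr2 : r ^ 2 = 13 := by rw [sq, ← hr]; norm_num
  have h13 : (13 : ZMod p) ≠ 0 := by
    intro h
    have h' : ((13 : ℕ) : ZMod p) = 0 := by exact_mod_cast h
    rw [ZMod.natCast_eq_zero_iff, Nat.prime_dvd_prime_iff_eq hp (by norm_num)] at h'
    omega
  have h3 : (3 : ZMod p) ≠ 0 := by
    intro h
    have h' : ((3 : ℕ) : ZMod p) = 0 := by exact_mod_cast h
    rw [ZMod.natCast_eq_zero_iff] at h'
    have := Nat.le_of_dvd (by norm_num) h'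
    omega
  have h2 : (2 : ZMod p) ≠ 0 := by
    intro h
    have h' : ((2 : ℕ) : ZMod p) = 0 := by exact_mod_cast h
    rw [ZMod.natCast_eq_zero_iff] at h'
    have := Nat.le_of_dvd (by norm_num) h'
    omega
  have hr0 : r ≠ 0 := by
    rintro rfl
    apply h13; rw [← hr2]; ring
  set a : ZMod p := (11 + 3 * r) / 2 with ha
  set b : ZMod p := (11 - 3 * r) / 2 with hb
  have hab : a + b = 11 := by rw [ha, hb]; field_simp; ring
  have hab1 : a * b = 1 := by
    rw [ha, hb]; field_simp; linear_combination (-9) * hr2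
  have habr : a - b = 3 * r := by rw [ha, hb]; field_simp; ring
  have hab0 : a - b ≠ 0 := by rw [habr]; exact mul_ne_zero h3 hr0
  rw [← ZMod.intCast_zmod_eq_zero_iff_dvd, hn2]
  push_cast
  apply (mul_eq_zero.mp ?_).resolve_left hab0
  rw [mul_sum]
  have hterm : ∀ k ∈ range (n + 1), (a - b) * (((Nat.choose (2 * k) k : ℕ) : ZMod p) ^ 2 * ((U k : ℤ) : ZMod p))
      = (n.choose k : ZMod p) ^ 2 * (88 + 24 * r) ^ k - (n.choose k : ZMod p) ^ 2 * (88 - 24 * r) ^ k := by
    intro k hk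
    rw [mem_range] at hk
    have h1 := centralBinom_eq n hn k (by omega)
    rw [Nat.centralBinom] at h1
    have h4 := binet U hU0 hU1 hrec a b hab hab1 k
    have ea : (88 + 24 * r : ZMod p) = 16 * a := by rw [ha]; field_simp; ring
    have eb : (88 - 24 * r : ZMod p) = 16 * b := by rw [hb]; field_simp; ring
    rw [ea, eb, mul_pow, mul_pow]
    have h5 : (a - b) * (((Nat.choose (2 * k) k : ℕ) : ZMod p) ^ 2 * ((U k : ℤ) : ZMod p)) =
      ((Nat.choose (2 * k) k : ℕ) : ZMod p) ^ 2 * (a ^ k - b ^ k) := by rw [← h4]; ring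
    rw [h5, h1]
    have h6 : ((-4 : ZMod p) ^ k * (n.choose k : ZMod p)) ^ 2 = 16 ^ k * (n.choose k : ZMod p) ^ 2 := by
      rw [mul_pow, ← pow_mul, mul_comm k 2, pow_mul]; norm_num
    rw [h6]; ring
  rw [sum_congr rfl hterm, sum_sub_distrib]
  exact sub_eq_zero.mpr (H_eq n hn hn1 r hr2)

end Pool.Agent.LucasVanishAux
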