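import Pool.Statements.S00612
import Pool.Agent.LA78.Final

set_option autoImplicit false
open Pool Pool.MP_045576_al

namespace Pool.Agent.S00612

/-- The negation of the preceding statement: Over the rationals, some computable Boolean function on codes of one-relator Lie presentations (generator count plus integer combination of left-normed brackets) returns true exactly when the two presented Lie algebras are isomorphic. -/
theorem result :
    ¬ (∃ f : (ℕ × List (ℤ × ℕ × List ℕ)) → (ℕ × List (ℤ × ℕ × List ℕ)) → Bool,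
      Computable₂ f ∧
      ∀ (a b : ℕ × List (ℤ × ℕ × List ℕ))
        (r : FreeLieAlgebra ℚ (Fin a.1)) (s : FreeLieAlgebra ℚ (Fin b.1))
        (I : LieIdeal ℚ (FreeLieAlgebra ℚ (Fin a.1)))
        (J : LieIdeal ℚ (FreeLieAlgebra ℚ (Fin b.1))),
        (FreeLieAlgebra.lift ℚ
            (fun i : Fin a.1 => FreeLieAlgebra.of ℚ (i : ℕ))) r =
          (a.2.map (fun t : ℤ × ℕ × List ℕ =>
            t.1 • t.2.2.foldl
              (fun (x : FreeLieAlgebra ℚ ℕ) (j : ℕ) => ⁅x, FreeLieAlgebra.of ℚ j⁆)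
              (FreeLieAlgebra.of ℚ t.2.1))).sum →
        (FreeLieAlgebra.lift ℚ
            (fun i : Fin b.1 => FreeLieAlgebra.of ℚ (i : ℕ))) s =
          (b.2.map (fun t : ℤ × ℕ × List ℕ =>
            t.1 • t.2.2.foldl
              (fun (x : FreeLieAlgebra ℚ ℕ) (j : ℕ) => ⁅x, FreeLieAlgebra.of ℚ j⁆)
              (FreeLieAlgebra.of ℚ t.2.1))).sum →
        I = LieSubmodule.lieSpan ℚ (FreeLieAlgebra ℚ (Fin a.1))
              ({r} : Set (FreeLieAlgebra ℚ (Fin a.1))) →
        J = LieSubmodule.lieSpan ℚ (FreeLieAlgebra ℚ (Fin b.1))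
              ({s} : Set (FreeLieAlgebra ℚ (Fin b.1))) →
        (f a b = true ↔
          Nonempty
            ((FreeLieAlgebra ℚ (Fin a.1) ⧸ I) ≃ₗ⁅ℚ⁆
              (FreeLieAlgebra ℚ (Fin b.1) ⧸ J)))) := by
  rintro ⟨f, hcomp, hf⟩
  exact Pool.Agent.LA78.undecidable f hcomp hf

end Pool.Agent.S00612
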