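import Pool.Statements.S01079
import Pool.Agent.H48.SL2

set_option autoImplicit false
open Pool Pool.MP_2f4300_al

namespace Pool.Agent.S01079

open Pool.Agent.H48 Pool.Agent.H48.Wr Pool.Agent.H48.E8 in
/-- There is a countable infinite group with a Hausdorff non-discrete group topology, a finite maximal (non-refinable) chain of Hausdorff group topologies τ0..τk, and an infinite chain of group topologies all strictly between τ0 and τk. -/
theorem result :
    ∃ (G : Type) (_ : Group G), Countable G ∧ Infinite G ∧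
      (∃ t : GroupTopology G, @T2Space G t.toTopologicalSpace ∧ t.toTopologicalSpace ≠ ⊥) ∧
      ∃ (k : ℕ) (τ : Fin (k + 1) → GroupTopology G),
        (∀ i : Fin k, τ i.castSucc ⋖ τ i.succ) ∧
        (∀ i : Fin (k + 1), @T2Space G (τ i).toTopologicalSpace) ∧
        ∃ S : Set (GroupTopology G), S.Infinite ∧ IsChain (· ≤ ·) S ∧
          ∀ s ∈ S, τ 0 < s ∧ s < τ (Fin.last k) := by
  refine ⟨Wr E8, inferInstance, wr_countable, wr_infinite, ⟨tau ⊤, tau_t2 _, tau_ne_bot _⟩,
    2, ![tau H2, tau H1, tau ⊤], ?_, ?_, Set.range (fun n : ℕ => tau (K n)), ?_, ?_, ?_⟩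
  · intro i
    fin_cases i
    · exact cover_of_strongMax H2_lt_H1 strongMax_H2
    · exact cover_of_strongMax H1_lt_top strongMax_H1
  · intro i
    fin_cases i
    · exact tau_t2 _
    · exact tau_t2 _
    · exact tau_t2 _
  · exact Set.infinite_range_of_injective (fun m n h => K_inj (tau_inj h))
  · rintro _ ⟨m, rfl⟩ _ ⟨n, rfl⟩ _
    rcases le_total m n with h | h
    · right; exact tau_mono (K_anti h)
    · left; exact tau_mono (K_anti h)
  · rintro _ ⟨n, rfl⟩
    exact ⟨tau_lt_iff.2 (H2_lt_K n), tau_lt_iff.2 (K_lt_top n)⟩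

end Pool.Agent.S01079
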