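import Pool.Statements.S01605
import Pool.Agent.WordPSL.Main

set_option autoImplicit false
open Pool Pool.MP_5d7f3f_al

namespace Pool.Agent.S01605

/-- For every non-identity word w in the free group on two letters and every element a of PSL2(C), i.e. SL2(C) modulo its center, there are x1, x2 in PSL2(C) with w(x1, x2) = a. -/
theorem result :
    ∀ w : FreeGroup (Fin 2), w ≠ 1 →
      ∀ a : Matrix.SpecialLinearGroup (Fin 2) ℂ ⧸
          Subgroup.center (Matrix.SpecialLinearGroup (Fin 2) ℂ),
        ∃ g : Fin 2 → Matrix.SpecialLinearGroup (Fin 2) ℂ ⧸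
            Subgroup.center (Matrix.SpecialLinearGroup (Fin 2) ℂ),
          FreeGroup.lift g w = a :=
  fun w hw a => Pool.Agent.WordPSL.surj w hw a

end Pool.Agent.S01605
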