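import Pool.Statements.S02150
import Pool.Agent.FIB.ZFinal
import Pool.Agent.FIB.Main

set_option autoImplicit false
open Pointwise
open Pool Pool.MP_84ef61_al

namespace Pool.Agent.S02150

/-- The negation of the preceding statement: There is a finitely generated group Γ and a map from Γ to the affine group ℝ²⋊SL(2,ℝ) (as 3×3 matrices) that is a quasi-isometry for word metrics of a finite generating set of Γ and a compact generating set of the matrix group. -/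
theorem result :
    ¬ (∃ (Γ : Type) (_ : Group Γ) (S : Finset Γ) (K : Set (Matrix (Fin 3) (Fin 3) ℝ))
      (f : Γ → Matrix (Fin 3) (Fin 3) ℝ) (L C : ℕ),
      (1 : Γ) ∈ S ∧ (∀ s ∈ S, s⁻¹ ∈ S) ∧
      (∀ g : Γ, ∃ n : ℕ, g ∈ ((S : Set Γ) ^ n)) ∧
      IsCompact K ∧ (1 : Matrix (Fin 3) (Fin 3) ℝ) ∈ K ∧ (∀ M ∈ K, M⁻¹ ∈ K) ∧
      (∀ M ∈ K, M 2 0 = 0 ∧ M 2 1 = 0 ∧ M 2 2 = 1 ∧ M.det = 1) ∧
      (∀ M : Matrix (Fin 3) (Fin 3) ℝ, (M 2 0 = 0 ∧ M 2 1 = 0 ∧ M 2 2 = 1 ∧ M.det = 1) →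
        ∃ n : ℕ, M ∈ K ^ n) ∧
      (∀ a : Γ, (f a) 2 0 = 0 ∧ (f a) 2 1 = 0 ∧ (f a) 2 2 = 1 ∧ (f a).det = 1) ∧
      (∀ (a b : Γ) (n : ℕ), a⁻¹ * b ∈ ((S : Set Γ) ^ n) →
        (f a)⁻¹ * f b ∈ K ^ (L * n + C)) ∧
      (∀ (a b : Γ) (n : ℕ), (f a)⁻¹ * f b ∈ K ^ n →
        a⁻¹ * b ∈ ((S : Set Γ) ^ (L * n + C))) ∧
      (∀ M : Matrix (Fin 3) (Fin 3) ℝ, (M 2 0 = 0 ∧ M 2 1 = 0 ∧ M 2 2 = 1 ∧ M.det = 1) →
        ∃ a : Γ, (f a)⁻¹ * M ∈ K ^ C)) := by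
  exact Pool.Agent.FIB.partZ Pool.Agent.FIB.stF

end Pool.Agent.S02150
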