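import Pool.Statements.S02876
-- import your own Pool.Agent.* helpers here
import Pool.Agent.UPP42.PL

set_option autoImplicit false
open Pool Pool.MP_bac701_al

namespace Pool.Agent.S02876

open Pool.Agent.UPP42

/-- Coordinates on the Euclidean plane. -/
noncomputable def coordL : EuclideanSpace ℝ (Fin 2) ≃L[ℝ] (ℝ × ℝ) :=
  (EuclideanSpace.equiv (Fin 2) ℝ).trans (ContinuousLinearEquiv.finTwoArrow ℝ ℝ)

/-- Conjugation by a continuous linear equivalence preserves bounded displacement. -/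
noncomputable def conjBD {E F : Type*} [NormedAddCommGroup E] [NormedSpace ℝ E]
    [NormedAddCommGroup F] [NormedSpace ℝ F] (L : E ≃L[ℝ] F) : BD F →* BD E where
  toFun f := ⟨(L.toHomeomorph.trans (f : F ≃ₜ F)).trans L.symm.toHomeomorph, by
    obtain ⟨C, hC⟩ := f.2
    refine ⟨‖(L.symm : F →L[ℝ] E)‖ * C, fun z => ?_⟩
    have h1 : ((L.toHomeomorph.trans (f : F ≃ₜ F)).trans L.symm.toHomeomorph) z - z
        = (L.symm : F →L[ℝ] E) ((f : F ≃ₜ F) (L z) - L z) := by
      rw [map_sub]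
      simp
    rw [h1]
    exact ((L.symm : F →L[ℝ] E).le_opNorm _).trans
      (mul_le_mul_of_nonneg_left (hC _) (norm_nonneg _))⟩
  map_one' := by
    apply Subtype.ext
    apply Homeomorph.ext
    intro z
    show L.symm (L z) = z
    simp
  map_mul' f g := by
    apply Subtype.ext
    apply Homeomorph.ext
    intro z
    show L.symm ((f : F ≃ₜ F) ((g : F ≃ₜ F) (L z)))
      = L.symm ((f : F ≃ₜ F) (L (L.symm ((g : F ≃ₜ F) (L z)))))
    simp

theorem conjBD_injective {E F : Type*} [NormedAddCommGroup E] [NormedSpace ℝ E]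
    [NormedAddCommGroup F] [NormedSpace ℝ F] (L : E ≃L[ℝ] F) :
    Function.Injective (conjBD L) := by
  intro f g h
  apply Subtype.ext
  apply Homeomorph.ext
  intro w
  have h1 := congrArg (fun k : BD E => (k : E ≃ₜ E) (L.symm w)) h
  have h2 : L.symm ((f : F ≃ₜ F) (L (L.symm w))) = L.symm ((g : F ≃ₜ F) (L (L.symm w))) := h1
  simpa using h2

/-- The negation of the preceding statement: Let A and B be nonempty finite sets of homeomorphisms of the closed unit disk in ℝ² that fix the boundary circle pointwise. Then some product a₀∘b₀ (a₀ in A, b₀ in B) is obtained as a∘b with a in A, b in B only when a = a₀ and b = b₀. -/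
theorem result :
    ¬ (∀ A B : Finset (↥(Metric.closedBall (0 : EuclideanSpace ℝ (Fin 2)) 1) ≃ₜ
        ↥(Metric.closedBall (0 : EuclideanSpace ℝ (Fin 2)) 1)),
      A.Nonempty → B.Nonempty →
      (∀ f ∈ A, ∀ x : ↥(Metric.closedBall (0 : EuclideanSpace ℝ (Fin 2)) 1),
          ‖(x : EuclideanSpace ℝ (Fin 2))‖ = 1 → f x = x) →
      (∀ f ∈ B, ∀ x : ↥(Metric.closedBall (0 : EuclideanSpace ℝ (Fin 2)) 1),
          ‖(x : EuclideanSpace ℝ (Fin 2))‖ = 1 → f x = x) →
      ∃ a₀ ∈ A, ∃ b₀ ∈ B, ∀ a ∈ A, ∀ b ∈ B,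
        b.trans a = b₀.trans a₀ → a = a₀ ∧ b = b₀) := by
  intro H
  obtain ⟨S, hfin, hne, hS⟩ := exists_BD_set
  let D : BD (ℝ × ℝ) →* (↥(Metric.closedBall (0 : EuclideanSpace ℝ (Fin 2)) 1) ≃ₜ
      ↥(Metric.closedBall (0 : EuclideanSpace ℝ (Fin 2)) 1)) := discH.comp (conjBD coordL)
  have hD : Function.Injective D := discH_injective.comp (conjBD_injective coordL)
  have hbd : ∀ (f : BD (ℝ × ℝ)) (x : ↥(Metric.closedBall (0 : EuclideanSpace ℝ (Fin 2)) 1)),
      ‖(x : EuclideanSpace ℝ (Fin 2))‖ = 1 → D f x = x := fun f x hx => discH_boundary _ x hx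
  have hAfin : (D '' S).Finite := hfin.image D
  have hBfin : ((fun f => D f⁻¹) '' S).Finite := hfin.image _
  obtain ⟨s, hs⟩ := hne
  obtain ⟨a₀, ha₀, b₀, hb₀, huniq⟩ := H hAfin.toFinset hBfin.toFinset
    ⟨D s, by rw [Set.Finite.mem_toFinset]; exact ⟨s, hs, rfl⟩⟩ ⟨D s⁻¹, by
      rw [Set.Finite.mem_toFinset]; exact ⟨s, hs, rfl⟩⟩
    (by
      intro f hf x hx
      rw [Set.Finite.mem_toFinset] at hf
      obtain ⟨g, _, rfl⟩ := hf
      exact hbd g x hx)
    (by
      intro f hf x hx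
      rw [Set.Finite.mem_toFinset] at hf
      obtain ⟨g, _, rfl⟩ := hf
      exact hbd g⁻¹ x hx)
  rw [Set.Finite.mem_toFinset] at ha₀ hb₀
  obtain ⟨a, ha, rfl⟩ := ha₀
  obtain ⟨b, hb, rfl⟩ := hb₀
  obtain ⟨u, hu, hau, hbu⟩ := hS a ha b hb
  have h1 := huniq (D (a * u)) (by rw [Set.Finite.mem_toFinset]; exact ⟨a * u, hau, rfl⟩)
    (D (b * u)⁻¹) (by rw [Set.Finite.mem_toFinset]; exact ⟨b * u, hbu, rfl⟩)
    (by
      show D (a * u) * D (b * u)⁻¹ = D a * D b⁻¹
      rw [← map_mul, ← map_mul]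
      congr 1
      group)
  have h2 := hD h1.1
  exact hu (by simpa using h2)

end Pool.Agent.S02876
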