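import Pool.Statements.S02886
import Pool.Agent.H39.PiLength

set_option autoImplicit false
open Pool Pool.MP_bbd7c2_al

namespace Pool.Agent.S02886

/-- The negation of the preceding statement: For a finite π-soluble group G with Hall π-subgroup H of nilpotent length ≤ a and p-length ≤ b for all p in π, G has a normal series with π′ factors and at most a−1+b nilpotent π-factors. -/
theorem result :
    ¬ (∀ (G : Type) [Group G] [Finite G] (π : Set ℕ), (∀ p ∈ π, p.Prime) →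
    (∃ (k : ℕ) (s : ℕ → Subgroup G), s 0 = ⊥ ∧ s k = ⊤ ∧ (∀ i ≤ k, (s i).Normal) ∧
      (∀ i < k, s i ≤ s (i + 1)) ∧
      ∀ i < k, (∀ q : ℕ, q.Prime → q ∣ Nat.card (s (i + 1)) / Nat.card (s i) → q ∉ π) ∨
        ∃ p ∈ π, ∃ e : ℕ, Nat.card (s (i + 1)) / Nat.card (s i) = p ^ e) →
    ∀ (H : Subgroup G), (∀ q : ℕ, q.Prime → q ∣ Nat.card H → q ∈ π) →
      (∀ q : ℕ, q.Prime → q ∣ H.index → q ∉ π) →
    ∀ (a b : ℕ),
      (∃ t : ℕ → Subgroup H, t 0 = ⊥ ∧ t a = ⊤ ∧ (∀ i ≤ a, (t i).Normal) ∧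
        (∀ i < a, t i ≤ t (i + 1)) ∧
        ∀ i < a, ∃ c : ℕ, (fun K : Subgroup H => ⁅K, t (i + 1)⁆)^[c] (t (i + 1)) ≤ t i) →
      (∀ p ∈ π, ∃ (k : ℕ) (s : ℕ → Subgroup G) (T : Finset ℕ), T.card ≤ b ∧
        s 0 = ⊥ ∧ s k = ⊤ ∧ (∀ i ≤ k, (s i).Normal) ∧ (∀ i < k, s i ≤ s (i + 1)) ∧
        ∀ i < k, (¬ p ∣ Nat.card (s (i + 1)) / Nat.card (s i)) ∨
          (i ∈ T ∧ ∃ e : ℕ, Nat.card (s (i + 1)) / Nat.card (s i) = p ^ e)) →
      ∃ (k : ℕ) (s : ℕ → Subgroup G) (T : Finset ℕ), T.card ≤ a - 1 + b ∧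
        s 0 = ⊥ ∧ s k = ⊤ ∧ (∀ i ≤ k, (s i).Normal) ∧ (∀ i < k, s i ≤ s (i + 1)) ∧
        ∀ i < k, (∀ q : ℕ, q.Prime → q ∣ Nat.card (s (i + 1)) / Nat.card (s i) → q ∉ π) ∨
          (i ∈ T ∧ (∀ q : ℕ, q.Prime → q ∣ Nat.card (s (i + 1)) / Nat.card (s i) → q ∈ π) ∧
            ∃ c : ℕ, (fun K : Subgroup G => ⁅K, s (i + 1)⁆)^[c] (s (i + 1)) ≤ s i)) := by
  intro hmain
  obtain ⟨G, _, _, s, H, hs0, hs6, hsn, hsm, hsr, hH1, hH2, ht, hno⟩ :=
    Pool.Agent.H39.PiLength.counterexample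
  have pne : ∀ i < 6, ∀ l : ℕ, l.Prime →
      l ∣ Nat.card (s (i + 1)) / Nat.card (s i) → l = Pool.Agent.H39.PiLength.pr 2 3 5 5 i := by
    intro i hi l hl hd
    obtain ⟨e, he⟩ := hsr i hi
    rw [he] at hd
    have h1 := hl.dvd_of_dvd_pow hd
    have h2 : (Pool.Agent.H39.PiLength.pr 2 3 5 5 i).Prime := by
      interval_cases i <;> simp only [Pool.Agent.H39.PiLength.pr] <;> norm_num
    exact (Nat.prime_dvd_prime_iff_eq hl h2).mp h1
  apply hno
  refine hmain G {2, 3} ?_ ?_ H ?_ ?_ 2 2 ht ?_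
  · intro p hp
    rcases hp with rfl | hp
    · exact Nat.prime_two
    · rw [Set.mem_singleton_iff] at hp
      rw [hp]
      exact Nat.prime_three
  · refine ⟨6, s, hs0, hs6, hsn, hsm, ?_⟩
    intro i hi
    by_cases h5 : Pool.Agent.H39.PiLength.pr 2 3 5 5 i = 5
    · left
      intro q hq hd hmem
      have := pne i hi q hq hd
      rw [h5] at this
      subst this
      simp at hmem
    · right
      refine ⟨Pool.Agent.H39.PiLength.pr 2 3 5 5 i, ?_, hsr i hi⟩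
      interval_cases i <;> simp [Pool.Agent.H39.PiLength.pr] at h5 ⊢
  · intro q hq hd
    rcases hH1 q hq hd with rfl | rfl <;> simp
  · intro q hq hd
    rcases hH2 q hq hd with rfl | rfl <;> simp
  · intro p hp
    have hp' : p = 2 ∨ p = 3 := hp
    rcases hp' with rfl | rfl
    · refine ⟨6, s, {0, 2}, by decide, hs0, hs6, hsn, hsm, ?_⟩
      intro i hi
      by_cases h2 : Pool.Agent.H39.PiLength.pr 2 3 5 5 i = 2
      · right
        refine ⟨?_, ?_⟩
        · interval_cases i <;> simp [Pool.Agent.H39.PiLength.pr] at h2 ⊢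
        · obtain ⟨e, he⟩ := hsr i hi
          exact ⟨e, by rw [he, h2]⟩
      · left
        intro hd
        exact h2 (pne i hi 2 Nat.prime_two hd).symm
    · refine ⟨6, s, {3, 5}, by decide, hs0, hs6, hsn, hsm, ?_⟩
      intro i hi
      by_cases h2 : Pool.Agent.H39.PiLength.pr 2 3 5 5 i = 3
      · right
        refine ⟨?_, ?_⟩
        · interval_cases i <;> simp [Pool.Agent.H39.PiLength.pr] at h2 ⊢
        · obtain ⟨e, he⟩ := hsr i hi
          exact ⟨e, by rw [he, h2]⟩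
      · left
        intro hd
        exact h2 (pne i hi 3 Nat.prime_three hd).symm

end Pool.Agent.S02886
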