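import Pool.Statements.S03073
import Pool.Agent.H41.VS.Final
import Pool.Agent.H41.VS.Inv

set_option autoImplicit false
open Pool Pool.MP_cc72ee_al

namespace Pool.Agent.S03073

/-- If two finitely generated groups each have a finite-index subgroup embedding in a right-angled Artin group, then so does their amalgam over any common virtually cyclic subgroup (embedded injectively in both). -/
theorem result :
    ∀ (G : Bool → Type) [∀ i, Group (G i)] (H : Type) [Group H] (φ : ∀ i, H →* G i),
      (∀ i, Function.Injective (φ i)) →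
      (∀ i, Group.FG (G i)) →
      (∃ C : Subgroup H, IsCyclic C ∧ C.index ≠ 0) →
      (∀ i, ∃ (n : ℕ) (Γ : SimpleGraph (Fin n)) (K : Subgroup (G i)),
        K.index ≠ 0 ∧
        ∃ f : K →* PresentedGroup
            {r : FreeGroup (Fin n) | ∃ u v : Fin n, Γ.Adj u v ∧
              r = FreeGroup.of u * FreeGroup.of v * (FreeGroup.of u)⁻¹ * (FreeGroup.of v)⁻¹},
          Function.Injective f) →
      ∃ (n : ℕ) (Γ : SimpleGraph (Fin n)) (K : Subgroup (Monoid.PushoutI φ)),
        K.index ≠ 0 ∧
        ∃ f : K →* PresentedGroup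
            {r : FreeGroup (Fin n) | ∃ u v : Fin n, Γ.Adj u v ∧
              r = FreeGroup.of u * FreeGroup.of v * (FreeGroup.of u)⁻¹ * (FreeGroup.of v)⁻¹},
          Function.Injective f := by
  intro G _ H _ φ hφ _ hH hG
  exact Pool.Agent.H41.VS.raag_of_vs _
    (Pool.Agent.H41.VS.amalgam_vs Pool.Agent.H41.VS.exists_inverting G H φ hφ hH
      (fun i => Pool.Agent.H41.VS.vs_of_raag _ (hG i)))

end Pool.Agent.S03073
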