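import Pool.Statements.S03341
import Pool.Agent.H42.CircMain

set_option autoImplicit false
open Real
open Pool Pool.MP_e2537c_al

namespace Pool.Agent.S03341

/-- There exist n ≥ 4 and a group of homeomorphisms of the circle that can map any counterclockwise-ordered n-tuple of distinct points onto any other such tuple, but fails to do so for some pair of ordered (n+1)-tuples. -/
theorem result :
    ∃ n : ℕ, 4 ≤ n ∧ ∃ Γ : Subgroup (Circle ≃ₜ Circle),
      (∀ x y : Fin n → Circle,
        (∃ t : Fin n → ℝ, StrictMono t ∧ (∀ i j, t j < t i + 2 * π) ∧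
            ∀ i, x i = Circle.exp (t i)) →
        (∃ s : Fin n → ℝ, StrictMono s ∧ (∀ i j, s j < s i + 2 * π) ∧
            ∀ i, y i = Circle.exp (s i)) →
        ∃ γ ∈ Γ, ∀ i, x i = γ (y i)) ∧
      ¬ (∀ x y : Fin (n + 1) → Circle,
        (∃ t : Fin (n + 1) → ℝ, StrictMono t ∧ (∀ i j, t j < t i + 2 * π) ∧
            ∀ i, x i = Circle.exp (t i)) →
        (∃ s : Fin (n + 1) → ℝ, StrictMono s ∧ (∀ i j, s j < s i + 2 * π) ∧
            ∀ i, y i = Circle.exp (s i)) →
        ∃ γ ∈ Γ, ∀ i, x i = γ (y i)) :=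
  ⟨4, le_rfl, Pool.Agent.H42.Circ.main 4 (by norm_num)⟩

end Pool.Agent.S03341
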