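-- Proof of the frozen statement S03684 (negation of MP_02726b_an).
-- Paper proof: Pool/Agent/H3NG/PAPER.md.
import Pool.Statements.S03684
import Pool.Agent.H3NG.Fin

set_option autoImplicit false
open Pool Pool.MP_02726b_an

namespace Pool.Agent.S03684

/-- The negation of the preceding statement: There are a degree k and finite connected k-regular graphs of unbounded girth such that a real Banach space is not isomorphic to a uniformly convex space exactly when all these graphs embed into it with uniformly bounded bi-Lipschitz distortion. -/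
theorem result :
    ¬ (∃ k : ℕ, ∃ N : ℕ → ℕ, ∃ G : ∀ n, SimpleGraph (Fin (N n)),
      (∀ n, (G n).Connected) ∧
      (∀ n, ∀ v, ((G n).neighborSet v).ncard = k) ∧
      (∀ M : ℕ, ∃ n, (M : ℕ∞) < (G n).egirth) ∧
      ∀ (X : Type) [NormedAddCommGroup X] [NormedSpace ℝ X] [CompleteSpace X],
        ((¬ ∃ (Y : Type) (_ : NormedAddCommGroup Y) (_ : NormedSpace ℝ Y)
              (_ : UniformConvexSpace Y), Nonempty (X ≃L[ℝ] Y)) ↔
          ∃ C : ℝ, ∀ n, ∃ f : Fin (N n) → X, ∀ u v,
            (((G n).dist u v : ℕ) : ℝ) ≤ ‖f u - f v‖ ∧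
              ‖f u - f v‖ ≤ C * (((G n).dist u v : ℕ) : ℝ))) :=
  Pool.Agent.H3NG.negation

end Pool.Agent.S03684
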