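import Pool.Statements.S04150

set_option autoImplicit false
open Pool Pool.MP_299699_an

namespace Pool.Agent.S04150

open NormedSpace Metric Topology Filter

/-- The real Hilbert space of square summable sequences. -/
abbrev H : Type := lp (fun _ : ℕ => ℝ) 2

/-- The reflexive space: the sup-norm product of the Hilbert space with the line. -/
abbrev X0 : Type := H × ℝ

/-- The unit vectors. -/
noncomputable def e (n : ℕ) : H := lp.single 2 n (1 : ℝ)

lemma norm_e (n : ℕ) : ‖e n‖ = 1 := by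
  unfold e
  rw [lp.norm_single (by norm_num)]
  simp

lemma inner_e {n m : ℕ} (h : n ≠ m) : inner ℝ (e n) (e m) = 0 := by
  unfold e
  rw [lp.inner_single_left]
  simp [lp.single_apply, h]

lemma dist_e {n m : ℕ} (h : n ≠ m) : 1 ≤ dist (e n) (e m) := by
  rw [dist_eq_norm]
  have h1 : ‖e n - e m‖ ^ 2 = 2 := by
    rw [@norm_sub_sq_real, norm_e, norm_e, inner_e h]
    norm_num
  nlinarith [norm_nonneg (e n - e m)]

/-- Points above the unit vectors. -/
def A : Set X0 := Set.range (fun n : ℕ => (e n, (1 : ℝ) / (n + 1)))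

lemma isClosed_A : IsClosed A := by
  apply Metric.isClosed_of_pairwise_le_dist (ε := 1) one_pos
  rintro _ ⟨n, rfl⟩ _ ⟨m, rfl⟩ hne
  have hnm : n ≠ m := by
    rintro rfl
    exact hne rfl
  calc (1 : ℝ) ≤ dist (e n) (e m) := dist_e hnm
    _ ≤ _ := by
      rw [Prod.dist_eq]
      exact le_max_left _ _

lemma nonempty_A : A.Nonempty := ⟨_, ⟨0, rfl⟩⟩

/-- The positive function with infimum zero. -/
noncomputable def phi (h : H) : ℝ := infDist ((h, 0) : X0) A

lemma phi_pos (h : H) : 0 < phi h := by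
  unfold phi
  rw [← isClosed_A.notMem_iff_infDist_pos nonempty_A]
  rintro ⟨n, hn⟩
  have h2 := congrArg Prod.snd hn
  have : (0 : ℝ) < 1 / ((n : ℝ) + 1) := by positivity
  simp only at h2
  linarith

lemma phi_e (n : ℕ) : phi (e n) ≤ 1 / ((n : ℝ) + 1) := by
  unfold phi
  have hmem : ((e n, (1 : ℝ) / ((n : ℝ) + 1)) : X0) ∈ A := ⟨n, rfl⟩
  refine (infDist_le_dist_of_mem hmem).trans ?_
  rw [Prod.dist_eq]
  simp only [dist_self]
  have : (0 : ℝ) < 1 / ((n : ℝ) + 1) := by positivity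
  rw [Real.dist_eq, zero_sub, abs_neg, abs_of_pos this]
  exact max_le this.le le_rfl

lemma phi_lip (h k : H) : |phi h - phi k| ≤ dist h k := by
  have := (lipschitz_infDist_pt A).dist_le_mul ((h, 0) : X0) ((k, 0) : X0)
  rw [Real.dist_eq, NNReal.coe_one, one_mul, Prod.dist_eq] at this
  unfold phi
  simpa using this

/-- The convex set. -/
def C : Set X0 := {p | ‖p.1‖ ≤ 1 ∧ p.2 = 0}

lemma isClosed_C : IsClosed C := by
  have h1 : IsClosed {p : X0 | ‖p.1‖ ≤ 1} :=
    isClosed_le (continuous_norm.comp continuous_fst) continuous_const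
  have h2 : IsClosed {p : X0 | p.2 = 0} := isClosed_eq continuous_snd continuous_const
  exact h1.inter h2

lemma convex_C : Convex ℝ C := by
  rintro ⟨h, s⟩ ⟨h1, h2⟩ ⟨k, t⟩ ⟨k1, k2⟩ a b ha hb hab
  simp only at h1 h2 k1 k2
  subst h2 k2
  refine ⟨?_, by simp⟩
  simp only [Prod.smul_mk, Prod.mk_add_mk]
  calc ‖a • h + b • k‖ ≤ ‖a • h‖ + ‖b • k‖ := norm_add_le _ _
    _ = a * ‖h‖ + b * ‖k‖ := by
      rw [norm_smul, norm_smul, Real.norm_of_nonneg ha, Real.norm_of_nonneg hb]
    _ ≤ a * 1 + b * 1 := by gcongr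
    _ = 1 := by linarith

lemma bounded_C : Bornology.IsBounded C := by
  rw [isBounded_iff_forall_norm_le]
  refine ⟨1, ?_⟩
  rintro ⟨h, s⟩ ⟨h1, h2⟩
  simp only at h1 h2
  subst h2
  rw [Prod.norm_def]
  simpa using h1

lemma reflexive_H : Function.Surjective (inclusionInDoubleDual ℝ H) := by
  intro φ
  let ψ : StrongDual ℝ H := LinearMap.mkContinuous
    { toFun := fun h => φ (InnerProductSpace.toDual ℝ H h)
      map_add' := fun h k => by rw [map_add, map_add]
      map_smul' := fun c h => by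
        rw [LinearIsometryEquiv.map_smulₛₗ]
        simp } ‖φ‖ (fun h => by
          refine (φ.le_opNorm _).trans ?_
          rw [LinearIsometryEquiv.norm_map])
  refine ⟨(InnerProductSpace.toDual ℝ H).symm ψ, ?_⟩
  ext f
  rw [dual_def]
  obtain ⟨g, rfl⟩ := (InnerProductSpace.toDual ℝ H).surjective f
  rw [InnerProductSpace.toDual_apply_apply, real_inner_comm, InnerProductSpace.toDual_symm_apply]
  rfl

lemma reflexive_X : Function.Surjective (inclusionInDoubleDual ℝ X0) := by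
  intro φ
  let ψ : StrongDual ℝ (StrongDual ℝ H) :=
    φ.comp ((ContinuousLinearMap.compL ℝ X0 H ℝ).flip (ContinuousLinearMap.fst ℝ H ℝ))
  obtain ⟨h, hh⟩ := reflexive_H ψ
  let t : ℝ := φ (ContinuousLinearMap.snd ℝ H ℝ)
  refine ⟨(h, t), ?_⟩
  ext f
  rw [dual_def]
  have hf : f = (f.comp (ContinuousLinearMap.inl ℝ H ℝ)).comp (ContinuousLinearMap.fst ℝ H ℝ)
      + (f (0, 1)) • (ContinuousLinearMap.snd ℝ H ℝ) := by
    ext
    · simp
    · have : f (0, 0) = 0 := map_zero f
      simp [this]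
  have h1 : φ ((f.comp (ContinuousLinearMap.inl ℝ H ℝ)).comp (ContinuousLinearMap.fst ℝ H ℝ))
      = f (h, 0) := by
    have := congrArg (fun T : StrongDual ℝ (StrongDual ℝ H) =>
      T (f.comp (ContinuousLinearMap.inl ℝ H ℝ))) hh
    simp only [dual_def] at this
    exact this.symm
  have h2 : f (h, t) = f (h, 0) + t * f (0, 1) := by
    have : ((h, t) : X0) = (h, 0) + t • (0, 1) := by simp
    rw [this, map_add, map_smul, smul_eq_mul]
  rw [h2]
  conv_rhs => rw [hf]
  rw [map_add, map_smul, h1, smul_eq_mul]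
  ring

lemma weaklyCompact_C : IsCompact ((toWeakSpace ℝ X0) '' C) := by
  have hcl : closure ((toWeakSpace ℝ X0) '' C) = (toWeakSpace ℝ X0) '' C := by
    rw [← convex_C.toWeakSpace_closure ℝ, isClosed_C.closure_eq]
  rw [← hcl]
  apply isCompact_closure_of_isBounded ℝ X0
  · rw [Set.preimage_image_eq _ (toWeakSpace ℝ X0).injective]
    exact bounded_C
  · intro z _
    obtain ⟨x, hx⟩ := reflexive_X (WeakDual.toStrongDual z)
    refine ⟨toWeakSpace ℝ X0 x, ?_⟩
    apply WeakDual.toStrongDual.injective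
    rw [← hx]
    rfl

lemma normal_C (K : Set X0) (hK : K ⊆ C) (hconv : Convex ℝ K)
    (hab : ∃ a ∈ K, ∃ b ∈ K, a ≠ b) :
    ∃ x ∈ K, ∃ r : ℝ, r < Metric.diam K ∧ ∀ y ∈ K, dist x y ≤ r := by
  obtain ⟨a, ha, b, hb, hne⟩ := hab
  have hbdd : Bornology.IsBounded K := bounded_C.subset hK
  have hdist : ∀ p ∈ K, ∀ q ∈ K, dist p q = ‖p.1 - q.1‖ := by
    intro p hp q hq
    rw [Prod.dist_eq, (hK hp).2, (hK hq).2, dist_self, dist_eq_norm]
    exact max_eq_left (norm_nonneg _)
  have hpos : 0 < ‖a.1 - b.1‖ := by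
    rw [← hdist a ha b hb]
    exact dist_pos.mpr hne
  have hD : ‖a.1 - b.1‖ ≤ diam K := by
    rw [← hdist a ha b hb]
    exact dist_le_diam_of_mem hbdd ha hb
  have hDpos : 0 < diam K := hpos.trans_le hD
  have hm : (1 / 2 : ℝ) • a + (1 / 2 : ℝ) • b ∈ K :=
    hconv ha hb (by norm_num) (by norm_num) (by norm_num)
  refine ⟨(1 / 2 : ℝ) • a + (1 / 2 : ℝ) • b, hm,
    Real.sqrt (diam K ^ 2 - ‖a.1 - b.1‖ ^ 2 / 4), ?_, ?_⟩
  · rw [Real.sqrt_lt' hDpos]
    have : 0 < ‖a.1 - b.1‖ ^ 2 := by positivity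
    linarith
  · intro y hy
    rw [hdist _ hm y hy]
    apply Real.le_sqrt_of_sq_le
    have e1 : ‖a.1 - y.1‖ ≤ diam K := by
      rw [← hdist a ha y hy]
      exact dist_le_diam_of_mem hbdd ha hy
    have e2 : ‖b.1 - y.1‖ ≤ diam K := by
      rw [← hdist b hb y hy]
      exact dist_le_diam_of_mem hbdd hb hy
    have par := parallelogram_law_with_norm ℝ (a.1 - y.1) (b.1 - y.1)
    have s1 : (a.1 - y.1) + (b.1 - y.1) =
        (2 : ℝ) • (((1 / 2 : ℝ) • a + (1 / 2 : ℝ) • b).1 - y.1) := by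
      simp only [Prod.fst_add, Prod.smul_fst]
      module
    have s2 : (a.1 - y.1) - (b.1 - y.1) = a.1 - b.1 := by abel
    rw [s1, s2, norm_smul] at par
    have : ‖(2 : ℝ)‖ = 2 := by norm_num
    rw [this] at par
    have q1 : ‖a.1 - y.1‖ * ‖a.1 - y.1‖ ≤ diam K * diam K := by gcongr
    have q2 : ‖b.1 - y.1‖ * ‖b.1 - y.1‖ ≤ diam K * diam K := by gcongr
    nlinarith

/-- The negation of the preceding statement: In every reflexive real Banach space, if C is closed, convex, weakly compact with normal structure and f is nonexpansive on C, then the set of values x minus f(x) for x in C is closed. -/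
theorem result :
    ¬ (∀ (X : Type) [NormedAddCommGroup X] [NormedSpace ℝ X] [CompleteSpace X],
    Function.Surjective (NormedSpace.inclusionInDoubleDual ℝ X) →
    ∀ (C : Set X), IsClosed C → Convex ℝ C → IsCompact ((toWeakSpace ℝ X) '' C) →
    (∀ K : Set X, K ⊆ C → Convex ℝ K → (∃ a ∈ K, ∃ b ∈ K, a ≠ b) →
        ∃ x ∈ K, ∃ r : ℝ, r < Metric.diam K ∧ ∀ y ∈ K, dist x y ≤ r) →
    ∀ f : X → X, (∀ x ∈ C, ∀ y ∈ C, dist (f x) (f y) ≤ dist x y) →
    IsClosed {z : X | ∃ x ∈ C, z = x - f x}) := by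
  intro hall
  have key := hall X0 reflexive_X C isClosed_C convex_C weaklyCompact_C normal_C
    (fun p => (p.1, phi p.1)) (by
      rintro ⟨h, s⟩ hp ⟨k, t⟩ hq
      simp only
      rw [Prod.dist_eq, Prod.dist_eq]
      simp only
      apply max_le (le_max_left _ _)
      rw [Real.dist_eq]
      exact (phi_lip h k).trans (le_max_left _ _))
  have hmem : ((0 : H), (0 : ℝ)) ∈ {z : X0 | ∃ x ∈ C, z = x - (x.1, phi x.1)} := by
    have hlim : Tendsto (fun n : ℕ => ((0 : H), -phi (e n))) atTop (𝓝 ((0 : H), (0 : ℝ))) := by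
      refine Tendsto.prodMk_nhds tendsto_const_nhds ?_
      rw [← neg_zero]
      apply Tendsto.neg
      exact squeeze_zero (fun n => (phi_pos _).le) phi_e tendsto_one_div_add_atTop_nhds_zero_nat
    refine key.mem_of_tendsto hlim (Eventually.of_forall fun n => ?_)
    refine ⟨(e n, 0), ⟨(norm_e n).le, rfl⟩, ?_⟩
    simp
  obtain ⟨x, hxmem, hx⟩ := hmem
  have h2 := congrArg Prod.snd hx
  have hxC : x.2 = 0 := hxmem.2
  simp only [Prod.snd_sub] at h2
  rw [hxC] at h2
  have := phi_pos x.1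
  linarith

end Pool.Agent.S04150
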