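import Pool.Statements.S04685
import Pool.Agent.H66B.Final

set_option autoImplicit false
open Pool Pool.MP_539630_an

namespace Pool.Agent.S04685

/-- For every real Banach space whose dual unit ball is fragmentable in the weak* topology by some metric, there is a Lipschitz function on the space, not identically zero, with bounded support, that is Gâteaux differentiable at every point. -/
theorem result :
  ∀ (X : Type) [NormedAddCommGroup X] [NormedSpace ℝ X] [CompleteSpace X],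
    (∃ ρ : (X →L[ℝ] ℝ) → (X →L[ℝ] ℝ) → ℝ,
      (∀ f g : X →L[ℝ] ℝ, ‖f‖ ≤ 1 → ‖g‖ ≤ 1 → (ρ f g = 0 ↔ f = g)) ∧
      (∀ f g : X →L[ℝ] ℝ, ‖f‖ ≤ 1 → ‖g‖ ≤ 1 → ρ f g = ρ g f) ∧
      (∀ f g k : X →L[ℝ] ℝ, ‖f‖ ≤ 1 → ‖g‖ ≤ 1 → ‖k‖ ≤ 1 →
          ρ f k ≤ ρ f g + ρ g k) ∧
      ∀ ε : ℝ, 0 < ε → ∀ M : Set (X →L[ℝ] ℝ), M.Nonempty →
        M ⊆ {f : X →L[ℝ] ℝ | ‖f‖ ≤ 1} →
        ∃ Ω : Set (X →L[ℝ] ℝ),
          @IsOpen (X →L[ℝ] ℝ)
            (TopologicalSpace.induced (fun f : X →L[ℝ] ℝ => (⇑f : X → ℝ))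
              Pi.topologicalSpace) Ω ∧
          (M ∩ Ω).Nonempty ∧
          ∀ f ∈ M ∩ Ω, ∀ g ∈ M ∩ Ω, ρ f g < ε) →
    ∃ b : X → ℝ, (∃ K : NNReal, LipschitzWith K b) ∧
      Bornology.IsBounded (Function.support b) ∧ (∃ x : X, b x ≠ 0) ∧
      ∀ x : X, ∃ L : X →L[ℝ] ℝ, ∀ h : X,
        HasDerivAt (fun t : ℝ => b (x + t • h)) (L h) 0 := by
  intro X _ _ _ hX
  exact Pool.Agent.H66B.main X hX

end Pool.Agent.S04685
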