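import Pool.Statements.S05050

set_option autoImplicit false
open Pool Pool.MP_7364f6_an

namespace Pool.Agent.S05050

open Filter Topology Set

noncomputable section

/-- The index set: a disjoint union of cycles of lengths 2^j. -/
abbrev Idx : Type := Σ j : ℕ, ZMod (2 ^ j)

instance instNeZeroPow (j : ℕ) : NeZero (2 ^ j : ℕ) := ⟨pow_ne_zero _ two_ne_zero⟩

/-- The space l1 over the index set. -/
abbrev Sp : Type := lp (fun _ : Idx => ℝ) 1

/-- The weight sqrt(2^j/(t+1)), where t is the time needed to reach the peak. -/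
def W (j : ℕ) (t : ZMod (2 ^ j)) : ℝ := Real.sqrt (2 ^ j) / Real.sqrt ((t.val : ℝ) + 1)

/-- Potential. -/
def g (j : ℕ) (t : ZMod (2 ^ j)) : ℝ :=
  2 * (Real.sqrt (2 ^ j) * Real.sqrt ((t.val : ℝ) + 1)) - 2 * ((t.val : ℝ) + 1)

lemma val_add_one_le (j : ℕ) (t : ZMod (2 ^ j)) : (t.val : ℝ) + 1 ≤ 2 ^ j := by
  have h := ZMod.val_lt t
  have h2 : t.val + 1 ≤ 2 ^ j := h
  exact_mod_cast h2

lemma W_pos (j : ℕ) (t : ZMod (2 ^ j)) : 0 < W j t := by
  unfold W
  positivity

lemma one_le_W (j : ℕ) (t : ZMod (2 ^ j)) : 1 ≤ W j t := by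
  unfold W
  rw [le_div_iff₀ (by positivity), one_mul]
  exact Real.sqrt_le_sqrt (val_add_one_le j t)

lemma W_le (j : ℕ) (t : ZMod (2 ^ j)) : W j t ≤ Real.sqrt (2 ^ j) := by
  unfold W
  apply div_le_self (Real.sqrt_nonneg _)
  rw [Real.one_le_sqrt]
  have : (0 : ℝ) ≤ (t.val : ℝ) := by positivity
  linarith

lemma g_nonneg (j : ℕ) (t : ZMod (2 ^ j)) : 0 ≤ g j t := by
  unfold g
  have h1 := val_add_one_le j t
  have h2 : Real.sqrt ((t.val : ℝ) + 1) ≤ Real.sqrt (2 ^ j) := Real.sqrt_le_sqrt h1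
  have h3 : (t.val : ℝ) + 1 = Real.sqrt ((t.val : ℝ) + 1) * Real.sqrt ((t.val : ℝ) + 1) := by
    rw [Real.mul_self_sqrt (by positivity)]
  have h4 : Real.sqrt ((t.val : ℝ) + 1) * Real.sqrt ((t.val : ℝ) + 1)
      ≤ Real.sqrt (2 ^ j) * Real.sqrt ((t.val : ℝ) + 1) :=
    mul_le_mul_of_nonneg_right h2 (Real.sqrt_nonneg _)
  linarith

lemma step (j : ℕ) (s : ZMod (2 ^ j)) : W j s ≤ g j s - g j (s - 1) + 2 := by
  rcases Nat.eq_zero_or_pos s.val with h0 | h0
  · have hs : s = 0 := by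
      rwa [ZMod.val_eq_zero] at h0
    subst hs
    have hg : g j ((0 : ZMod (2 ^ j)) - 1) = 0 := by
      have hv : ((0 : ZMod (2 ^ j)) - 1).val = 2 ^ j - 1 := by
        rw [zero_sub]
        rcases Nat.eq_zero_or_pos j with hj | hj
        · subst hj
          have := ZMod.val_lt (-1 : ZMod (2 ^ 0))
          simp at this ⊢
        · have h2 : 1 < 2 ^ j := Nat.one_lt_two_pow (by omega)
          have : Fact (1 < 2 ^ j) := ⟨h2⟩
          have : NeZero (1 : ZMod (2 ^ j)) := ⟨one_ne_zero⟩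
          rw [ZMod.val_neg_of_ne_zero, ZMod.val_one]
      unfold g
      rw [hv]
      have h3 : ((2 ^ j - 1 : ℕ) : ℝ) + 1 = 2 ^ j := by
        have : (2 ^ j - 1) + 1 = 2 ^ j := Nat.sub_add_cancel Nat.one_le_two_pow
        exact_mod_cast this
      rw [h3, Real.mul_self_sqrt (by positivity)]
      ring
    rw [hg]
    unfold W g
    simp only [ZMod.val_zero, Nat.cast_zero, zero_add, Real.sqrt_one]
    have : 0 ≤ Real.sqrt (2 ^ j) := Real.sqrt_nonneg _
    linarith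
  · obtain ⟨m, hm⟩ : ∃ m, s.val = m + 1 := ⟨s.val - 1, by omega⟩
    have hj : 1 < 2 ^ j := by
      have := ZMod.val_lt s
      omega
    have : Fact (1 < 2 ^ j) := ⟨hj⟩
    have hv : (s - 1).val = m := by
      rw [ZMod.val_sub]
      · rw [hm, ZMod.val_one]
        rfl
      · rw [ZMod.val_one]
        exact h0
    unfold W g
    rw [hv, hm]
    push_cast
    set a := Real.sqrt (2 ^ j) with ha
    set b := Real.sqrt ((m : ℝ) + 1 + 1) with hb
    set c := Real.sqrt ((m : ℝ) + 1) with hc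
    have ha0 : 0 ≤ a := Real.sqrt_nonneg _
    have hb0 : 0 < b := Real.sqrt_pos.mpr (by positivity)
    have hb2 : b * b = (m : ℝ) + 1 + 1 := Real.mul_self_sqrt (by positivity)
    have hc2 : c * c = (m : ℝ) + 1 := Real.mul_self_sqrt (by positivity)
    rw [div_le_iff₀ hb0]
    have h5 : 1 ≤ 2 * b * (b - c) := by nlinarith [sq_nonneg (b - c)]
    have h6 : a * 1 ≤ a * (2 * b * (b - c)) := mul_le_mul_of_nonneg_left h5 ha0
    nlinarith

lemma sum_le (j : ℕ) (t : ZMod (2 ^ j)) (N : ℕ) :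
    ∑ n ∈ Finset.range N, W j (t - n) ≤ g j t - g j (t - N) + 2 * N := by
  induction N with
  | zero => simp
  | succ N ih =>
    rw [Finset.sum_range_succ]
    have h := step j (t - N)
    have h2 : t - (N : ZMod (2 ^ j)) - 1 = t - ((N + 1 : ℕ) : ZMod (2 ^ j)) := by
      push_cast
      ring
    rw [h2] at h
    push_cast at h ih ⊢
    linarith

lemma sum_W_le (j : ℕ) (t : ZMod (2 ^ j)) (N : ℕ) :
    ∑ n ∈ Finset.range N, W j (t - n) ≤ 2 * N * W j t := by
  refine (sum_le j t N).trans ?_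
  set b := Real.sqrt ((t.val : ℝ) + 1) with hb
  set a := Real.sqrt (2 ^ j) with ha
  have ha0 : 0 ≤ a := Real.sqrt_nonneg _
  have hb0 : 0 < b := Real.sqrt_pos.mpr (by positivity)
  have hb2 : b * b = (t.val : ℝ) + 1 := Real.mul_self_sqrt (by positivity)
  have hW1 : W j t = a / b := rfl
  have hg : g j t = 2 * (a * b) - 2 * ((t.val : ℝ) + 1) := rfl
  rcases le_or_gt N t.val with hN | hN
  · have hv : (t - (N : ZMod (2 ^ j))).val = t.val - N := by
      have hNlt : N < 2 ^ j := lt_of_le_of_lt hN (ZMod.val_lt t)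
      rw [ZMod.val_sub]
      · rw [ZMod.val_natCast_of_lt hNlt]
      · rw [ZMod.val_natCast_of_lt hNlt]
        exact hN
    have hg2 : g j (t - N) = 2 * (a * Real.sqrt ((t.val : ℝ) - N + 1))
        - 2 * ((t.val : ℝ) - N + 1) := by
      unfold g
      rw [hv, Nat.cast_sub hN]
    set c := Real.sqrt ((t.val : ℝ) - N + 1) with hc
    have hNr : (N : ℝ) ≤ t.val := by exact_mod_cast hN
    have hc0 : 0 ≤ c := Real.sqrt_nonneg _
    have hc2 : c * c = (t.val : ℝ) - N + 1 := Real.mul_self_sqrt (by linarith)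
    have hbc : c ≤ b := Real.sqrt_le_sqrt (by
      have : (0 : ℝ) ≤ N := Nat.cast_nonneg N
      linarith)
    rw [hg, hg2, hW1]
    have hNe : (N : ℝ) = b * b - c * c := by rw [hb2, hc2]; ring
    have key : a * (b - c) ≤ (N : ℝ) * (a / b) := by
      rw [hNe, mul_div_assoc', le_div_iff₀ hb0]
      have : 0 ≤ a * c * (b - c) := mul_nonneg (mul_nonneg ha0 hc0) (by linarith)
      nlinarith
    nlinarith
  · have hNr : (t.val : ℝ) + 1 ≤ N := by exact_mod_cast hN
    have h0 := g_nonneg j (t - N)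
    have hW := one_le_W j t
    have hgW : g j t = 2 * ((t.val : ℝ) + 1) * (W j t - 1) := by
      rw [hg, hW1, ← hb2]
      field_simp
    rw [hgW]
    have : 2 * ((t.val : ℝ) + 1) * (W j t - 1) ≤ 2 * N * (W j t - 1) :=
      mul_le_mul_of_nonneg_right (by linarith) (by linarith)
    linarith


/-- Rotation by `n` on every cycle. -/
def rot (n : ℕ) : Idx ≃ Idx where
  toFun i := ⟨i.1, i.2 - (n : ZMod (2 ^ i.1))⟩
  invFun i := ⟨i.1, i.2 + (n : ZMod (2 ^ i.1))⟩
  left_inv i := by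
    rcases i with ⟨j, t⟩
    simp
  right_inv i := by
    rcases i with ⟨j, t⟩
    simp

lemma memlp_one_iff (f : Idx → ℝ) : Memℓp f 1 ↔ Summable (fun i => ‖f i‖) := by
  rw [memℓp_gen_iff (by norm_num)]
  simp

lemma norm_eq (x : Sp) : ‖x‖ = ∑' i, ‖x i‖ := by
  have h := lp.norm_rpow_eq_tsum (p := 1) (by norm_num) x
  simpa using h

lemma summable_coord (x : Sp) : Summable (fun i => ‖x i‖) :=
  (memlp_one_iff _).1 (lp.memℓp x)

lemma W_sub_le (j : ℕ) (t : ZMod (2 ^ j)) (n : ℕ) : W j (t - n) ≤ 2 * (n + 1) * W j t := by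
  have h := sum_W_le j t (n + 1)
  rw [Finset.sum_range_succ] at h
  have h2 : 0 ≤ ∑ k ∈ Finset.range n, W j (t - k) :=
    Finset.sum_nonneg (fun k _ => (W_pos _ _).le)
  push_cast at h
  linarith

/-- The coordinates of the n-th iterate. -/
def itf (n : ℕ) (x : Idx → ℝ) (i : Idx) : ℝ :=
  W i.1 i.2 / W i.1 (i.2 + n) * x ⟨i.1, i.2 + n⟩

lemma ratio_le (j : ℕ) (s : ZMod (2 ^ j)) (n : ℕ) : W j s / W j (s + n) ≤ 2 * (n + 1) := by
  rw [div_le_iff₀ (W_pos _ _)]
  have h := W_sub_le j (s + n) n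
  simpa using h

lemma ratio_nonneg (j : ℕ) (s : ZMod (2 ^ j)) (n : ℕ) : 0 ≤ W j s / W j (s + n) :=
  div_nonneg (W_pos _ _).le (W_pos _ _).le

lemma norm_itf_le (n : ℕ) (x : Idx → ℝ) (i : Idx) :
    ‖itf n x i‖ ≤ 2 * (n + 1) * ‖x ((rot n).symm i)‖ := by
  unfold itf
  rw [norm_mul, Real.norm_of_nonneg (ratio_nonneg _ _ _)]
  exact mul_le_mul_of_nonneg_right (ratio_le _ _ _) (norm_nonneg _)

lemma summable_itf (n : ℕ) (x : Idx → ℝ) (hx : Summable (fun i => ‖x i‖)) :
    Summable (fun i => ‖itf n x i‖) := by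
  refine Summable.of_nonneg_of_le (fun i => norm_nonneg _) (norm_itf_le n x) ?_
  apply Summable.mul_left
  exact ((rot n).symm.summable_iff (f := fun i => ‖x i‖)).2 hx

lemma tsum_itf (n : ℕ) (x : Idx → ℝ) :
    ∑' i, ‖itf n x i‖ = ∑' i : Idx, W i.1 (i.2 - n) / W i.1 i.2 * ‖x i‖ := by
  rw [← (rot n).tsum_eq (fun i => ‖itf n x i‖)]
  congr 1
  funext i
  rcases i with ⟨j, t⟩
  unfold itf rot
  simp only [Equiv.coe_fn_mk]
  rw [norm_mul, Real.norm_of_nonneg (ratio_nonneg _ _ _)]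
  simp

lemma summable_ratio (n : ℕ) (x : Idx → ℝ) (hx : Summable (fun i => ‖x i‖)) :
    Summable (fun i : Idx => W i.1 (i.2 - n) / W i.1 i.2 * ‖x i‖) := by
  refine Summable.of_nonneg_of_le (fun i => ?_) (fun i => ?_) (hx.mul_left (2 * ((n : ℝ) + 1)))
  · exact mul_nonneg (div_nonneg (W_pos _ _).le (W_pos _ _).le) (norm_nonneg _)
  · apply mul_le_mul_of_nonneg_right _ (norm_nonneg _)
    rw [div_le_iff₀ (W_pos _ _)]
    exact W_sub_le _ _ _

/-- The weighted rotation. -/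
def T : Sp →L[ℝ] Sp :=
  LinearMap.mkContinuous
    { toFun := fun x => ⟨itf 1 x, (memlp_one_iff _).2 (summable_itf 1 x (summable_coord x))⟩
      map_add' := by
        intro x y
        ext i
        change itf 1 (x + y : Sp) i = itf 1 x i + itf 1 y i
        unfold itf
        rw [lp.coeFn_add, Pi.add_apply]
        ring
      map_smul' := by
        intro c x
        ext i
        change itf 1 (c • x : Sp) i = c • itf 1 x i
        unfold itf
        rw [lp.coeFn_smul, Pi.smul_apply, smul_eq_mul, smul_eq_mul]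
        ring }
    4 (by
      intro x
      rw [norm_eq, norm_eq, ← tsum_mul_left]
      have h1 : Summable (fun i => 4 * ‖x ((rot 1).symm i)‖) :=
        Summable.mul_left _ (((rot 1).symm.summable_iff (f := fun i => ‖x i‖)).2
          (summable_coord x))
      refine (Summable.tsum_le_tsum (fun i => ?_) (summable_itf 1 x (summable_coord x)) h1).trans ?_
      · refine (norm_itf_le 1 x i).trans ?_
        norm_num
      · rw [tsum_mul_left, tsum_mul_left, (rot 1).symm.tsum_eq (fun i => ‖x i‖)])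

lemma T_apply (x : Sp) (i : Idx) : (T x) i = itf 1 x i := rfl

lemma T_pow_apply (n : ℕ) (x : Sp) (i : Idx) : ((T ^ n) x) i = itf n x i := by
  induction n generalizing i with
  | zero =>
    rcases i with ⟨j, s⟩
    simp [itf, div_self (W_pos _ _).ne']
  | succ n ih =>
    rw [pow_succ', mul_apply_eq_comp, T_apply]
    unfold itf
    rw [ih]
    unfold itf
    rcases i with ⟨j, s⟩
    simp only [Nat.cast_one]
    have h2 : s + 1 + (n : ZMod (2 ^ j)) = s + ((n + 1 : ℕ) : ZMod (2 ^ j)) := by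
      push_cast
      ring
    rw [h2, ← mul_assoc, div_mul_div_cancel₀ (W_pos _ _).ne']

lemma norm_T_pow (n : ℕ) (x : Sp) :
    ‖(T ^ n) x‖ = ∑' i : Idx, W i.1 (i.2 - n) / W i.1 i.2 * ‖x i‖ := by
  rw [norm_eq, ← tsum_itf]
  congr 1
  funext i
  rw [T_pow_apply]

lemma sum_norm_le (x : Sp) (N : ℕ) : ∑ n ∈ Finset.range N, ‖(T ^ n) x‖ ≤ 2 * N * ‖x‖ := by
  have h1 : ∑ n ∈ Finset.range N, ‖(T ^ n) x‖
      = ∑' i : Idx, ∑ n ∈ Finset.range N, W i.1 (i.2 - n) / W i.1 i.2 * ‖x i‖ := by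
    rw [Summable.tsum_finsetSum (fun n _ => summable_ratio n x (summable_coord x))]
    exact Finset.sum_congr rfl (fun n _ => norm_T_pow n x)
  rw [h1, norm_eq, ← tsum_mul_left]
  refine Summable.tsum_le_tsum (fun i => ?_) ?_ ((summable_coord x).mul_left _)
  · rw [← Finset.sum_mul, ← Finset.sum_div]
    apply mul_le_mul_of_nonneg_right _ (norm_nonneg _)
    rw [div_le_iff₀ (W_pos _ _)]
    exact sum_W_le _ _ _
  · exact summable_sum (fun n _ => summable_ratio n x (summable_coord x))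

lemma periodic (K m : ℕ) (y : Sp) (hy : ∀ i : Idx, K < i.1 → y i = 0) :
    (T ^ (2 ^ K * m)) y = y := by
  ext i
  rw [T_pow_apply]
  unfold itf
  rcases i with ⟨j, s⟩
  rcases lt_or_ge K j with h | h
  · have h1 := hy ⟨j, s⟩ h
    have h2 := hy ⟨j, s + ((2 ^ K * m : ℕ) : ZMod (2 ^ j))⟩ h
    rw [h1]
    simp only
    rw [h2, mul_zero]
  · have h0 : ((2 ^ K * m : ℕ) : ZMod (2 ^ j)) = 0 := by
      rw [ZMod.natCast_eq_zero_iff]
      exact Dvd.dvd.mul_right (pow_dvd_pow 2 h) m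
    simp only [h0, add_zero]
    rw [div_self (W_pos _ _).ne', one_mul]

/-- The set of frequently recurrent vectors. -/
def FRec : Set Sp := {x : Sp | ∀ U ∈ nhds x, ∃ δ : ℝ, 0 < δ ∧ ∃ N : ℕ, ∀ n : ℕ, N ≤ n →
          δ * (n : ℝ) ≤ ((Set.ncard {k : ℕ | k < n ∧ (T ^ k) x ∈ U} : ℕ) : ℝ)}

lemma count (K : ℕ) (y x : Sp) (hy : ∀ i : Idx, K < i.1 → y i = 0) (ε : ℝ) (hε : 0 < ε)
    (hx : ‖x - y‖ < ε / (16 * 2 ^ K)) (n : ℕ) (hn : 2 ^ K ≤ n) :
    1 / (4 * 2 ^ K) * (n : ℝ) ≤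
      ((Set.ncard {k : ℕ | k < n ∧ (T ^ k) x ∈ Metric.ball x ε} : ℕ) : ℝ) := by
  set P : ℕ := 2 ^ K with hP
  have hPpos : 0 < P := by positivity
  have hPr : (2 : ℝ) ^ K = (P : ℝ) := by rw [hP]; push_cast; ring
  rw [hPr] at hx ⊢
  have hPr0 : (0 : ℝ) < P := by exact_mod_cast hPpos
  have hP1 : (1 : ℝ) ≤ P := by exact_mod_cast hPpos
  set z := x - y with hz
  obtain ⟨N', hN'1, hN'2⟩ : ∃ N', P * N' ≤ n ∧ n < P * (N' + 1) :=
    ⟨n / P, Nat.mul_div_le n P, Nat.lt_mul_div_succ n hPpos⟩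
  have hN'0 : 1 ≤ N' := by
    by_contra h
    have : N' = 0 := by omega
    subst this
    omega
  -- the total sum
  have hsum : ∑ k ∈ Finset.range N', ‖(T ^ (P * k)) z‖ ≤ 2 * (P * N') * ‖z‖ := by
    have h1 := sum_norm_le z (P * N')
    rw [Nat.cast_mul] at h1
    refine le_trans ?_ h1
    have h2 : ∑ k ∈ Finset.range N', ‖(T ^ (P * k)) z‖
        = ∑ m ∈ (Finset.range N').image (fun k => P * k), ‖(T ^ m) z‖ := by
      rw [Finset.sum_image]
      intro a _ b _ hab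
      exact Nat.eq_of_mul_eq_mul_left hPpos hab
    rw [h2]
    apply Finset.sum_le_sum_of_subset_of_nonneg
    · intro m hm
      rw [Finset.mem_image] at hm
      obtain ⟨k, hk, rfl⟩ := hm
      rw [Finset.mem_range] at hk ⊢
      exact Nat.mul_lt_mul_of_pos_left hk hPpos
    · intro _ _ _
      exact norm_nonneg _
  -- bad times
  set bad := (Finset.range N').filter (fun k => ε / 2 ≤ ‖(T ^ (P * k)) z‖) with hbad
  set good := (Finset.range N').filter (fun k => ¬ ε / 2 ≤ ‖(T ^ (P * k)) z‖) with hgood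
  have hcard : bad.card + good.card = N' := by
    rw [hbad, hgood, Finset.card_filter_add_card_filter_not]
    simp
  have hbadle : (bad.card : ℝ) * (ε / 2) ≤ ∑ k ∈ Finset.range N', ‖(T ^ (P * k)) z‖ := by
    calc (bad.card : ℝ) * (ε / 2) = ∑ k ∈ bad, ε / 2 := by simp
      _ ≤ ∑ k ∈ bad, ‖(T ^ (P * k)) z‖ := by
          apply Finset.sum_le_sum
          intro k hk
          exact (Finset.mem_filter.1 hk).2
      _ ≤ _ := by
          apply Finset.sum_le_sum_of_subset_of_nonneg (Finset.filter_subset _ _)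
          intro _ _ _
          exact norm_nonneg _
  have hz2 : 16 * P * ‖z‖ < ε := by
    rw [lt_div_iff₀ (by positivity)] at hx
    linarith
  have hN'r : (0 : ℝ) < N' := by exact_mod_cast hN'0
  have hbad2 : (bad.card : ℝ) ≤ N' / 2 := by
    have h3 : (bad.card : ℝ) * (ε / 2) ≤ N' * (ε / 8) := by
      refine (hbadle.trans hsum).trans ?_
      nlinarith
    by_contra hcon
    push Not at hcon
    nlinarith
  have hgood2 : (N' : ℝ) / 2 ≤ good.card := by
    have : (bad.card : ℝ) + good.card = N' := by exact_mod_cast hcard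
    linarith
  have hsub : ((good.image (fun k => P * k) : Finset ℕ) : Set ℕ) ⊆
      {k : ℕ | k < n ∧ (T ^ k) x ∈ Metric.ball x ε} := by
    intro m hm
    rw [Finset.mem_coe, Finset.mem_image] at hm
    obtain ⟨k, hk, rfl⟩ := hm
    rw [hgood, Finset.mem_filter, Finset.mem_range] at hk
    refine ⟨lt_of_lt_of_le (Nat.mul_lt_mul_of_pos_left hk.1 hPpos) hN'1, ?_⟩
    rw [Metric.mem_ball, dist_eq_norm]
    have h4 : (T ^ (P * k)) x - x = (T ^ (P * k)) z - z := by
      rw [hz, map_sub, hP, periodic K k y hy]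
      abel
    rw [h4]
    have h5 : ‖z‖ < ε / 2 := by nlinarith [norm_nonneg z]
    have h6 : ‖(T ^ (P * k)) z‖ < ε / 2 := not_le.1 hk.2
    calc _ ≤ ‖(T ^ (P * k)) z‖ + ‖z‖ := norm_sub_le _ _
      _ < ε := by linarith
  have hfin : {k : ℕ | k < n ∧ (T ^ k) x ∈ Metric.ball x ε}.Finite :=
    (Set.finite_lt_nat n).subset (fun k hk => hk.1)
  have h7 := Set.ncard_le_ncard hsub hfin
  rw [Set.ncard_coe_finset, Finset.card_image_of_injective] at h7
  · have h8 : (good.card : ℝ) ≤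
        ((Set.ncard {k : ℕ | k < n ∧ (T ^ k) x ∈ Metric.ball x ε} : ℕ) : ℝ) := by
      exact_mod_cast h7
    refine le_trans ?_ (hgood2.trans h8)
    rw [one_div, inv_mul_le_iff₀ (by positivity)]
    have h9 : (n : ℝ) < P * (N' + 1) := by exact_mod_cast hN'2
    have h10 : (1 : ℝ) ≤ N' := by exact_mod_cast hN'0
    nlinarith
  · intro a b hab
    exact Nat.eq_of_mul_eq_mul_left hPpos hab


lemma dense_fin (x : Sp) (r : ℝ) (hr : 0 < r) :
    ∃ (K : ℕ) (y : Sp), (∀ i : Idx, K < i.1 → y i = 0) ∧ ‖x - y‖ < r := by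
  classical
  have h := lp.hasSum_single (E := fun _ : Idx => ℝ) (p := 1) (by norm_num) x
  rw [HasSum, SummationFilter.unconditional_filter, Metric.tendsto_atTop] at h
  obtain ⟨s, hs⟩ := h r hr
  refine ⟨s.sup (fun i => i.1), ∑ i ∈ s, lp.single 1 i (x i), ?_, ?_⟩
  · intro i hi
    rw [lp.coeFn_sum, Finset.sum_apply]
    apply Finset.sum_eq_zero
    intro k hk
    rw [lp.single_apply_ne]
    intro hik
    subst hik
    have := Finset.le_sup (f := fun i : Idx => i.1) hk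
    exact absurd hi (not_lt.2 this)
  · have h2 := hs s le_rfl
    rw [dist_eq_norm] at h2
    rw [norm_sub_rev]
    exact h2

lemma FRec_not_meagre : ¬ IsMeagre FRec := by
  intro hm
  -- the good open dense sets
  let G : ℕ → Set Sp := fun m => {x : Sp | ∃ (K : ℕ) (y : Sp), (∀ i : Idx, K < i.1 → y i = 0) ∧
    ‖x - y‖ < (1 / ((m : ℝ) + 1)) / (16 * 2 ^ K)}
  have hopen : ∀ m, IsOpen (G m) := by
    intro m
    rw [Metric.isOpen_iff]
    intro x hx
    obtain ⟨K, y, hy, hxy⟩ := hx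
    refine ⟨(1 / ((m : ℝ) + 1)) / (16 * 2 ^ K) - ‖x - y‖, by linarith, ?_⟩
    intro x' hx'
    refine ⟨K, y, hy, ?_⟩
    rw [Metric.mem_ball, dist_eq_norm] at hx'
    have : ‖x' - y‖ ≤ ‖x' - x‖ + ‖x - y‖ := norm_sub_le_norm_sub_add_norm_sub _ _ _
    linarith
  have hdense : ∀ m, Dense (G m) := by
    intro m
    rw [Metric.dense_iff]
    intro x r hr
    obtain ⟨K, y, hy, hxy⟩ := dense_fin x r hr
    refine ⟨y, ?_, K, y, hy, ?_⟩
    · rw [Metric.mem_ball, dist_eq_norm, norm_sub_rev]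
      exact hxy
    · rw [sub_self, norm_zero]
      positivity
  have hsub : (⋂ m, G m) ⊆ FRec := by
    intro x hx U hU
    rw [Metric.mem_nhds_iff] at hU
    obtain ⟨ε, hε, hball⟩ := hU
    obtain ⟨m, hm⟩ := exists_nat_one_div_lt hε
    have hxm := Set.mem_iInter.1 hx m
    obtain ⟨K, y, hy, hxy⟩ := hxm
    refine ⟨1 / (4 * 2 ^ K), by positivity, 2 ^ K, ?_⟩
    intro n hn
    have hlt : ‖x - y‖ < ε / (16 * 2 ^ K) := by
      refine hxy.trans ?_
      exact div_lt_div_of_pos_right hm (by positivity)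
    refine (count K y x hy ε hε hlt n hn).trans ?_
    have hfin : {k : ℕ | k < n ∧ (T ^ k) x ∈ U}.Finite :=
      (Set.finite_lt_nat n).subset (fun k hk => hk.1)
    have hss : {k : ℕ | k < n ∧ (T ^ k) x ∈ Metric.ball x ε} ⊆ {k : ℕ | k < n ∧ (T ^ k) x ∈ U} :=
      fun k hk => ⟨hk.1, hball hk.2⟩
    have h5 := Set.ncard_le_ncard hss hfin
    exact_mod_cast h5
  have hres : FRec ∈ residual Sp := by
    have h1 : ∀ m, G m ∈ residual Sp := fun m => residual_of_dense_open (hopen m) (hdense m)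
    exact Filter.mem_of_superset (countable_iInter_mem.2 h1) hsub
  have h2 : (∅ : Set Sp) ∈ residual Sp := by
    have := Filter.inter_mem hres hm
    simpa using this
  have h3 : Dense (∅ : Set Sp) := dense_of_mem_residual h2
  have h4 := h3.nonempty
  simp at h4

/-- The coordinates of a non-recurrent vector. -/
def badf (i : Idx) : ℝ := if i.2.val = 2 ^ i.1 / 2 ∧ 1 ≤ i.1 then 2 / Real.sqrt (2 ^ i.1) else 0

lemma summable_badf : Summable (fun i => ‖badf i‖) := by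
  have h0 : ∀ i, 0 ≤ badf i := by
    intro i
    unfold badf
    split_ifs
    · positivity
    · exact le_rfl
  have h1 : (fun i => ‖badf i‖) = badf := by
    funext i
    exact Real.norm_of_nonneg (h0 i)
  rw [h1]
  have hfib : ∀ j : ℕ, ∑' t : ZMod (2 ^ j), badf ⟨j, t⟩ ≤ 2 / Real.sqrt (2 ^ j) := by
    intro j
    rw [tsum_fintype]
    have h3 : ∀ t : ZMod (2 ^ j), badf ⟨j, t⟩ ≤
        if t = ((2 ^ j / 2 : ℕ) : ZMod (2 ^ j)) then 2 / Real.sqrt (2 ^ j) else 0 := by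
      intro t
      unfold badf
      by_cases h : t.val = 2 ^ j / 2 ∧ 1 ≤ j
      · rw [if_pos h, if_pos]
        rw [← h.1, ZMod.natCast_zmod_val]
      · rw [if_neg h]
        split_ifs
        · positivity
        · exact le_rfl
    refine (Finset.sum_le_sum (fun t _ => h3 t)).trans ?_
    rw [Finset.sum_ite_eq' Finset.univ ((2 ^ j / 2 : ℕ) : ZMod (2 ^ j))]
    simp
  rw [summable_sigma_of_nonneg h0]
  refine ⟨fun j => summable_of_hasFiniteSupport (Set.toFinite _), ?_⟩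
  refine Summable.of_nonneg_of_le (fun j => tsum_nonneg (fun t => h0 _)) hfib ?_
  have h4 : (fun j : ℕ => 2 / Real.sqrt (2 ^ j)) = fun j : ℕ => 2 * ((1 / Real.sqrt 2) ^ j) := by
    funext j
    rw [Real.sqrt_eq_rpow, Real.sqrt_eq_rpow, ← Real.rpow_natCast (2 : ℝ) j, ← Real.rpow_mul (by norm_num),
      div_pow, one_pow, ← Real.rpow_natCast, ← Real.rpow_mul (by norm_num), mul_comm (j : ℝ)]
    ring
  rw [h4]
  apply Summable.mul_left
  apply summable_geometric_of_lt_one (by positivity)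
  rw [div_lt_one (by positivity)]
  rw [Real.lt_sqrt (by norm_num)]
  norm_num

/-- A non-recurrent vector. -/
def bad : Sp := ⟨badf, (memlp_one_iff _).2 summable_badf⟩

lemma bad_far (n : ℕ) (hn : n ≠ 0) : 1 ≤ ‖(T ^ n) bad - bad‖ := by
  obtain ⟨k, m, hm, hnk⟩ := Nat.exists_eq_two_pow_mul_odd hn
  obtain ⟨l, hl⟩ := hm
  have h1 : ((n : ℕ) : ZMod (2 ^ (k + 1))) = ((2 ^ k : ℕ) : ZMod (2 ^ (k + 1))) := by
    rw [ZMod.natCast_eq_natCast_iff, hnk, hl]
    have : 2 ^ k * (2 * l + 1) = 2 ^ k + 2 ^ (k + 1) * l := by ring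
    rw [this]
    unfold Nat.ModEq
    simp
  have hval : ((2 ^ k : ℕ) : ZMod (2 ^ (k + 1))).val = 2 ^ k := by
    apply ZMod.val_natCast_of_lt
    exact Nat.pow_lt_pow_right (by norm_num) (Nat.lt_succ_self k)
  let i : Idx := ⟨k + 1, 0⟩
  have h2 := lp.norm_apply_le_norm (p := 1) one_ne_zero ((T ^ n) bad - bad) i
  refine le_trans ?_ h2
  have h3 : ((T ^ n) bad - bad : Sp) i = ((T ^ n) bad : Sp) i - (bad : Sp) i := by
    rw [lp.coeFn_sub, Pi.sub_apply]
  have hdiv : 2 ^ (k + 1) / 2 = 2 ^ k := by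
    rw [pow_succ]
    simp
  have h4 : (bad : Sp) i = 0 := by
    change badf i = 0
    unfold badf
    rw [if_neg]
    intro h
    have h5 := h.1
    simp only [i, ZMod.val_zero, hdiv] at h5
    have h6 : 0 < 2 ^ k := by positivity
    rw [← h5] at h6
    exact lt_irrefl _ h6
  have h5 : ((T ^ n) bad : Sp) i = W (k + 1) 0 / W (k + 1) ((2 ^ k : ℕ) : ZMod (2 ^ (k + 1)))
      * (2 / Real.sqrt (2 ^ (k + 1))) := by
    rw [T_pow_apply]
    unfold itf
    simp only [i, zero_add, h1]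
    congr 1
    change badf ⟨k + 1, ((2 ^ k : ℕ) : ZMod (2 ^ (k + 1)))⟩ = _
    unfold badf
    rw [if_pos]
    refine ⟨?_, Nat.le_add_left 1 k⟩
    simp only
    rw [hval, hdiv]
  rw [h3, h4, h5, sub_zero]
  have h6 : W (k + 1) 0 = Real.sqrt (2 ^ (k + 1)) := by
    unfold W
    simp
  have h7 : W (k + 1) ((2 ^ k : ℕ) : ZMod (2 ^ (k + 1))) ≤ 2 := by
    unfold W
    rw [hval, div_le_iff₀ (by positivity)]
    have h2' : (2 : ℝ) * Real.sqrt (((2 ^ k : ℕ) : ℝ) + 1)
        = Real.sqrt (4 * (((2 ^ k : ℕ) : ℝ) + 1)) := by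
      rw [Real.sqrt_mul (by norm_num), show (4 : ℝ) = 2 ^ 2 by norm_num,
        Real.sqrt_sq (by norm_num)]
    rw [h2']
    apply Real.sqrt_le_sqrt
    push_cast
    have : (0 : ℝ) < 2 ^ k := by positivity
    rw [pow_succ]
    linarith
  have h8 := W_pos (k + 1) ((2 ^ k : ℕ) : ZMod (2 ^ (k + 1)))
  have h9 : 0 < Real.sqrt ((2 : ℝ) ^ (k + 1)) := by positivity
  rw [h6, Real.norm_of_nonneg (by positivity), div_mul_div_comm, le_div_iff₀ (by positivity)]
  nlinarith

lemma FRec_ne_univ : FRec ≠ Set.univ := by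
  intro h
  have h1 : bad ∈ FRec := by
    rw [h]
    trivial
  obtain ⟨δ, hδ, N, hN⟩ := h1 (Metric.ball bad 1) (Metric.ball_mem_nhds _ one_pos)
  obtain ⟨n, hn⟩ := exists_nat_gt (1 / δ)
  have h2 := hN (max n N) (le_max_right _ _)
  have h3 : Set.ncard {k : ℕ | k < max n N ∧ (T ^ k) bad ∈ Metric.ball bad 1} ≤ 1 := by
    rw [Set.ncard_le_one_iff ((Set.finite_lt_nat (max n N)).subset (fun k hk => hk.1))]
    intro a b ha hb
    have hz : ∀ c : ℕ, (T ^ c) bad ∈ Metric.ball bad 1 → c = 0 := by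
      intro c hc
      by_contra hc0
      rw [Metric.mem_ball, dist_eq_norm] at hc
      exact absurd hc (not_lt.2 (bad_far c hc0))
    rw [hz a ha.2, hz b hb.2]
  have h4 : ((Set.ncard {k : ℕ | k < max n N ∧ (T ^ k) bad ∈ Metric.ball bad 1} : ℕ) : ℝ) ≤ 1 := by
    exact_mod_cast h3
  have h5 : (n : ℝ) ≤ ((max n N : ℕ) : ℝ) := by exact_mod_cast le_max_left n N
  rw [div_lt_iff₀ hδ] at hn
  nlinarith

end

/-- The negation of the preceding statement: For every continuous linear operator T on a real or complex Fréchet space X, the set of vectors whose orbit returns to each of their neighbourhoods along a set of positive lower density is either all of X or a meager set. -/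
theorem result :
    ¬ (∀ (𝕜 : Type) [RCLike 𝕜] (X : Type) [AddCommGroup X] [Module 𝕜 X] [Module ℝ X]
      [IsScalarTower ℝ 𝕜 X] [UniformSpace X] [IsUniformAddGroup X] [CompleteSpace X]
      [TopologicalSpace.MetrizableSpace X] [ContinuousSMul 𝕜 X] [LocallyConvexSpace ℝ X]
      (T : X →L[𝕜] X),
      {x : X | ∀ U ∈ nhds x, ∃ δ : ℝ, 0 < δ ∧ ∃ N : ℕ, ∀ n : ℕ, N ≤ n →
          δ * (n : ℝ) ≤ ((Set.ncard {k : ℕ | k < n ∧ (T ^ k) x ∈ U} : ℕ) : ℝ)} = Set.univ ∨
      IsMeagre {x : X | ∀ U ∈ nhds x, ∃ δ : ℝ, 0 < δ ∧ ∃ N : ℕ, ∀ n : ℕ, N ≤ n →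
          δ * (n : ℝ) ≤ ((Set.ncard {k : ℕ | k < n ∧ (T ^ k) x ∈ U} : ℕ) : ℝ)}) := by
  intro h
  rcases h ℝ Sp T with h1 | h1
  · exact FRec_ne_univ h1
  · exact FRec_not_meagre h1

end Pool.Agent.S05050
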