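import Pool.Statements.S05343
import Pool.Agent.H42.BH.Face
import Pool.Agent.H53.DF.Bridge
import Pool.Agent.H8.DF.Final

set_option autoImplicit false
open scoped Matrix
open Pool Pool.MP_8d0139_an

namespace Pool.Agent.S05343

/-- For every unital C*-algebra, the cone of nonnegative, additive, Cuntz-monotone functions on positive matrices over it is a lattice in its own order, i.e. the normalized dimension functions form a Choquet simplex. -/
theorem result :
  ∀ (A : Type) [CStarAlgebra A],
    ∀ (P : (n : ℕ) → Matrix (Fin n) (Fin n) A → Prop)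
      (R : (n m : ℕ) → Matrix (Fin n) (Fin n) A → Matrix (Fin m) (Fin m) A → Prop)
      (D : ((n : ℕ) → Matrix (Fin n) (Fin n) A → ℝ) → Prop),
      (∀ (n : ℕ) (a : Matrix (Fin n) (Fin n) A),
          P n a ↔ ∃ x : Matrix (Fin n) (Fin n) A, a = xᴴ * x) →
      (∀ (n m : ℕ) (a : Matrix (Fin n) (Fin n) A) (b : Matrix (Fin m) (Fin m) A),
          R n m a b ↔ ∃ x : ℕ → Matrix (Fin n) (Fin m) A,
            Filter.Tendsto (fun k => x k * b * (x k)ᴴ) Filter.atTop (nhds a)) →
      (∀ d : (n : ℕ) → Matrix (Fin n) (Fin n) A → ℝ,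
          D d ↔
            ((∀ (n : ℕ) (a : Matrix (Fin n) (Fin n) A), P n a → 0 ≤ d n a) ∧
             (∀ (n m : ℕ) (a : Matrix (Fin n) (Fin n) A) (b : Matrix (Fin m) (Fin m) A),
                P n a → P m b →
                  d (n + m) (Matrix.reindex finSumFinEquiv finSumFinEquiv
                    (Matrix.fromBlocks a 0 0 b)) = d n a + d m b) ∧
             (∀ (n m : ℕ) (a : Matrix (Fin n) (Fin n) A) (b : Matrix (Fin m) (Fin m) A),
                P n a → P m b → R n m a b → d n a ≤ d m b))) →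
      ∀ f g : (n : ℕ) → Matrix (Fin n) (Fin n) A → ℝ, D f → D g →
        (∃ s : (n : ℕ) → Matrix (Fin n) (Fin n) A → ℝ,
            D s ∧ D (s - f) ∧ D (s - g) ∧
            ∀ k : (n : ℕ) → Matrix (Fin n) (Fin n) A → ℝ,
              D k → D (k - f) → D (k - g) → D (k - s)) ∧
        (∃ i : (n : ℕ) → Matrix (Fin n) (Fin n) A → ℝ,
            D i ∧ D (f - i) ∧ D (g - i) ∧
            ∀ k : (n : ℕ) → Matrix (Fin n) (Fin n) A → ℝ,
              D k → D (f - k) → D (g - k) → D (i - k)) := by
  exact Pool.Agent.H8.DF.frozen_of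
    (fun _ _ _ _ hf hg => Pool.Agent.H42.BH.lattice hf hg)
    (fun _ _ d hd => Pool.Agent.H53.DF.exists_rkFun d hd)

end Pool.Agent.S05343
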