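import Pool.Statements.S05355
import Pool.Agent.UZ.Partners

set_option autoImplicit false
open Pool Pool.MP_8d66ab_an

namespace Pool.Agent.S05355

/-- For every everywhere-differentiable g from the reals to the reals there is a twice everywhere-differentiable f such that the set of points where f equals g is uncountable. -/
theorem result :
    ∀ g : ℝ → ℝ, Differentiable ℝ g →
      ∃ f : ℝ → ℝ, Differentiable ℝ f ∧ Differentiable ℝ (deriv f) ∧
        ¬ Set.Countable {x : ℝ | f x = g x} := by
  intro g hg
  obtain ⟨F, hF⟩ := Pool.Agent.UZ.main g hg
  have hd : deriv F.f = F.f1 := funext fun t => (F.h1 t).deriv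
  refine ⟨F.f, fun t => (F.h1 t).differentiableAt, ?_, hF⟩
  rw [hd]
  exact fun t => (F.h2 t).differentiableAt

end Pool.Agent.S05355
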