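import Pool.Statements.S05873
import Pool.Agent.H54.ConeGroup

set_option autoImplicit false
open Pool Pool.MP_b405c8_an

namespace Pool.Agent.S05873

/-- In a unital C*-algebra, if some operation makes the positive invertible elements a commutative group whose translations preserve the usual order, then the algebra's own multiplication is commutative. -/
theorem result :
    ∀ (A : Type) [CStarAlgebra A] [PartialOrder A] [StarOrderedRing A],
    ∀ (op : A → A → A),
      (∀ a b : A, (0 ≤ a ∧ IsUnit a) → (0 ≤ b ∧ IsUnit b) →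
          (0 ≤ op a b ∧ IsUnit (op a b))) →
      (∀ a b c : A, (0 ≤ a ∧ IsUnit a) → (0 ≤ b ∧ IsUnit b) → (0 ≤ c ∧ IsUnit c) →
          op (op a b) c = op a (op b c)) →
      (∀ a b : A, (0 ≤ a ∧ IsUnit a) → (0 ≤ b ∧ IsUnit b) → op a b = op b a) →
      (∃ e : A, (0 ≤ e ∧ IsUnit e) ∧
          (∀ a : A, (0 ≤ a ∧ IsUnit a) → op e a = a) ∧
          (∀ a : A, (0 ≤ a ∧ IsUnit a) → ∃ b : A, (0 ≤ b ∧ IsUnit b) ∧ op a b = e)) →
      (∀ a b c : A, (0 ≤ a ∧ IsUnit a) → (0 ≤ b ∧ IsUnit b) → (0 ≤ c ∧ IsUnit c) →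
          a ≤ b → op a c ≤ op b c) →
      ∀ x y : A, x * y = y * x := by
  intro A _ _ _ op hcl hassoc hcomm ⟨e, he, hone, hinv⟩ hmono x y
  choose! inv hinv1 hinv2 using hinv
  let P : Set A := {a : A | 0 ≤ a ∧ IsUnit a}
  let iz : Zero P := ⟨⟨e, he⟩⟩
  let ia : Add P := ⟨fun a b => ⟨op a b, hcl a b a.2 b.2⟩⟩
  let ineg : Neg P := ⟨fun a => ⟨inv a, hinv1 a a.2⟩⟩
  let grp : AddCommGroup P :=
    { add_assoc := fun a b c => Subtype.ext (hassoc a b c a.2 b.2 c.2)
      zero_add := fun a => Subtype.ext (hone a a.2)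
      add_zero := fun a => Subtype.ext ((hcomm a e a.2 he).trans (hone a a.2))
      nsmul := nsmulRec
      zsmul := zsmulRec
      neg_add_cancel := fun a => Subtype.ext
        ((hcomm (inv a) a (hinv1 a a.2) a.2).trans (hinv2 a a.2))
      add_comm := fun a b => Subtype.ext (hcomm a b a.2 b.2) }
  have ord : IsOrderedAddMonoid P :=
    { add_le_add_left := fun a b hab c => by
        change op a c ≤ op b c
        exact hmono a b c a.2 b.2 c.2 hab }
  let ι : P → selfAdjoint A := fun a => ⟨a, IsSelfAdjoint.of_nonneg a.2.1⟩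
  have hι : H54.ConeIso (1 : selfAdjoint A) ι :=
    { le_iff := fun g h => Iff.rfl
      mem := fun g => H54.mem_posCone_iff.2 g.2
      surj := fun x hx => ⟨⟨x, H54.mem_posCone_iff.1 hx⟩, rfl⟩ }
  exact H54.commutative_of_coneIso hι x y

end Pool.Agent.S05873
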