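import Pool.Statements.S06623
import Pool.Agent.H59.DiagMain

set_option autoImplicit false
open Pool Pool.MP_ef2f7d_an

namespace Pool.Agent.S06623

/-- There is a nonempty compact metric space with two minimal homeomorphisms T, S (all forward orbits dense) such that for no point x does (T^n x, S^n x) come arbitrarily close to (x,x) for some n ≥ 1. -/
theorem result :
    ∃ (X : Type) (_ : MetricSpace X) (_ : CompactSpace X) (_ : Nonempty X) (T S : X ≃ₜ X),
      (∀ x : X, Dense (Set.range (fun n : ℕ => (⇑T)^[n] x))) ∧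
      (∀ x : X, Dense (Set.range (fun n : ℕ => (⇑S)^[n] x))) ∧
      ∀ x : X, ¬ (∀ ε : ℝ, 0 < ε →
        ∃ n : ℕ, 0 < n ∧ dist ((⇑T)^[n] x) x < ε ∧ dist ((⇑S)^[n] x) x < ε) := by
  letI inst : MetricSpace H59.Diag.X := TopologicalSpace.metrizableSpaceMetric H59.Diag.X
  have hc : CompactSpace H59.Diag.X := isCompact_iff_compactSpace.1 H59.Diag.X_closed.isCompact
  refine ⟨H59.Diag.X, inst, hc, H59.Diag.X_nonempty.to_subtype, H59.Diag.hom H59.Diag.gT,
    H59.Diag.homS, H59.Diag.dense_T, H59.Diag.dense_S, ?_⟩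
  intro x hx
  have hopen : IsOpen {y : H59.Diag.X | y.1 1 = x.1 1} := by
    have hcont : Continuous (fun y : H59.Diag.X => y.1 1) :=
      (continuous_apply (1 : H59.Diag.F)).comp continuous_subtype_val
    exact hcont.isOpen_preimage {x.1 1} (isOpen_discrete _)
  obtain ⟨ε, hε, hball⟩ := Metric.isOpen_iff.1 hopen x rfl
  obtain ⟨n, hn, h1, h2⟩ := hx ε hε
  exact H59.Diag.no_return x hn ⟨hball h1, hball h2⟩

end Pool.Agent.S06623
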