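import Pool.Statements.S06726
import Pool.Agent.H53.Space

set_option autoImplicit false
open Pool Pool.MP_f53fb8_an

namespace Pool.Agent.S06726

open Pool.Agent.H53 Filter
open scoped Topology

noncomputable section

/-- every operator on `N` has each `e i + e j` as an eigenvector -/
lemma eigen (A : N →L[ℝ] N) (i j : ℕ) :
    ∃ t : ℝ, A (q (e i) + q (e j)) = t • (q (e i) + q (e j)) := by
  obtain ⟨s, hs, hb⟩ := small_scale (A : N →ₗ[ℝ] N) A.continuous
  set C : ℝ := rt s⁻¹ with hCdef
  have hC : 0 ≤ C := rt_nonneg _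
  have hrep : ∀ k, ∃ y : L, q y = A (q (e k)) ∧ ‖y‖ ≤ C := by
    intro k
    obtain ⟨x, hx, hxn⟩ := exists_rep (A (s • q (e k))) (δ := 1 - ‖A (s • q (e k))‖)
      (by have : ‖A (s • q (e k))‖ < 1 := hb k
          linarith)
    refine ⟨s⁻¹ • x, ?_, ?_⟩
    · rw [map_smul, hx, map_smul, smul_smul, inv_mul_cancel₀ hs.ne', one_smul]
    · rw [norm_smul_L]
      have h1 : ‖x‖ ≤ 1 := by linarith
      calc rt s⁻¹ * ‖x‖ ≤ rt s⁻¹ * 1 := mul_le_mul_of_nonneg_left h1 (rt_nonneg _)
        _ = C := by rw [mul_one]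
  choose y hy hyC using hrep
  obtain ⟨z, hz⟩ := R.mkQ_surjective (A (q (e i) + q (e j)))
  have hclosed : IsClosed ((Submodule.span ℝ {q (e i) + q (e j)} : Submodule ℝ N) : Set N) :=
    Submodule.closed_of_finiteDimensional _
  have hmem : A (q (e i) + q (e j)) ∈
      closure ((Submodule.span ℝ {q (e i) + q (e j)} : Submodule ℝ N) : Set N) := by
    rw [Metric.mem_closure_iff]
    intro ε hε
    -- the error tends to zero along the good indices
    have hidx : Tendsto (fun n => a (Nat.pair (Nat.pair i j) n)) atTop atTop := by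
      refine tendsto_atTop_mono (fun n => ?_) tendsto_id
      have h1 := Nat.right_le_pair (Nat.pair i j) n
      have h2 := lt_a (Nat.pair (Nat.pair i j) n)
      simp only [id]
      omega
    have hidx' : Tendsto (fun n => Nat.pair (Nat.pair i j) n) atTop atTop := by
      refine tendsto_atTop_mono (fun n => ?_) tendsto_id
      exact Nat.right_le_pair (Nat.pair i j) n
    have hτ : Tendsto (fun n => ‖z - restr (Set.Iio (a (Nat.pair (Nat.pair i j) n))) z‖)
        atTop (𝓝 0) := (tendsto_restr z).comp hidx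
    have hhalf : Tendsto (fun n => (1 / 2 : ℝ) ^ (Nat.pair (Nat.pair i j) n)) atTop (𝓝 0) :=
      (tendsto_pow_atTop_nhds_zero_of_lt_one (by norm_num) (by norm_num)).comp hidx'
    have hquart : Tendsto (fun n => (1 / 4 : ℝ) ^ (Nat.pair (Nat.pair i j) n)) atTop (𝓝 0) :=
      (tendsto_pow_atTop_nhds_zero_of_lt_one (by norm_num) (by norm_num)).comp hidx'
    have herr : Tendsto (fun n =>
        2 * ‖z - restr (Set.Iio (a (Nat.pair (Nat.pair i j) n))) z‖ +
        2 * (((1 / 2 : ℝ) ^ (Nat.pair (Nat.pair i j) n) +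
          ‖z - restr (Set.Iio (a (Nat.pair (Nat.pair i j) n))) z‖ + C) *
          (1 / 4 : ℝ) ^ (Nat.pair (Nat.pair i j) n)) +
        (1 / 2 : ℝ) ^ (Nat.pair (Nat.pair i j) n) +
        C * (1 / 2 : ℝ) ^ (Nat.pair (Nat.pair i j) n)) atTop
        (𝓝 (2 * 0 + 2 * ((0 + 0 + C) * 0) + 0 + C * 0)) :=
      (((hτ.const_mul 2).add ((((hhalf.add hτ).add_const C).mul hquart).const_mul 2)).add
        hhalf).add (hhalf.const_mul C)
    have h0 : (2 * 0 + 2 * ((0 + 0 + C) * 0) + 0 + C * 0 : ℝ) = 0 := by ring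
    rw [h0] at herr
    obtain ⟨n, hn⟩ := (herr.eventually (gt_mem_nhds hε)).exists
    have hxx : q (xx (Nat.pair (Nat.pair i j) n)) = q (e i) + q (e j) := by
      rw [xx_pair, map_add]
    obtain ⟨t, ht⟩ := main_estimate (A : N →ₗ[ℝ] N) C hC y hy hyC z (Nat.pair (Nat.pair i j) n)
      (by rw [hxx]; exact hz)
    rw [hxx] at ht
    refine ⟨t • (q (e i) + q (e j)),
      Submodule.smul_mem _ _ (Submodule.mem_span_singleton_self _), ?_⟩
    rw [dist_eq_norm]
    refine lt_of_le_of_lt ht ?_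
    have h4 : ∀ k : ℕ, (1 / 4 : ℝ) ^ k = 1 / 4 ^ k := fun k => by rw [one_div_pow]
    simp only [h4, mul_one_div] at hn
    exact hn
  rw [hclosed.closure_eq] at hmem
  obtain ⟨t, ht⟩ := Submodule.mem_span_singleton.1 hmem
  exact ⟨t, ht.symm⟩

/-- `N` is rigid -/
lemma rigid (A : N →L[ℝ] N) : ∃ c : ℝ, ∀ y : N, A y = c • y := by
  have hdiag : ∀ i, ∃ t : ℝ, A (q (e i)) = t • q (e i) := by
    intro i
    obtain ⟨t, ht⟩ := eigen A i i
    refine ⟨t, ?_⟩
    rw [← two_smul ℝ (q (e i)), map_smul, smul_comm t] at ht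
    exact smul_right_injective N (two_ne_zero) ht
  obtain ⟨c, hc⟩ := hdiag 0
  have hall : ∀ j, A (q (e j)) = c • q (e j) := by
    intro j
    obtain ⟨μ, hμ⟩ := hdiag j
    obtain ⟨t, ht⟩ := eigen A 0 j
    rw [map_add, hc, hμ, smul_add] at ht
    by_cases htm : t = μ
    · subst htm
      have h1 : (c - t) • q (e 0) = 0 := by
        rw [sub_smul, sub_eq_zero]
        exact add_right_cancel ht
      rcases smul_eq_zero.1 h1 with h2 | h2
      · rw [hμ]
        congr 1
        linarith
      · exact absurd h2 q_e_zero_ne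
    · have h1 : (t - μ) • q (e j) = (c - t) • q (e 0) := by
        rw [sub_smul, sub_smul, sub_eq_sub_iff_add_eq_add, add_comm]
        exact ht.symm
      have h2 : q (e j) = ((t - μ)⁻¹ * (c - t)) • q (e 0) := by
        rw [mul_smul, ← h1, smul_smul, inv_mul_cancel₀ (sub_ne_zero.2 htm), one_smul]
      rw [h2, map_smul, hc, smul_comm]
  refine ⟨c, ?_⟩
  have hcont : Continuous fun x : L => A (q x) :=
    A.continuous.comp continuous_q
  have hcont2 : Continuous fun x : L => c • q x :=
    continuous_q.const_smul c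
  have hcl : IsClosed {x : L | A (q x) = c • q x} := isClosed_eq hcont hcont2
  have hsub : (Submodule.span ℝ (Set.range e) : Set L) ⊆ {x : L | A (q x) = c • q x} := by
    intro x hx
    have hle : Submodule.span ℝ (Set.range e) ≤
        LinearMap.eqLocus ((A : N →ₗ[ℝ] N) ∘ₗ q) (c • q) := by
      rw [Submodule.span_le]
      rintro _ ⟨i, rfl⟩
      exact hall i
    exact hle hx
  intro y
  obtain ⟨x, rfl⟩ := R.mkQ_surjective y
  exact hcl.closure_subset_iff.2 hsub (dense_span_e x)

lemma not_finiteDimensional_N : ¬ FiniteDimensional ℝ N := by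
  intro hfd
  obtain ⟨f, hf⟩ : ∃ f : N →ₗ[ℝ] ℝ, f (q (e 0)) ≠ 0 := by
    by_contra hcon
    push Not at hcon
    exact q_e_zero_ne ((Module.forall_dual_apply_eq_zero_iff ℝ (q (e 0))).1 hcon)
  have := dual_trivial f f.continuous_of_finiteDimensional
  exact hf (by rw [this]; rfl)

/-- a vector all of whose multiples are small vanishes -/
lemma eq_zero_of_line {y : N} (h : ∀ t : ℝ, ‖t • y‖ < 1) : y = 0 := by
  by_contra hy
  have hpos : 0 < ‖y‖ := norm_pos_iff.2 hy
  have h1 : ∀ t : ℝ, 0 < t → ‖y‖ ≤ rt t⁻¹ := by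
    intro t ht
    have h2 : y = t⁻¹ • (t • y) := by
      rw [smul_smul, inv_mul_cancel₀ ht.ne', one_smul]
    calc ‖y‖ = ‖t⁻¹ • (t • y)‖ := by rw [← h2]
      _ ≤ rt t⁻¹ * ‖t • y‖ := norm_smul_N_le _ _
      _ ≤ rt t⁻¹ * 1 := mul_le_mul_of_nonneg_left (h t).le (rt_nonneg _)
      _ = _ := mul_one _
  have h3 := h1 (((‖y‖ / 2) ^ 2)⁻¹) (by positivity)
  rw [inv_inv] at h3
  unfold rt at h3
  rw [abs_of_nonneg (by positivity), Real.sqrt_sq (by positivity)] at h3
  linarith

/-- the counterexample space -/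
abbrev X : Type := N × (ℕ → ℝ)

/-- an operator from the sequence space to `N` has finite-dimensional range -/
lemma finite_rank (B : (ℕ → ℝ) →L[ℝ] N) :
    ∃ F : Submodule ℝ N, FiniteDimensional ℝ F ∧ ∀ z, B z ∈ F := by
  have h0 : B ⁻¹' (Metric.ball 0 1) ∈ 𝓝 (0 : ℕ → ℝ) := by
    apply B.continuous.continuousAt.preimage_mem_nhds
    rw [map_zero]
    exact Metric.ball_mem_nhds _ one_pos
  rw [nhds_pi, Filter.mem_pi] at h0
  obtain ⟨I, hI, V, hV, hsub⟩ := h0
  have hker : ∀ z : ℕ → ℝ, (∀ i ∈ I, z i = 0) → B z = 0 := by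
    intro z hz
    apply eq_zero_of_line
    intro t
    have h1 : t • z ∈ B ⁻¹' (Metric.ball 0 1) := by
      apply hsub
      intro i hi
      rw [Pi.smul_apply, hz i hi, smul_zero]
      exact mem_of_mem_nhds (hV i)
    have h2 : B (t • z) ∈ Metric.ball (0 : N) 1 := h1
    rwa [map_smul, mem_ball_zero_iff] at h2
  refine ⟨Submodule.span ℝ ((fun i => B (Pi.single i 1)) '' I), ?_, ?_⟩
  · exact FiniteDimensional.span_of_finite ℝ (hI.image _)
  · intro z
    have h1 : B (z - ∑ i ∈ hI.toFinset, z i • (Pi.single i 1 : ℕ → ℝ)) = 0 := by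
      apply hker
      intro j hj
      rw [Pi.sub_apply, Finset.sum_apply]
      have : ∑ c ∈ hI.toFinset, (z c • (Pi.single c 1 : ℕ → ℝ)) j = z j := by
        rw [Finset.sum_eq_single_of_mem j (hI.mem_toFinset.2 hj)]
        · simp
        · intro b _ hb
          simp [hb.symm]
      rw [this, sub_self]
    rw [map_sub, sub_eq_zero] at h1
    rw [h1, map_sum]
    refine Submodule.sum_mem _ fun i hi => ?_
    rw [map_smul]
    exact Submodule.smul_mem _ _ (Submodule.subset_span ⟨i, hI.mem_toFinset.1 hi, rfl⟩)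

lemma dual_infinite : ¬ FiniteDimensional ℝ (X →L[ℝ] ℝ) := by
  intro hfd
  have hli : LinearIndependent ℝ
      (fun k : ℕ => ((ContinuousLinearMap.proj (R := ℝ) (φ := fun _ : ℕ => ℝ) k).comp
        (ContinuousLinearMap.snd ℝ N (ℕ → ℝ)) : X →L[ℝ] ℝ)) := by
    rw [linearIndependent_iff']
    intro s g hg i hi
    have h1 := congrArg (fun f : X →L[ℝ] ℝ => f ((0 : N), (Pi.single i 1 : ℕ → ℝ))) hg
    simp only [_root_.sum_apply, _root_.smul_apply,
      ContinuousLinearMap.comp_apply, ContinuousLinearMap.coe_snd',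
      ContinuousLinearMap.proj_apply, smul_eq_mul, _root_.zero_apply] at h1
    rw [Finset.sum_eq_single_of_mem i hi] at h1
    · simpa using h1
    · intro b _ hb
      simp [hb]
  have := hli.finite
  exact not_finite ℕ

lemma no_hypercyclic (T : X →L[ℝ] X) (x : X) :
    ¬ Dense (Set.range (fun n : ℕ => (⇑T)^[n] x)) := by
  intro hd
  obtain ⟨c, hc⟩ := rigid ((ContinuousLinearMap.fst ℝ N (ℕ → ℝ)).comp
    (T.comp (ContinuousLinearMap.inl ℝ N (ℕ → ℝ))))
  obtain ⟨F, hF, hB⟩ := finite_rank ((ContinuousLinearMap.fst ℝ N (ℕ → ℝ)).comp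
    (T.comp (ContinuousLinearMap.inr ℝ N (ℕ → ℝ))))
  have hstep : ∀ p : X, (T p).1 - c • p.1 ∈ F := by
    rintro ⟨y, z⟩
    have h1 : ((y, z) : X) = (y, 0) + (0, z) := by simp
    have h2 : (T (y, 0)).1 = c • y := hc y
    have h3 : (T (0, z)).1 ∈ F := hB z
    rw [h1, map_add]
    simp only [Prod.fst_add, add_zero, h2]
    simpa using h3
  set G : Submodule ℝ N := F ⊔ Submodule.span ℝ {x.1} with hG
  have hfG : FiniteDimensional ℝ G := by
    have : FiniteDimensional ℝ (Submodule.span ℝ {x.1} : Submodule ℝ N) := inferInstance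
    exact Submodule.finiteDimensional_sup _ _
  have horb : ∀ n : ℕ, ((⇑T)^[n] x).1 ∈ G := by
    intro n
    induction n with
    | zero => exact Submodule.mem_sup_right (Submodule.mem_span_singleton_self _)
    | succ n ih =>
      rw [Function.iterate_succ_apply']
      have h1 := hstep ((⇑T)^[n] x)
      have h2 : (T ((⇑T)^[n] x)).1 =
          ((T ((⇑T)^[n] x)).1 - c • ((⇑T)^[n] x).1) + c • ((⇑T)^[n] x).1 := by abel
      rw [h2]
      exact Submodule.add_mem _ (Submodule.mem_sup_left h1) (Submodule.smul_mem _ _ ih)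
  have hGcl : IsClosed (G : Set N) := Submodule.closed_of_finiteDimensional G
  have hcl : IsClosed {p : X | p.1 ∈ G} := hGcl.preimage continuous_fst
  have hall : ∀ p : X, p.1 ∈ G := by
    intro p
    exact hcl.closure_subset_iff.2 (by rintro _ ⟨n, rfl⟩; exact horb n) (hd p)
  have htop : G = ⊤ := by
    rw [Submodule.eq_top_iff']
    intro y
    exact hall (y, 0)
  apply not_finiteDimensional_N
  rw [htop] at hfG
  exact Module.finite_def.2 ((Submodule.fg_top _).1 (Module.finite_def.1 hfG))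

end

/-- The negation of the preceding statement: For K real or complex, every separable complete metrizable topological vector space over K whose continuous dual is infinite-dimensional admits a continuous linear operator with a vector whose orbit is dense. -/
theorem result :
    ¬ (∀ (𝕂 : Type) [RCLike 𝕂] (X : Type) [AddCommGroup X] [Module 𝕂 X] [UniformSpace X]
      [IsUniformAddGroup X] [ContinuousSMul 𝕂 X] [TopologicalSpace.MetrizableSpace X]
      [CompleteSpace X] [TopologicalSpace.SeparableSpace X],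
      ¬ FiniteDimensional 𝕂 (X →L[𝕂] 𝕂) →
        ∃ T : X →L[𝕂] X, ∃ x : X, Dense (Set.range (fun n : ℕ => (⇑T)^[n] x))) := by
  intro h
  obtain ⟨T, x, hd⟩ := h ℝ X dual_infinite
  exact no_hypercyclic T x hd

end Pool.Agent.S06726
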