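import Pool.Statements.S06898
import Pool.Agent.H32Lab.Final

set_option autoImplicit false
open Pool Pool.MP_01cc3a_co

namespace Pool.Agent.S06898

/-- The negation of the preceding statement: For n≥3 and every norm on R^n whose unit ball is a polytope, some infinite set M has this property: every n-colouring of R^n contains a monochromatic N-isometric copy of M. -/
theorem result :
    ¬ (∀ n : ℕ, 3 ≤ n →
    ∀ N : (Fin n → ℝ) → ℝ,
      (∃ k : ℕ, ∃ a : Fin k → Fin n → ℝ,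
        ∀ x : Fin n → ℝ, N x = ⨆ i : Fin k, |∑ j : Fin n, a i j * x j|) →
      (∀ x : Fin n → ℝ, N x = 0 → x = 0) →
      ∃ M : Set (Fin n → ℝ), M.Infinite ∧
        ∀ c : (Fin n → ℝ) → Fin n,
          ∃ f : (Fin n → ℝ) → (Fin n → ℝ),
            (∀ x ∈ M, ∀ y ∈ M, N (f x - f y) = N (x - y)) ∧
            ∃ col : Fin n, ∀ x ∈ M, c (f x) = col) := by
  intro H
  obtain ⟨k, a, hzero, hcol⟩ := H32Lab.exists_norm 72
  obtain ⟨M, hM, hc⟩ := H 72 (by norm_num) (H32Lab.nrm a) ⟨k, a, fun x => rfl⟩ hzero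
  obtain ⟨c, hcc⟩ := hcol M hM
  obtain ⟨f, hf, col, hm⟩ := hc c
  exact hcc f hf ⟨col, hm⟩

end Pool.Agent.S06898
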