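import Pool.Statements.S07160
-- import your own Pool.Agent.* helpers here

set_option autoImplicit false
open Pool Pool.MP_0cd801_co

namespace Pool.Agent.S07160

/-!
Counterexample: a `3`-diregular oriented graph on `13 = 4·3 + 1` vertices with no Hamilton cycle.
Its out-neighbourhoods are listed in `out`; non-Hamiltonicity is checked by the depth-first search
`ext`, evaluated by the kernel.
-/

/-- Out-neighbours of each vertex. -/
def out : ℕ → List ℕ
  | 0 => [6, 7, 8]
  | 1 => [7, 9, 11]
  | 2 => [0, 4, 5]
  | 3 => [1, 2, 7]
  | 4 => [0, 3, 8]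
  | 5 => [3, 4, 6]
  | 6 => [4, 8, 12]
  | 7 => [2, 5, 11]
  | 8 => [3, 10, 12]
  | 9 => [0, 6, 12]
  | 10 => [1, 5, 9]
  | 11 => [2, 9, 10]
  | 12 => [1, 10, 11]
  | _ => []

/-- The oriented graph. -/
def G : Digraph (Fin 13) where
  Adj u v := v.val ∈ out u.val

instance : DecidableRel G.Adj := fun u v => inferInstanceAs (Decidable (v.val ∈ out u.val))

/-- `ext k v S`: from `v`, with the list `S` of already visited vertices, one can take `k` further
steps through unvisited vertices and then step to the vertex `0`. -/
def ext : ℕ → ℕ → List ℕ → Bool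
  | 0, v, _ => (out v).any fun w => w == 0
  | k + 1, v, S => (out v).any fun w => !(S.elem w) && ext k w (w :: S)

theorem ext_zero : ext 12 0 [0] = false := by decide +kernel

/-- A cyclic sequence of 13 distinct vertices following arcs would make the search succeed. -/
theorem ext_of_cycle (g : ℕ → Fin 13) (hinj : ∀ k l, k < 13 → l < 13 → g k = g l → k = l)
    (hadj : ∀ k, G.Adj (g k) (g (k + 1))) (h13 : (g 13).val = 0) :
    ∀ m k, m + k = 12 → ext m (g k).val (((List.range (k + 1)).reverse).map fun i => (g i).val)
      = true := by
  intro m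
  induction m with
  | zero =>
    intro k hk
    have hk' : k = 12 := by omega
    subst hk'
    have h := hadj 12
    simp only [ext, List.any_eq_true, beq_iff_eq]
    exact ⟨0, by simpa [G, h13] using h, rfl⟩
  | succ m ih =>
    intro k hk
    have h := hadj k
    simp only [ext, List.any_eq_true, Bool.and_eq_true, Bool.not_eq_true']
    refine ⟨(g (k + 1)).val, h, ?_, ?_⟩
    · rw [← Bool.not_eq_true, List.elem_eq_mem, decide_eq_true_eq]
      intro hmem
      simp only [List.mem_map, List.mem_reverse, List.mem_range] at hmem
      obtain ⟨i, hi, hi'⟩ := hmem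
      have := hinj i (k + 1) (by omega) (by omega) (Fin.ext hi')
      omega
    · have := ih (k + 1) (by omega)
      rw [List.range_succ, List.reverse_append] at this
      simpa using this

/-- The negation of the preceding statement: For every d > 2 and n ≤ 4d+1, every oriented graph on n vertices in which each vertex has in-degree d and out-degree d has a directed Hamilton cycle, i.e. a cyclic ordering of all n vertices with an arc from each vertex to the next. -/
theorem result :
    ¬ (∀ (d n : ℕ), 2 < d → n ≤ 4 * d + 1 →
      ∀ G : Digraph (Fin n),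
        (∀ u v : Fin n, G.Adj u v → ¬ G.Adj v u) →
        (∀ v : Fin n, Set.ncard {u : Fin n | G.Adj v u} = d) →
        (∀ v : Fin n, Set.ncard {u : Fin n | G.Adj u v} = d) →
        ∃ f : Fin n → Fin n, Function.Bijective f ∧
          ∀ i j : Fin n, j.val = (i.val + 1) % n → G.Adj (f i) (f j)) := by
  intro H
  obtain ⟨f, hf, hadj⟩ := H 3 13 (by norm_num) (by norm_num) G
    (by decide)
    (by
      intro v
      rw [Set.ncard_eq_toFinset_card']
      revert v
      decide)
    (by
      intro v
      rw [Set.ncard_eq_toFinset_card']
      revert v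
      decide)
  obtain ⟨i0, hi0⟩ := hf.2 0
  let g : ℕ → Fin 13 := fun k => f ⟨(i0.val + k) % 13, Nat.mod_lt _ (by norm_num)⟩
  have hinj : ∀ k l, k < 13 → l < 13 → g k = g l → k = l := by
    intro k l hk hl h
    have h1 := congrArg Fin.val (hf.1 h)
    simp only at h1
    omega
  have hg : ∀ k, G.Adj (g k) (g (k + 1)) := by
    intro k
    apply hadj
    simp only
    omega
  have h0 : (g 0).val = 0 := by
    have : (⟨(i0.val + 0) % 13, Nat.mod_lt _ (by norm_num)⟩ : Fin 13) = i0 := by
      apply Fin.ext
      have := i0.isLt
      simp only
      omega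
    simp only [g, this, hi0]
    rfl
  have h13 : (g 13).val = 0 := by
    have : (⟨(i0.val + 13) % 13, Nat.mod_lt _ (by norm_num)⟩ : Fin 13) = i0 := by
      apply Fin.ext
      have := i0.isLt
      simp only
      omega
    simp only [g, this, hi0]
    rfl
  have := ext_of_cycle g hinj hg h13 12 0 rfl
  simp only [h0] at this
  have h := ext_zero
  simp [h0] at this
  rw [this] at h
  exact Bool.noConfusion h

end Pool.Agent.S07160
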