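import Pool.Statements.S07623
import Pool.Agent.H18Bill.Long
import Pool.Agent.H18Bill.Body

set_option autoImplicit false
open scoped InnerProductSpace
open Pool Pool.MP_217bbd_co

namespace Pool.Agent.S07623

open Pool.Agent.H18Bill

lemma KSet_eq (C : Finset E2) (D K : Set E2) (ε : ℝ) (hε : 0 < ε)
    (hD : D = (⋂ c' ∈ C, Metric.closedBall c' (1:ℝ)))
    (hK : K = {y | ∃ x, Metric.closedBall x ε ⊆ D ∧ y ∈ Metric.closedBall x ε}) :
    K = KSet C ε := by
  rw [hK, hD]
  ext y
  constructor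
  · rintro ⟨x, hx, hy⟩
    refine ⟨x, ?_, by rw [← dist_eq_norm]; exact hy⟩
    intro c hc
    apply (ball_sub_iff hε).1
    exact hx.trans (Set.biInter_subset_of_mem hc)
  · rintro ⟨x, hx, hy⟩
    refine ⟨x, ?_, by rw [Metric.mem_closedBall, dist_eq_norm]; exact hy⟩
    apply Set.subset_iInter₂
    intro c hc
    exact (ball_sub_iff hε).2 (hx c hc)

/-- For every fat disk-polygon D and every 0<ε≤inradius, any closed billiard path in D(ε) with vertices on its boundary whose angle bisectors are normal to supporting lines, and of minimal length among all such paths, is 2-periodic. -/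
theorem result :
  ∀ (C : Finset (EuclideanSpace ℝ (Fin 2))), C.Nonempty →
    (∀ c ∈ C, (⋂ c' ∈ C.erase c, Metric.closedBall c' (1:ℝ)) ≠ ⋂ c' ∈ C, Metric.closedBall c' (1:ℝ)) →
    (∀ c ∈ C, ∀ c' ∈ C, dist c c' ≤ 1) →
    ∀ D : Set (EuclideanSpace ℝ (Fin 2)), D = (⋂ c' ∈ C, Metric.closedBall c' (1:ℝ)) →
    ∀ ε : ℝ, 0 < ε → (∃ x, Metric.closedBall x ε ⊆ D) →
    ∀ K : Set (EuclideanSpace ℝ (Fin 2)),
      K = {y | ∃ x, Metric.closedBall x ε ⊆ D ∧ y ∈ Metric.closedBall x ε} →
    ∀ (n : ℕ) (p : ℕ → EuclideanSpace ℝ (Fin 2)),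
      (2 ≤ n ∧ (∀ i, p (i + n) = p i) ∧ (∀ i, p i ∈ frontier K) ∧ (∀ i, p i ≠ p (i + 1)) ∧
        ∀ i, ∃ v : EuclideanSpace ℝ (Fin 2), ‖v‖ = 1 ∧
          (∀ x ∈ K, ⟪v, x - p (i + 1)⟫_ℝ ≤ 0) ∧
          ‖p (i + 2) - p (i + 1)‖⁻¹ • (p (i + 2) - p (i + 1)) =
            (2 * ⟪v, ‖p i - p (i + 1)‖⁻¹ • (p i - p (i + 1))⟫_ℝ) • v
              - ‖p i - p (i + 1)‖⁻¹ • (p i - p (i + 1))) →
      (∀ (m : ℕ) (q : ℕ → EuclideanSpace ℝ (Fin 2)),
        (2 ≤ m ∧ (∀ i, q (i + m) = q i) ∧ (∀ i, q i ∈ frontier K) ∧ (∀ i, q i ≠ q (i + 1)) ∧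
          ∀ i, ∃ v : EuclideanSpace ℝ (Fin 2), ‖v‖ = 1 ∧
            (∀ x ∈ K, ⟪v, x - q (i + 1)⟫_ℝ ≤ 0) ∧
            ‖q (i + 2) - q (i + 1)‖⁻¹ • (q (i + 2) - q (i + 1)) =
              (2 * ⟪v, ‖q i - q (i + 1)‖⁻¹ • (q i - q (i + 1))⟫_ℝ) • v
                - ‖q i - q (i + 1)‖⁻¹ • (q i - q (i + 1))) →
        (∑ i ∈ Finset.range n, dist (p i) (p (i + 1))) ≤ ∑ i ∈ Finset.range m, dist (q i) (q (i + 1))) →
      ∀ i, p (i + 2) = p i := by
  intro C hC _ hdiam D hD ε hε hball K hK n p hp hmin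
  obtain ⟨hn, hper, hfr, hne, hrefl⟩ := hp
  have hKS := KSet_eq C D K ε hε hD hK
  have hA : (ASet C ε).Nonempty := by
    obtain ⟨x, hx⟩ := hball
    refine ⟨x, fun c hc => (ball_sub_iff hε).1 ?_⟩
    rw [hD] at hx
    exact hx.trans (Set.biInter_subset_of_mem hc)
  have G : Good K := by rw [hKS]; exact good_KSet hC hdiam hε hA
  have hclosed : IsClosed K := G.compact.isClosed
  have hsub : frontier K ⊆ K := hclosed.frontier_subset
  have hpK : ∀ i, p i ∈ K := fun i => hsub (hfr i)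
  obtain ⟨x, y, u, m, hx, hy, hxy, hm0, hm2, hm⟩ := double_normal G
  -- a point with a normal lies on the frontier
  have hfront : ∀ z v, IsN K z v → z ∈ frontier K := by
    intro z v hz
    rw [hclosed.frontier_eq]
    refine ⟨hz.1, fun hint => ?_⟩
    rw [mem_interior_iff_mem_nhds, Metric.mem_nhds_iff] at hint
    obtain ⟨r, hr, hball'⟩ := hint
    have h1 : z + (r / 2) • v ∈ K := by
      apply hball'
      rw [Metric.mem_ball, dist_eq_norm, add_sub_cancel_left, norm_smul, hz.2.1, mul_one,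
        Real.norm_eq_abs, abs_of_pos (by positivity)]
      linarith
    have h2 := hz.2.2 _ h1
    rw [add_sub_cancel_left, inner_smul_right, real_inner_self_eq_norm_sq, hz.2.1] at h2
    linarith
  by_cases hn3 : 3 ≤ n
  · exfalso
    have hlong := path_long G hm0 hm hn3 hper hpK hne (fun i => by
      obtain ⟨v, hv1, hv2, hv3⟩ := hrefl i
      exact ⟨v, ⟨hpK _, hv1, hv2⟩, hv3⟩)
    -- the two-periodic path
    obtain ⟨q, hq⟩ : ∃ q : ℕ → E2, ∀ i, q i = if Even i then x else y := ⟨_, fun _ => rfl⟩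
    have hxyne : x ≠ y := by
      intro h
      rw [h, sub_self] at hxy
      have : ‖(2 - m) • u‖ = 0 := by rw [← hxy, norm_zero]
      rw [norm_smul, hx.2.1, mul_one, Real.norm_eq_abs, abs_of_pos (by linarith)] at this
      linarith
    have hdist : dist x y = 2 - m := by
      rw [dist_eq_norm, hxy, norm_smul, hx.2.1, mul_one, Real.norm_eq_abs,
        abs_of_pos (by linarith)]
    have hunit : ‖x - y‖⁻¹ • (x - y) = u := by
      rw [← dist_eq_norm, hdist, hxy, smul_smul, inv_mul_cancel₀ (by linarith), one_smul]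
    have hunit' : ‖y - x‖⁻¹ • (y - x) = -u := by
      rw [norm_sub_rev, ← neg_sub x y, smul_neg, hunit]
    have huu : ⟪u, u⟫_ℝ = 1 := by rw [real_inner_self_eq_norm_sq, hx.2.1]; norm_num
    have hq2 := hmin 2 q ⟨le_rfl, ?_, ?_, ?_, ?_⟩
    · rw [Finset.sum_range_succ, Finset.sum_range_succ, Finset.sum_range_zero, hq, hq, hq] at hq2
      have e2 : ¬ Even (0 + 1) := by decide
      have e3 : Even (1 + 1) := by decide
      have e0 : Even 0 := by decide
      rw [if_pos e0, if_neg e2, if_pos e3, dist_comm y x, hdist] at hq2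
      linarith
    · intro i
      rw [hq, hq]
      have : Even (i + 2) ↔ Even i := by rw [Nat.even_add]; simp
      simp only [this]
    · intro i
      rw [hq]
      split_ifs
      · exact hfront _ _ hx
      · exact hfront _ _ hy
    · intro i
      rw [hq, hq]
      by_cases hi : Even i
      · have : ¬ Even (i + 1) := by rw [Nat.even_add_one]; simpa using hi
        rw [if_pos hi, if_neg this]; exact hxyne
      · have : Even (i + 1) := by rw [Nat.even_add_one]; exact hi
        rw [if_neg hi, if_pos this]; exact hxyne.symm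
    · intro i
      rw [hq, hq, hq]
      by_cases hi : Even i
      · have h1 : ¬ Even (i + 1) := by rw [Nat.even_add_one]; simpa using hi
        have h2 : Even (i + 2) := by rw [Nat.even_add]; simpa using hi
        rw [if_pos hi, if_neg h1, if_pos h2]
        refine ⟨-u, hy.2.1, hy.2.2, ?_⟩
        rw [hunit, inner_neg_left, huu]
        module
      · have h1 : Even (i + 1) := by rw [Nat.even_add_one]; exact hi
        have h2 : ¬ Even (i + 2) := by rw [Nat.even_add]; simpa using hi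
        rw [if_neg hi, if_pos h1, if_neg h2]
        refine ⟨u, hx.2.1, hx.2.2, ?_⟩
        rw [hunit', inner_neg_right, huu]
        module
  · have : n = 2 := by omega
    subst this
    exact hper

end Pool.Agent.S07623
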