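import Pool.Statements.S07959
import Pool.Agent.H17.Hyper.Glue
import Pool.Agent.HYP.TranslateCore
import Pool.Agent.HYP.Dnonneg

set_option autoImplicit false
open Pool Pool.MP_31bda2_co

namespace Pool.Agent.S07959

/-- For all 0<k<n, let L(t) count integer points of the dilated hypersimplex t·Δ_{k,n}, and h*_i = Σ_j (−1)^j C(n,j) L(i−j); then h*_0,…,h*_{n−1} rise weakly to some peak and then fall weakly. -/
theorem result :
    ∀ n k : ℕ, 0 < k → k < n →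
    ∀ L : ℕ → ℕ,
      (∀ t : ℕ, L t = ((Finset.univ : Finset (Fin n → Fin (t + 1))).filter
          (fun x => ∑ i, (x i : ℕ) = k * t)).card) →
    ∀ h : ℕ → ℤ,
      (∀ i : ℕ, h i = ∑ j ∈ Finset.range (i + 1),
          (-1 : ℤ) ^ j * (n.choose j : ℤ) * (L (i - j) : ℤ)) →
    ∃ m : ℕ, m ≤ n - 1 ∧
      (∀ i j : ℕ, i ≤ j → j ≤ m → h i ≤ h j) ∧
      (∀ i j : ℕ, m ≤ i → i ≤ j → j ≤ n - 1 → h j ≤ h i) := by
  exact Pool.Agent.H17.Hyper.unimodal_of_asc (fun n k h1 h2 L hL h hh i hi =>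
    Pool.Agent.HYP.asc_of_D_nonneg Pool.Agent.HYP.D_nonneg n k h1 h2 L hL h hh i hi)

end Pool.Agent.S07959
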