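import Pool.Statements.S08773
import Pool.Agent.H31.KG.Main

set_option autoImplicit false
open Pool Pool.MP_53be35_co

namespace Pool.Agent.S08773

/-- For every nonempty finite set S of positive integers there is a finite simple graph G (q edges) such that, for positive k, G has an injective labelling into {0..q+k-1} with edge differences exactly {k..k+q-1} iff k is in S. -/
theorem result :
    ∀ S : Finset ℕ, S.Nonempty → (∀ n ∈ S, 0 < n) →
      ∃ (N : ℕ) (G : SimpleGraph (Fin N)),
        ∀ k : ℕ, 0 < k →
          ((∃ f : Fin N → ℕ, Function.Injective f ∧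
              (∀ v, f v < G.edgeSet.ncard + k) ∧
              ∀ m : ℕ, k ≤ m → m < k + G.edgeSet.ncard →
                ∃ u v, G.Adj u v ∧ Int.natAbs ((f u : ℤ) - (f v : ℤ)) = m)
            ↔ k ∈ S) := by
  intro S hne hpos
  exact Pool.Agent.H31.KG.main S hne hpos

end Pool.Agent.S08773
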