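import Pool.Statements.S09336
import Pool.Agent.MFS.All

set_option autoImplicit false
open Pool Pool.MP_6c0025_co

namespace Pool.Agent.S09336

/-- The negation of the preceding statement: Some γ>0 works for all graphs: if every general-position set of ∣S∣ points admits a straight-line plane drawing placing S on those points, then S has a subset T with ∣T∣ ≥ γ∣S∣ for which every set of ∣T∣ points works. -/
theorem result :
    ¬ (∃ γ : ℝ, 0 < γ ∧ ∀ (V : Type) [Fintype V] (G : SimpleGraph V) (S : Finset V),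
      (∀ P : Finset (ℝ × ℝ), P.card = S.card →
        (∀ a ∈ P, ∀ b ∈ P, ∀ c ∈ P, a ≠ b → a ≠ c → b ≠ c →
            ¬ Collinear ℝ ({a, b, c} : Set (ℝ × ℝ))) →
        ∃ f : V → ℝ × ℝ, Function.Injective f ∧
          (∀ u v w : V, G.Adj u v → w ≠ u → w ≠ v → f w ∉ segment ℝ (f u) (f v)) ∧
          (∀ u v x y : V, G.Adj u v → G.Adj x y → u ≠ x → u ≠ y → v ≠ x → v ≠ y →
            Disjoint (segment ℝ (f u) (f v)) (segment ℝ (f x) (f y))) ∧
          (∀ s ∈ S, f s ∈ P)) →
      ∃ T : Finset V, T ⊆ S ∧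
        (∀ P : Finset (ℝ × ℝ), P.card = T.card →
          ∃ f : V → ℝ × ℝ, Function.Injective f ∧
            (∀ u v w : V, G.Adj u v → w ≠ u → w ≠ v → f w ∉ segment ℝ (f u) (f v)) ∧
            (∀ u v x y : V, G.Adj u v → G.Adj x y → u ≠ x → u ≠ y → v ≠ x → v ≠ y →
              Disjoint (segment ℝ (f u) (f v)) (segment ℝ (f x) (f y))) ∧
            (∀ t ∈ T, f t ∈ P)) ∧
        γ * (S.card : ℝ) ≤ (T.card : ℝ)) :=
  MFS.target_holds

end Pool.Agent.S09336
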