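import Pool.Statements.S09465
import Pool.Agent.RFM.P21
import Pool.Agent.RFM.P20

set_option autoImplicit false
open Pool Pool.MP_72a26e_co

namespace Pool.Agent.S09465

/-- There is a constant C such that every finite planar point set in general position with at least 3 points, partitioned into k convex-position parts with pairwise disjoint convex hulls, has a simple polygonization with at most C·k reflex vertices. -/
theorem result : ∃ C : ℕ, ∀ P : Finset (ℝ × ℝ), 3 ≤ P.card →
    (∀ a ∈ P, ∀ b ∈ P, ∀ c ∈ P, a ≠ b → a ≠ c → b ≠ c →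
      ¬ Collinear ℝ ({a, b, c} : Set (ℝ × ℝ))) →
    ∀ F : Finpartition P,
      (∀ A ∈ F.parts, ConvexIndependent ℝ (fun x : ((A : Set (ℝ × ℝ))) => (x : ℝ × ℝ))) →
      (F.parts : Set (Finset (ℝ × ℝ))).Pairwise
        (fun A B => Disjoint (convexHull ℝ (A : Set (ℝ × ℝ))) (convexHull ℝ (B : Set (ℝ × ℝ)))) →
      ∃ v : ℕ → ℝ × ℝ,
        (∀ i, v (i + P.card) = v i) ∧
        Set.InjOn v (Set.Iio P.card) ∧
        v '' Set.Iio P.card = (P : Set (ℝ × ℝ)) ∧
        (∀ i j, i < P.card → j < P.card → i ≠ j → j ≠ (i + 1) % P.card → i ≠ (j + 1) % P.card →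
          Disjoint (segment ℝ (v i) (v (i + 1))) (segment ℝ (v j) (v (j + 1)))) ∧
        (∀ i, segment ℝ (v i) (v (i + 1)) ∩ segment ℝ (v (i + 1)) (v (i + 2)) = {v (i + 1)}) ∧
        0 < ∑ i ∈ Finset.range P.card, ((v i).1 * (v (i + 1)).2 - (v (i + 1)).1 * (v i).2) ∧
        ((Finset.range P.card).filter (fun i =>
          ((v (i + 1)).1 - (v i).1) * ((v (i + 2)).2 - (v (i + 1)).2)
            - ((v (i + 1)).2 - (v i).2) * ((v (i + 2)).1 - (v (i + 1)).1) < 0)).card
          ≤ C * F.parts.card := by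
  obtain ⟨K, hK⟩ := Pool.Agent.RFX.exists_nf
  exact Pool.Agent.RFX.s09465_of_target2 _ (Pool.Agent.RFX.target2_of_nf hK)

end Pool.Agent.S09465
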