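import Pool.Statements.S09487
import Pool.Agent.ZSR.Main

set_option autoImplicit false
open Pool Pool.MP_73989e_co

namespace Pool.Agent.S09487

/-- For every prime p there is a constant c such that for any graph G on n vertices with p dividing its edge count, every Z_p-colouring of the edges of K_{n+c} contains a copy of G whose edge colours sum to 0 mod p. -/
theorem result :
    ∀ p : ℕ, p.Prime → ∃ c : ℕ, ∀ n : ℕ, ∀ G : SimpleGraph (Fin n),
      ∀ [inst : DecidableRel G.Adj], p ∣ G.edgeFinset.card →
        ∀ f : Sym2 (Fin (n + c)) → ZMod p,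
          ∃ φ : Fin n ↪ Fin (n + c),
            ∑ e ∈ G.edgeFinset, f (Sym2.map φ e) = 0 := by
  intro p hp
  have : Fact p.Prime := ⟨hp⟩
  obtain ⟨c, hc⟩ := Pool.Agent.ZSR.main p
  refine ⟨c, ?_⟩
  intro n G inst hG f
  have hmem : ∀ e : Sym2 (Fin n), e ∈ (Finset.univ : Finset (Fin n)).sym2 := by
    intro e
    rw [Finset.mem_sym2_iff]
    intro a _
    exact Finset.mem_univ a
  have hsub : G.edgeFinset ⊆ (Finset.univ : Finset (Fin n)).sym2 := fun e _ => hmem e
  have hsum : ∀ g : Sym2 (Fin n) → ZMod p,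
      ∑ e ∈ (Finset.univ : Finset (Fin n)).sym2, (if e ∈ G.edgeFinset then (1 : ZMod p) else 0) * g e
        = ∑ e ∈ G.edgeFinset, g e := by
    intro g
    rw [← Finset.sum_subset hsub]
    · apply Finset.sum_congr rfl
      intro e he
      rw [if_pos he, one_mul]
    · intro e _ he
      rw [if_neg he, zero_mul]
  obtain ⟨ψ, h1, -, h3⟩ := hc (V := Fin n) (Ω := Fin (n + c))
    (fun e => if e ∈ G.edgeFinset then (1 : ZMod p) else 0)
    (by
      intro v
      rw [if_neg]
      rw [SimpleGraph.mem_edgeFinset, SimpleGraph.mem_edgeSet]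
      exact G.loopless.irrefl v)
    f Finset.univ Finset.univ
    (by
      unfold Pool.Agent.ZSR.Q
      have h := hsum (fun _ => 1)
      simp only [mul_one] at h
      rw [h, Finset.sum_const, nsmul_eq_mul, mul_one]
      exact (ZMod.natCast_eq_zero_iff _ _).mpr hG)
    (by simp)
  have hinj : Function.Injective ψ := by
    intro x y hxy
    exact h1 (Finset.mem_coe.mpr (Finset.mem_univ x)) (Finset.mem_coe.mpr (Finset.mem_univ y)) hxy
  exact ⟨⟨ψ, hinj⟩, (hsum (fun e => f (Sym2.map ψ e))).symm.trans h3⟩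

end Pool.Agent.S09487
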