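import Pool.Statements.S09801
import Pool.Agent.H19SP.Main

set_option autoImplicit false
open Pool Pool.MP_8269f7_co

namespace Pool.Agent.S09801

/-- There is a constant C such that for every k ≥ 2, every complex chromatic root of every finite simple graph with no K4 minor and maximum degree at most k has modulus at most C·k/log k. -/
theorem result :
    ∃ C : ℝ, ∀ k : ℕ, 2 ≤ k → ∀ n : ℕ, ∀ G : SimpleGraph (Fin n),
      (¬ ∃ f : Fin 4 → Set (Fin n),
          (∀ i, (G.induce (f i)).Connected) ∧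
          (∀ i j, i ≠ j → Disjoint (f i) (f j)) ∧
          (∀ i j, i ≠ j → ∃ x ∈ f i, ∃ y ∈ f j, G.Adj x y)) →
      (∀ v, (G.neighborSet v).ncard ≤ k) →
      ∀ P : Polynomial ℂ,
        (∀ q : ℕ, 0 < q → P.eval (q : ℂ) = (Nat.card (G.Coloring (Fin q)) : ℂ)) →
        ∀ z : ℂ, P.eval z = 0 → ‖z‖ ≤ C * k / Real.log k := by
  refine ⟨64, fun k hk n G hG hdeg P hP z hz => ?_⟩
  have hG' : ¬ Pool.Agent.H19SP.HasK4 G := by
    rintro ⟨f, h1, h2, h3⟩
    exact hG ⟨f, fun i => (h1 i).induce_connected, h2, h3⟩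
  exact (Pool.Agent.H19SP.chromatic_root_bound k hk G hG' hdeg P hP z hz).le

end Pool.Agent.S09801
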