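import Pool.Statements.S09808
import Pool.Agent.FD39.Final2
import Pool.Agent.FD39.Top
import Pool.Agent.HY24.Lat

set_option autoImplicit false
open Pool Pool.MP_82a190_co

namespace Pool.Agent.S09808

/-- The negation of the preceding statement: For all r > k ≥ 2, two thresholds for the complete k-graph K_r^k coincide. One is the least δ guaranteeing that large divisible k-graphs with min codegree ≥ δn are K_r^k-decomposable. The other is the least δ guaranteeing that large k-graphs with that codegree are fractionally decomposable. -/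
theorem result :
    ¬ (∀ r k : ℕ, 2 ≤ k → k < r →
    sInf {δ : ℝ | 0 ≤ δ ∧ δ ≤ 1 ∧ ∃ n₀ : ℕ, ∀ n : ℕ, n₀ ≤ n →
      ∀ G : Finset (Finset (Fin n)),
        (∀ e ∈ G, e.card = k) →
        (∀ S : Finset (Fin n), S.card = k - 1 →
          δ * (n : ℝ) ≤ ((G.filter (fun e => S ⊆ e)).card : ℝ)) →
        (∀ S : Finset (Fin n), S.card < k →
          (r - S.card).choose (k - S.card) ∣ (G.filter (fun e => S ⊆ e)).card) →
        ∃ D : Finset (Finset (Fin n)),
          (∀ A ∈ D, A.card = r ∧ ∀ e : Finset (Fin n), e ⊆ A → e.card = k → e ∈ G) ∧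
          ∀ e ∈ G, (D.filter (fun A => e ⊆ A)).card = 1}
    =
    sInf {δ : ℝ | 0 ≤ δ ∧ δ ≤ 1 ∧ ∃ n₀ : ℕ, ∀ n : ℕ, n₀ ≤ n →
      ∀ G : Finset (Finset (Fin n)),
        (∀ e ∈ G, e.card = k) →
        (∀ S : Finset (Fin n), S.card = k - 1 →
          δ * (n : ℝ) ≤ ((G.filter (fun e => S ⊆ e)).card : ℝ)) →
        ∃ w : Finset (Fin n) → ℝ,
          (∀ A, 0 ≤ w A) ∧
          (∀ A, w A ≠ 0 → A.card = r ∧ ∀ e : Finset (Fin n), e ⊆ A → e.card = k → e ∈ G) ∧
          ∀ e ∈ G, ∑ A ∈ (Finset.univ : Finset (Finset (Fin n))).filter (fun A => e ⊆ A), w A = 1}) := by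
  intro hall
  have h := hall 2001 2000 (by norm_num) (by norm_num)
  have hfrac := Pool.Agent.FD39.frac_2000
  rw [← h] at hfrac
  clear h hall
  have hP : (8000 : ℝ) ≤ 2 ^ 2000 := by
    calc (8000 : ℝ) ≤ 2 ^ 13 := by norm_num
      _ ≤ 2 ^ 2000 := pow_le_pow_right₀ (by norm_num) (by norm_num)
  have hlt : (1 : ℝ) - 8000 / 2 ^ 2000 < 1 - 2 * (2000 : ℕ) / (2 ^ 2000 - 1) := by
    generalize (2 : ℝ) ^ 2000 = P at hP
    have h1 : (0 : ℝ) < P := by linarith
    have h2 : (0 : ℝ) < P - 1 := by linarith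
    have h3 : 2 * ((2000 : ℕ) : ℝ) / (P - 1) < 8000 / P := by
      rw [div_lt_div_iff₀ h2 h1]
      push_cast
      linarith
    linarith
  revert hfrac
  rw [imp_false, not_le]
  refine lt_of_lt_of_le hlt ?_
  refine le_csInf ?_ ?_
  · refine ⟨1, zero_le_one, le_rfl, 2000, ?_⟩
    intro n hn G hG hdeg _
    exfalso
    obtain ⟨S, hS, hlt3⟩ := Pool.Agent.FD39.deg_lt 2000 n (by norm_num) hn G hG
    have h1 := hdeg S hS
    rw [one_mul] at h1
    have h2 : n ≤ (G.filter (fun e => S ⊆ e)).card := by exact_mod_cast h1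
    omega
  · rintro δ ⟨_, _, n₀, hn₀⟩
    by_contra hlt2
    rw [not_le] at hlt2
    obtain ⟨n, hn, G, hG, hdeg, hdiv, hD⟩ := Pool.Agent.HY24.lattice 2000 (by norm_num) (by decide) δ hlt2 n₀
    exact hD (hn₀ n hn G hG hdeg hdiv)

end Pool.Agent.S09808
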