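import Pool.Statements.S09967
import Pool.Agent.TH.Ham
import Pool.Agent.TH.Link
import Pool.Agent.TH.Main

set_option autoImplicit false
open Pool Pool.MP_8989bc_co

namespace Pool.Agent.S09967

/-- For every finite graph on n vertices with a Hamiltonian cycle, (−1)^n times its chromatic polynomial (written as Whitney's sum over edge subsets) is strictly positive at every real λ with 1 < λ < 2. -/
theorem result :
    ∀ (V : Type) [Fintype V] [DecidableEq V] (G : SimpleGraph V) [DecidableRel G.Adj],
      (∃ v : V, ∃ p : G.Walk v v, p.IsHamiltonianCycle) →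
      ∀ x : ℝ, 1 < x → x < 2 →
        0 < ((-1 : ℝ) ^ Fintype.card V) *
          ∑ S ∈ G.edgeFinset.powerset,
            ((-1 : ℝ) ^ S.card) *
              x ^ Nat.card (SimpleGraph.fromEdgeSet (S : Set (Sym2 V))).ConnectedComponent := by
  intro V _ _ G _ hh x h1 h2
  have hm := Pool.Agent.TH.main_two h1 h2 G Finset.univ (Pool.Agent.TH.ham_twoC hh)
  have hpos : 0 < Pool.Agent.TH.RR G Finset.univ ∅ x :=
    lt_of_lt_of_le (pow_pos (by linarith) _) hm
  refine Pool.Agent.TH.whitney_pos_of G (fun S hS hst => ?_) h1 hpos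
  by_contra hc
  exact (Pool.Agent.TH.ham_bad hh hS).1 (Or.inr (Or.inl (not_le.1 hc))) hst

end Pool.Agent.S09967
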