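import Pool.Statements.S10357
import Pool.Agent.TK.MainTK
import Pool.Agent.TK.SPab
import Pool.Agent.TK.Slant
import Pool.Agent.TK.HPLemma
import Pool.Agent.TK.BothFail
import Pool.Agent.TK.GDPL

set_option autoImplicit false
open Pool Pool.MP_9af0e8_co

namespace Pool.Agent.S10357

/-- For disjoint red and blue planar point sets, each of size at least 3, with no three points collinear, there are non-self-crossing Hamiltonian cycles on the red and on the blue points such that every edge of either cycle meets the other cycle in at most two points. -/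
theorem result :
    ∀ (R B : Finset (ℝ × ℝ)), Disjoint R B → 3 ≤ R.card → 3 ≤ B.card →
      (∀ p ∈ R ∪ B, ∀ q ∈ R ∪ B, ∀ r ∈ R ∪ B, p ≠ q → p ≠ r → q ≠ r →
        ¬ Collinear ℝ ({p, q, r} : Set (ℝ × ℝ))) →
      ∃ (f : Fin R.card → ℝ × ℝ) (g : Fin B.card → ℝ × ℝ),
        Function.Injective f ∧ Set.range f = (R : Set (ℝ × ℝ)) ∧
        Function.Injective g ∧ Set.range g = (B : Set (ℝ × ℝ)) ∧
        (∀ i j : Fin R.card, i ≠ j →
          segment ℝ (f i) (f (finRotate R.card i)) ∩ segment ℝ (f j) (f (finRotate R.card j))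
            ⊆ ({f i, f (finRotate R.card i)} : Set (ℝ × ℝ)) ∩ {f j, f (finRotate R.card j)}) ∧
        (∀ i j : Fin B.card, i ≠ j →
          segment ℝ (g i) (g (finRotate B.card i)) ∩ segment ℝ (g j) (g (finRotate B.card j))
            ⊆ ({g i, g (finRotate B.card i)} : Set (ℝ × ℝ)) ∩ {g j, g (finRotate B.card j)}) ∧
        (∀ i : Fin R.card,
          (segment ℝ (f i) (f (finRotate R.card i)) ∩
            ⋃ j : Fin B.card, segment ℝ (g j) (g (finRotate B.card j))).encard ≤ 2) ∧
        (∀ j : Fin B.card,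
          (segment ℝ (g j) (g (finRotate B.card j)) ∩
            ⋃ i : Fin R.card, segment ℝ (f i) (f (finRotate R.card i))).encard ≤ 2) :=
  Pool.Agent.TK.reduction (Pool.Agent.TK.main_of Pool.Agent.TK.sStmt
    (Pool.Agent.TK.gdpl Pool.Agent.TK.spa Pool.Agent.TK.spb Pool.Agent.TK.slant)
    Pool.Agent.TK.bf Pool.Agent.TK.hp)

end Pool.Agent.S10357
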