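import Pool.Statements.S11003
import Pool.Agent.H33.LooseMain

set_option autoImplicit false
open Pool Pool.MP_b7c82d_co

namespace Pool.Agent.S11003

/-- For every ε>0, for all large t, every 3-uniform hypergraph on at least ε·t^(3/2) vertices contains a loose triangle abc,cde,efa on six distinct vertices or has t vertices containing no edge. -/
theorem result :
    ∀ ε : ℝ, 0 < ε → ∃ T : ℕ, ∀ t : ℕ, T ≤ t → ∀ n : ℕ,
      ε * (t : ℝ) ^ ((3 : ℝ) / 2) ≤ (n : ℝ) →
      ∀ H : Finset (Finset (Fin n)), (∀ x ∈ H, x.card = 3) →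
        (∃ a b c d e f : Fin n, [a, b, c, d, e, f].Nodup ∧
            ({a, b, c} : Finset (Fin n)) ∈ H ∧
            ({c, d, e} : Finset (Fin n)) ∈ H ∧
            ({e, f, a} : Finset (Fin n)) ∈ H) ∨
        (∃ S : Finset (Fin n), S.card = t ∧ ∀ x ∈ H, ¬ x ⊆ S) := by
  exact fun ε hε => Pool.Agent.H33.Loose.main ε hε

end Pool.Agent.S11003
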