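import Pool.Statements.S11114
import Pool.Agent.LockedTree.Final

set_option autoImplicit false
open Pool Pool.MP_bcbfba_co

namespace Pool.Agent.S11114

/-- The negation of the preceding statement: Every non-self-intersecting placement in 3-space of a finite tree with all edges of length 1 can be moved continuously, keeping edge lengths and staying non-self-intersecting, to a configuration lying in a plane. -/
theorem result :
    ¬ (∀ (V : Type) [Fintype V] (G : SimpleGraph V), G.IsTree →
      ∀ p : V → EuclideanSpace ℝ (Fin 3),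
        (∀ u v, G.Adj u v → dist (p u) (p v) = 1) →
        Function.Injective p →
        (∀ a b c d, G.Adj a b → G.Adj c d → s(a, b) ≠ s(c, d) →
          ∀ x, x ∈ segment ℝ (p a) (p b) → x ∈ segment ℝ (p c) (p d) →
            ∃ w, (w = a ∨ w = b) ∧ (w = c ∨ w = d) ∧ x = p w) →
        ∃ f : ℝ → V → EuclideanSpace ℝ (Fin 3),
          ContinuousOn f (Set.Icc 0 1) ∧ f 0 = p ∧
          (∀ t ∈ Set.Icc (0:ℝ) 1,
            (∀ u v, G.Adj u v → dist (f t u) (f t v) = 1) ∧
            Function.Injective (f t) ∧
            (∀ a b c d, G.Adj a b → G.Adj c d → s(a, b) ≠ s(c, d) →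
              ∀ x, x ∈ segment ℝ (f t a) (f t b) → x ∈ segment ℝ (f t c) (f t d) →
                ∃ w, (w = a ∨ w = b) ∧ (w = c ∨ w = d) ∧ x = f t w)) ∧
          ∃ A : AffineSubspace ℝ (EuclideanSpace ℝ (Fin 3)),
            Module.finrank ℝ A.direction ≤ 2 ∧ ∀ v, f 1 v ∈ A) :=
  Pool.Agent.LockedTree.not_all_flattenable

end Pool.Agent.S11114
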