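import Pool.Statements.S11801
import Pool.Agent.IT.Final

set_option autoImplicit false
open Pool Pool.MP_da73da_co

namespace Pool.Agent.S11801

/-- Among all unimodular triangulations of the lattice square [0,n]x[0,n], the fraction that are regular (induced by a convex height lifting of the grid points) tends to 0 as n goes to infinity. -/
theorem result :
    Filter.Tendsto (fun n : ℕ =>
      ((Set.ncard {T : Finset (Finset (ℤ × ℤ)) |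
          (∀ t ∈ T, ∃ a b c : ℤ × ℤ, t = {a, b, c} ∧
              (∀ p ∈ t, 0 ≤ p.1 ∧ p.1 ≤ (n : ℤ) ∧ 0 ≤ p.2 ∧ p.2 ≤ (n : ℤ)) ∧
              |(b.1 - a.1) * (c.2 - a.2) - (b.2 - a.2) * (c.1 - a.1)| = 1) ∧
          (∀ t ∈ T, ∀ s ∈ T, t ≠ s →
              Disjoint
                (interior (convexHull ℝ ((fun p : ℤ × ℤ => ((p.1 : ℝ), (p.2 : ℝ))) '' (t : Set (ℤ × ℤ)))))
                (interior (convexHull ℝ ((fun p : ℤ × ℤ => ((p.1 : ℝ), (p.2 : ℝ))) '' (s : Set (ℤ × ℤ)))))) ∧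
          (⋃ t ∈ T, convexHull ℝ ((fun p : ℤ × ℤ => ((p.1 : ℝ), (p.2 : ℝ))) '' (t : Set (ℤ × ℤ))))
              = Set.Icc ((0 : ℝ), (0 : ℝ)) ((n : ℝ), (n : ℝ)) ∧
          (∃ h : ℤ × ℤ → ℝ, ∀ t ∈ T, ∃ α β γ : ℝ,
              (∀ p ∈ t, h p = α * (p.1 : ℝ) + β * (p.2 : ℝ) + γ) ∧
              ∀ p : ℤ × ℤ, 0 ≤ p.1 → p.1 ≤ (n : ℤ) → 0 ≤ p.2 → p.2 ≤ (n : ℤ) → p ∉ t →
                α * (p.1 : ℝ) + β * (p.2 : ℝ) + γ < h p)} : ℕ) : ℝ) /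
      ((Set.ncard {T : Finset (Finset (ℤ × ℤ)) |
          (∀ t ∈ T, ∃ a b c : ℤ × ℤ, t = {a, b, c} ∧
              (∀ p ∈ t, 0 ≤ p.1 ∧ p.1 ≤ (n : ℤ) ∧ 0 ≤ p.2 ∧ p.2 ≤ (n : ℤ)) ∧
              |(b.1 - a.1) * (c.2 - a.2) - (b.2 - a.2) * (c.1 - a.1)| = 1) ∧
          (∀ t ∈ T, ∀ s ∈ T, t ≠ s →
              Disjoint
                (interior (convexHull ℝ ((fun p : ℤ × ℤ => ((p.1 : ℝ), (p.2 : ℝ))) '' (t : Set (ℤ × ℤ)))))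
                (interior (convexHull ℝ ((fun p : ℤ × ℤ => ((p.1 : ℝ), (p.2 : ℝ))) '' (s : Set (ℤ × ℤ)))))) ∧
          (⋃ t ∈ T, convexHull ℝ ((fun p : ℤ × ℤ => ((p.1 : ℝ), (p.2 : ℝ))) '' (t : Set (ℤ × ℤ))))
              = Set.Icc ((0 : ℝ), (0 : ℝ)) ((n : ℝ), (n : ℝ))} : ℕ) : ℝ))
      Filter.atTop (nhds 0) := by
  have h := Pool.Agent.IT.final
  have e1 : ∀ n : ℕ, {T : Finset (Finset (ℤ × ℤ)) |
          (∀ t ∈ T, ∃ a b c : ℤ × ℤ, t = {a, b, c} ∧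
              (∀ p ∈ t, 0 ≤ p.1 ∧ p.1 ≤ (n : ℤ) ∧ 0 ≤ p.2 ∧ p.2 ≤ (n : ℤ)) ∧
              |(b.1 - a.1) * (c.2 - a.2) - (b.2 - a.2) * (c.1 - a.1)| = 1) ∧
          (∀ t ∈ T, ∀ s ∈ T, t ≠ s →
              Disjoint
                (interior (convexHull ℝ ((fun p : ℤ × ℤ => ((p.1 : ℝ), (p.2 : ℝ))) '' (t : Set (ℤ × ℤ)))))
                (interior (convexHull ℝ ((fun p : ℤ × ℤ => ((p.1 : ℝ), (p.2 : ℝ))) '' (s : Set (ℤ × ℤ)))))) ∧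
          (⋃ t ∈ T, convexHull ℝ ((fun p : ℤ × ℤ => ((p.1 : ℝ), (p.2 : ℝ))) '' (t : Set (ℤ × ℤ))))
              = Set.Icc ((0 : ℝ), (0 : ℝ)) ((n : ℝ), (n : ℝ)) ∧
          (∃ h : ℤ × ℤ → ℝ, ∀ t ∈ T, ∃ α β γ : ℝ,
              (∀ p ∈ t, h p = α * (p.1 : ℝ) + β * (p.2 : ℝ) + γ) ∧
              ∀ p : ℤ × ℤ, 0 ≤ p.1 → p.1 ≤ (n : ℤ) → 0 ≤ p.2 → p.2 ≤ (n : ℤ) → p ∉ t →
                α * (p.1 : ℝ) + β * (p.2 : ℝ) + γ < h p)} =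
      {T | Pool.Agent.IT.UT n T ∧ Pool.Agent.IT.Reg n T} := by
    intro n
    ext T
    constructor
    · rintro ⟨h1, h2, h3, h4⟩
      exact ⟨⟨h1, h2, h3⟩, h4⟩
    · rintro ⟨⟨h1, h2, h3⟩, h4⟩
      exact ⟨h1, h2, h3, h4⟩
  have e2 : ∀ n : ℕ, {T : Finset (Finset (ℤ × ℤ)) |
          (∀ t ∈ T, ∃ a b c : ℤ × ℤ, t = {a, b, c} ∧
              (∀ p ∈ t, 0 ≤ p.1 ∧ p.1 ≤ (n : ℤ) ∧ 0 ≤ p.2 ∧ p.2 ≤ (n : ℤ)) ∧
              |(b.1 - a.1) * (c.2 - a.2) - (b.2 - a.2) * (c.1 - a.1)| = 1) ∧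
          (∀ t ∈ T, ∀ s ∈ T, t ≠ s →
              Disjoint
                (interior (convexHull ℝ ((fun p : ℤ × ℤ => ((p.1 : ℝ), (p.2 : ℝ))) '' (t : Set (ℤ × ℤ)))))
                (interior (convexHull ℝ ((fun p : ℤ × ℤ => ((p.1 : ℝ), (p.2 : ℝ))) '' (s : Set (ℤ × ℤ)))))) ∧
          (⋃ t ∈ T, convexHull ℝ ((fun p : ℤ × ℤ => ((p.1 : ℝ), (p.2 : ℝ))) '' (t : Set (ℤ × ℤ))))
              = Set.Icc ((0 : ℝ), (0 : ℝ)) ((n : ℝ), (n : ℝ))} =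
      {T | Pool.Agent.IT.UT n T} := by
    intro n
    ext T
    constructor
    · rintro ⟨h1, h2, h3⟩
      exact ⟨h1, h2, h3⟩
    · rintro ⟨h1, h2, h3⟩
      exact ⟨h1, h2, h3⟩
  simp only [e1, e2]
  exact h

end Pool.Agent.S11801
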