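import Pool.Statements.S12121
import Pool.Agent.Mader.T6
import Pool.Agent.Mader4.LemF2
import Pool.Agent.Mader4.Transl
import Pool.Agent.Mader4.TwoS

set_option autoImplicit false
open Pool Pool.MP_e72356_co

namespace Pool.Agent.S12121

/-- Every finite loopless digraph that contains no subdivision of the bidirected triangle has a 3-colouring of its vertices with no monochromatic directed cycle, i.e. dichromatic number at most 3. -/
theorem result :
    ∀ (V : Type) [Fintype V] (D : Digraph V),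
      (∀ v : V, ¬ D.Adj v v) →
      ¬ (∃ (a b c : V) (l₁ l₂ l₃ l₄ l₅ l₆ : List V),
          ([a, b, c] ++ l₁ ++ l₂ ++ l₃ ++ l₄ ++ l₅ ++ l₆).Nodup ∧
          (∀ p ∈ (a :: l₁ ++ [b]).zip (l₁ ++ [b]), D.Adj p.1 p.2) ∧
          (∀ p ∈ (b :: l₂ ++ [a]).zip (l₂ ++ [a]), D.Adj p.1 p.2) ∧
          (∀ p ∈ (b :: l₃ ++ [c]).zip (l₃ ++ [c]), D.Adj p.1 p.2) ∧
          (∀ p ∈ (c :: l₄ ++ [b]).zip (l₄ ++ [b]), D.Adj p.1 p.2) ∧
          (∀ p ∈ (a :: l₅ ++ [c]).zip (l₅ ++ [c]), D.Adj p.1 p.2) ∧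
          (∀ p ∈ (c :: l₆ ++ [a]).zip (l₆ ++ [a]), D.Adj p.1 p.2)) →
      ∃ f : V → Fin 3,
        ∀ (v : V) (l : List V),
          (∀ p ∈ (v :: l ++ [v]).zip (l ++ [v]), D.Adj p.1 p.2) →
          ∃ w ∈ l, f w ≠ f v := by
  intro V _ D hloop hno
  exact Pool.Agent.Mader.frozen_of_col D
    (fun h => Pool.Agent.Mader.col_three_of Pool.Agent.Mader.t6 Pool.Agent.Mader.two_strong
      Pool.Agent.Mader.lemF_three hloop h) hno

end Pool.Agent.S12121
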