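import Pool.Statements.S12130
import Pool.Agent.H25.Stage2
import Pool.Agent.H25.Mac5
-- import your own Pool.Agent.* helpers here

set_option autoImplicit false
open Pool Pool.MP_e73c56_co

namespace Pool.Agent.S12130

open Pool.Agent.H25

/-- mapping coefficients to `ℂ` commutes with the derivative -/
theorem map_deriv (f : PowerSeries ℚ) :
    PowerSeries.map (algebraMap ℚ ℂ) (PowerSeries.derivative ℚ f) =
      PowerSeries.derivative ℂ (PowerSeries.map (algebraMap ℚ ℂ) f) := by
  ext n
  simp [PowerSeries.coeff_derivative, PowerSeries.coeff_map]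

theorem map_deriv_iter (f : PowerSeries ℚ) (k : ℕ) :
    PowerSeries.map (algebraMap ℚ ℂ) ((⇑(PowerSeries.derivative ℚ))^[k] f) =
      (⇑(PowerSeries.derivative ℂ))^[k] (PowerSeries.map (algebraMap ℚ ℂ) f) := by
  induction k with
  | zero => rfl
  | succ k ih =>
    rw [Function.iterate_succ_apply', Function.iterate_succ_apply', map_deriv, ih]

theorem map_series : PowerSeries.map (algebraMap ℚ ℂ) (PowerSeries.mk (fun n : ℕ =>
              ((Set.ncard {f : Fin n → Fin n → ℕ |
                  (∀ i j k : Fin n, i ≤ k → f k j ≤ f i j) ∧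
                  (∀ i j k : Fin n, j ≤ k → f i k ≤ f i j) ∧
                  (∑ i, ∑ j, f i j) = n} : ℕ) : ℚ))) = PPs := by
  ext n
  rw [PowerSeries.coeff_map, PowerSeries.coeff_mk]
  unfold PPs
  rw [PowerSeries.coeff_mk]
  unfold pN
  have hset : {f : Fin n → Fin n → ℕ |
                  (∀ i j k : Fin n, i ≤ k → f k j ≤ f i j) ∧
                  (∀ i j k : Fin n, j ≤ k → f i k ≤ f i j) ∧
                  (∑ i, ∑ j, f i j) = n} = ppSet n n := by
    ext f
    unfold ppSet IsPP
    simp only [Set.mem_ofPred_eq, and_assoc]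
  rw [hset]
  simp

/-- The negation of the preceding statement: The power series whose n-th coefficient counts plane partitions of n satisfies a nontrivial polynomial equation over ℚ in t and finitely many of its derivatives, i.e. it is D-algebraic. -/
theorem result :
    ¬ (∃ Q : MvPolynomial ℕ ℚ, Q ≠ 0 ∧
      MvPolynomial.aeval
        (fun i : ℕ =>
          if i = 0 then (PowerSeries.X : PowerSeries ℚ)
          else (⇑(PowerSeries.derivative ℚ))^[i - 1]
            (PowerSeries.mk (fun n : ℕ =>
              ((Set.ncard {f : Fin n → Fin n → ℕ |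
                  (∀ i j k : Fin n, i ≤ k → f k j ≤ f i j) ∧
                  (∀ i j k : Fin n, j ≤ k → f i k ≤ f i j) ∧
                  (∑ i, ∑ j, f i j) = n} : ℕ) : ℚ))))
        Q = 0) := by
  rintro ⟨Q, hQ, hrel⟩
  have hQ' : MvPolynomial.map (algebraMap ℚ ℂ) Q ≠ 0 := by
    intro h
    apply hQ
    apply MvPolynomial.map_injective (algebraMap ℚ ℂ) (algebraMap ℚ ℂ).injective
    rw [h, map_zero]
  have hrel' : MvPolynomial.aeval (fun i : ℕ => if i = 0 then (PowerSeries.X : PowerSeries ℂ)
      else (⇑(PowerSeries.derivative ℂ))^[i - 1] PPs) (MvPolynomial.map (algebraMap ℚ ℂ) Q) = 0 := by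
    have h1 := congrArg (PowerSeries.map (algebraMap ℚ ℂ)) hrel
    rw [map_zero] at h1
    rw [← h1]
    rw [MvPolynomial.aeval_def, MvPolynomial.eval₂_map, MvPolynomial.aeval_def,
      MvPolynomial.hom_eval₂]
    congr 1
    · ext q
      simp
    · funext i
      by_cases hi : i = 0
      · subst hi
        simp
      · rw [if_neg hi, if_neg hi, map_deriv_iter, map_series]
  obtain ⟨P, hP, hPG⟩ := stage1 PPs PPs_ne_zero macmahon _ hQ' hrel'
  exact stage2 P hP hPG

end Pool.Agent.S12130
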