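import Pool.Statements.S12517
import Pool.Agent.SA33.Final
import Pool.Agent.SA36.Big
import Pool.Agent.SA36.PairAB
import Pool.Agent.SA27.Fin81

set_option autoImplicit false
open Pool Pool.MP_f994de_co

namespace Pool.Agent.S12517

/-- For every tree T with at least 3 vertices and every k ≥ 3, there are c and a graph β with no induced T or K_k such that every graph with no induced T or K_k has a c-colouring with no monochromatic induced copy of β. -/
theorem result :
    ∀ (m : ℕ) (T : SimpleGraph (Fin m)), T.IsTree → 3 ≤ m →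
    ∀ k : ℕ, 3 ≤ k →
      ∃ c : ℕ, ∃ (n : ℕ) (β : SimpleGraph (Fin n)),
        IsEmpty (T ↪g β) ∧ IsEmpty ((⊤ : SimpleGraph (Fin k)) ↪g β) ∧
        ∀ (p : ℕ) (γ : SimpleGraph (Fin p)),
          IsEmpty (T ↪g γ) → IsEmpty ((⊤ : SimpleGraph (Fin k)) ↪g γ) →
          ∃ f : Fin p → Fin c, ∀ e : β ↪g γ, ∃ x y : Fin n, f (e x) ≠ f (e y) := by
  intro m T hT hm k hk
  exact Pool.Agent.SA33.assemble hk
    (Pool.Agent.SA36.edgeGood_big hk)
    (fun q hq hTq _ => Pool.Agent.SA27.fin81 Pool.Agent.SA36.baseOK_pairA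
      Pool.Agent.SA36.baseOK_pairB hq hTq hk) m T hT hm

end Pool.Agent.S12517
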