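import Pool.Statements.S12814
import Pool.Agent.SelfCover.Main

set_option autoImplicit false
open scoped Manifold ContDiff
open Pool Pool.MP_16d5f9_gt

namespace Pool.Agent.S12814

/-- The negation of the preceding statement: For every finitely presented group G and subgroup H isomorphic to G of finite index above 1, some closed smooth connected manifold with fundamental group G has a smooth self-covering whose induced image in the fundamental group is H. -/
theorem result :
    ¬ (∀ (Γ : Type) (_ : Group Γ),
      (∃ (k : ℕ) (φ : FreeGroup (Fin k) →* Γ) (R : Finset (FreeGroup (Fin k))),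
        Function.Surjective φ ∧
          φ.ker = Subgroup.normalClosure (↑R : Set (FreeGroup (Fin k)))) →
      ∀ (Γ' : Subgroup Γ), Nonempty (Γ ≃* Γ') → 1 < Γ'.index →
        ∃ (n : ℕ) (M : Type) (_ : TopologicalSpace M)
          (_ : ChartedSpace (EuclideanSpace ℝ (Fin n)) M)
          (_ : IsManifold (𝓡 n) ∞ M),
          CompactSpace M ∧ ConnectedSpace M ∧ T2Space M ∧
          ∃ f : C(M, M), IsCoveringMap ⇑f ∧
            IsLocalDiffeomorph (𝓡 n) (𝓡 n) ∞ ⇑f ∧
            ∃ x : M, ∃ e : FundamentalGroup M (f x) ≃* Γ,
              (FundamentalGroup.map f x).range.map e.toMonoidHom = Γ') := by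
  exact Pool.Agent.SelfCover.main

end Pool.Agent.S12814
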