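import Pool.Statements.S13607
import Pool.Agent.BAN.CoreOdd
-- import your own Pool.Agent.* helpers here

set_option autoImplicit false
open Pool Pool.MP_95cc6d_gt

namespace Pool.Agent.S13607

/-- For 2 ≤ k ≤ n−1, take a star body in R^n with continuous positive radial function. If all its central k-dimensional sections are affinely equivalent to each other, it is an affine image of the unit ball, i.e. an ellipsoid. -/
theorem result :
    ∀ (n k : ℕ), 2 ≤ k → k + 1 ≤ n →
      ∀ K : Set (EuclideanSpace ℝ (Fin n)),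
        (∃ ρ : EuclideanSpace ℝ (Fin n) → ℝ, Continuous ρ ∧ (∀ x, 0 < ρ x) ∧
          K = {x | ‖x‖ ≤ ρ (‖x‖⁻¹ • x)}) →
        (∀ S T : Submodule ℝ (EuclideanSpace ℝ (Fin n)),
          Module.finrank ℝ S = k → Module.finrank ℝ T = k →
          ∃ f : S ≃ᵃ[ℝ] T,
            f '' {x : S | (x : EuclideanSpace ℝ (Fin n)) ∈ K} =
              {y : T | (y : EuclideanSpace ℝ (Fin n)) ∈ K}) →
        ∃ A : EuclideanSpace ℝ (Fin n) ≃ᵃ[ℝ] EuclideanSpace ℝ (Fin n),
          K = A '' Metric.closedBall 0 1 := by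
  intro n k hk hn K hK hsec
  exact Pool.Agent.BNH.frozen_of_core Pool.Agent.BAN.coreOdd n k hk hn K hK hsec

end Pool.Agent.S13607
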