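import Pool.Statements.S14396
-- import your own Pool.Agent.* helpers here
import Pool.Agent.LR54.Enc

set_option autoImplicit false
open Pool Pool.MP_11ee63_lc

namespace Pool.Agent.S14396

/-- The negation of the preceding statement: For every prime p, it is algorithmically decidable whether a given finite system of integer polynomial equations plus one inequation has a solution in F_p[t]_(t), i.e. whether the existential ring theory of F_p[t]_(t) is decidable. -/
theorem result :
    ¬ (∀ (p : ℕ) [Fact p.Prime],
      ComputablePred
        (fun q : List (List (ℤ × List ℕ)) × List (ℤ × List ℕ) =>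
          ∃ a b : ℕ → Polynomial (ZMod p),
            (∀ i, (b i).eval 0 ≠ 0) ∧
            (∀ f ∈ q.1,
              (f.map (fun m => (m.1 : RatFunc (ZMod p)) *
                (m.2.map (fun i =>
                  algebraMap (Polynomial (ZMod p)) (RatFunc (ZMod p)) (a i) /
                  algebraMap (Polynomial (ZMod p)) (RatFunc (ZMod p)) (b i))).prod)).sum = 0) ∧
            (q.2.map (fun m => (m.1 : RatFunc (ZMod p)) *
                (m.2.map (fun i =>
                  algebraMap (Polynomial (ZMod p)) (RatFunc (ZMod p)) (a i) /
                  algebraMap (Polynomial (ZMod p)) (RatFunc (ZMod p)) (b i))).prod)).sum ≠ 0)) := by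
  intro h
  have hp : Fact (Nat.Prime 13) := ⟨by norm_num⟩
  exact LR54.undecidable (p := 13) le_rfl (h 13)

end Pool.Agent.S14396
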