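import Pool.Statements.S15010
import Pool.Agent.H40.ReachFinal

set_option autoImplicit false
open Pool Pool.MP_87895e_lc

namespace Pool.Agent.S15010

/-- The negation of the preceding statement: In every finite concurrent two-player game with deterministic transitions, where each player wants to reach its own target set, for every ε>0 some pair of mixed stationary strategies is an ε-Nash equilibrium (against stationary deviations) from every initial state. -/
theorem result :
    ¬ (∀ (S A B : Type) [Fintype S] [Fintype A] [Fintype B] [Nonempty A] [Nonempty B]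
      (next : S → A → B → S) (T₁ T₂ : Set S) (ε : ℝ),
      0 < ε →
      ∀ R : (S → A → ℝ) → (S → B → ℝ) → Set S → S → ℝ,
        (∀ (σ : S → A → ℝ) (τ : S → B → ℝ) (T : Set S) (s : S),
          R σ τ T s =
            ⨆ n : ℕ,
              ((fun v : S → ℝ =>
                  T.indicator (fun _ => (1 : ℝ)) +
                    Tᶜ.indicator (fun x => ∑ a, ∑ b, σ x a * τ x b * v (next x a b)))^[n]
                (T.indicator (fun _ => (1 : ℝ)))) s) →
        ∃ σ : S → A → ℝ, ∃ τ : S → B → ℝ,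
          ((∀ s a, 0 ≤ σ s a) ∧ ∀ s, ∑ a, σ s a = 1) ∧
          ((∀ s b, 0 ≤ τ s b) ∧ ∀ s, ∑ b, τ s b = 1) ∧
          ∀ s : S,
            (∀ σ' : S → A → ℝ, ((∀ s a, 0 ≤ σ' s a) ∧ ∀ s, ∑ a, σ' s a = 1) →
              R σ' τ T₁ s ≤ R σ τ T₁ s + ε) ∧
            (∀ τ' : S → B → ℝ, ((∀ s b, 0 ≤ τ' s b) ∧ ∀ s, ∑ b, τ' s b = 1) →
              R σ τ' T₂ s ≤ R σ τ T₂ s + ε)) := by
  intro H
  refine Pool.Agent.H40.no_eq fun ε hε => ?_
  obtain ⟨σ, τ, hσ, hτ, h⟩ := H Pool.Agent.H40.St (Fin 3) (Fin 3) Pool.Agent.H40.nxt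
    Pool.Agent.H40.T1 Pool.Agent.H40.T2 ε hε (fun σ τ T s => Pool.Agent.H40.Rv Pool.Agent.H40.nxt σ τ T s)
    (fun σ τ T s => rfl)
  exact ⟨σ, τ, hσ, hτ, fun σ' hσ' s => (h s).1 σ' hσ', fun τ' hτ' s => (h s).2 τ' hτ'⟩

end Pool.Agent.S15010
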