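import Pool.Statements.S15078
import Pool.Agent.NGP.Main

set_option autoImplicit false
open Pool Pool.MP_94383a_lc

namespace Pool.Agent.S15078

/-- The negation of the preceding statement: There is a context-free non-generator L over a finite alphabet such that every context-free non-generator over any finite alphabet equals h(g⁻¹(L) ∩ R) for some morphisms g, h and some regular R. -/
theorem result :
    ¬ (∃ (A : Type) (_ : Finite A) (L : Language A),
      L.IsContextFree ∧
      ¬ (∀ (B : Type) (_ : Finite B) (M : Language B), M.IsContextFree →
          ∃ (C : Type) (_ : Finite C) (g : C → List A) (h : C → List B) (R : Language C),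
            (∃ (σ : Type) (_ : Fintype σ) (D : DFA C σ), D.accepts = R) ∧
            ∀ v : List B, v ∈ M ↔
              ∃ w : List C, w ∈ R ∧ w.flatMap g ∈ L ∧ w.flatMap h = v) ∧
      ∀ (B : Type) (_ : Finite B) (M : Language B), M.IsContextFree →
        ¬ (∀ (B' : Type) (_ : Finite B') (M' : Language B'), M'.IsContextFree →
            ∃ (C : Type) (_ : Finite C) (g : C → List B) (h : C → List B') (R : Language C),
              (∃ (σ : Type) (_ : Fintype σ) (D : DFA C σ), D.accepts = R) ∧
              ∀ v : List B', v ∈ M' ↔
                ∃ w : List C, w ∈ R ∧ w.flatMap g ∈ M ∧ w.flatMap h = v) →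
        ∃ (C : Type) (_ : Finite C) (g : C → List A) (h : C → List B) (R : Language C),
          (∃ (σ : Type) (_ : Fintype σ) (D : DFA C σ), D.accepts = R) ∧
          ∀ v : List B, v ∈ M ↔
            ∃ w : List C, w ∈ R ∧ w.flatMap g ∈ L ∧ w.flatMap h = v) := by
  exact Pool.Agent.NGP.not_principal

end Pool.Agent.S15078
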