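import Pool.Statements.S17484
-- import your own Pool.Agent.* helpers here
import Pool.Agent.WCC.Link
import Pool.Agent.WCC.FinalB

set_option autoImplicit false
open Pool Pool.MP_77f1eb_nt

namespace Pool.Agent.S17484

/-- The negation of the preceding statement: There is K>0 such that whenever j,l≥1 and the set of sums of 2^(a_i)3^i (i<j, a strictly decreasing, a_i≤2j-1) has at least 2K·3^(l-1) elements, every residue mod 3^l not divisible by 3 is hit by the set. -/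
theorem result :
    ¬ (∃ K : ℝ, 0 < K ∧
      ∀ j l : ℕ, 1 ≤ j → 1 ≤ l →
        2 * K * (3 : ℝ) ^ (l - 1) ≤
          ((Set.ncard {n : ℕ | ∃ α : Fin j → ℕ, StrictAnti α ∧ (∀ i, α i ≤ 2 * j - 1) ∧
              n = ∑ i, 2 ^ (α i) * 3 ^ (i : ℕ)} : ℕ) : ℝ) →
        ∀ r : ℕ, r < 3 ^ l → ¬ (3 ∣ r) →
          ∃ n : ℕ, (∃ α : Fin j → ℕ, StrictAnti α ∧ (∀ i, α i ≤ 2 * j - 1) ∧
              n = ∑ i, 2 ^ (α i) * 3 ^ (i : ℕ)) ∧ n % 3 ^ l = r) := by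
  rintro ⟨K, hK, H⟩
  obtain ⟨K', hK'⟩ := exists_nat_ge K
  have hK'1 : 1 ≤ K' := by
    have : (0 : ℝ) < K' := lt_of_lt_of_le hK hK'
    have h0 : 0 < K' := by exact_mod_cast this
    omega
  refine Pool.Agent.WCC.final_contra K' hK'1 ?_
  intro j l hj hl hX r hr h3
  obtain ⟨n, hn, hnr⟩ := H j l hj hl (by
    rw [Pool.Agent.WCC.frozen_ncard j hj]
    have h1 : ((2 * K' * 3 ^ (l - 1) : ℕ) : ℝ) ≤ (((2 * j).choose j : ℕ) : ℝ) := by
      exact_mod_cast hX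
    push_cast at h1
    have h2 : 2 * K * (3 : ℝ) ^ (l - 1) ≤ 2 * K' * (3 : ℝ) ^ (l - 1) :=
      mul_le_mul_of_nonneg_right (by linarith) (by positivity)
    linarith) r hr h3
  have hmem : n ∈ {n : ℕ | ∃ α : Fin j → ℕ, StrictAnti α ∧ (∀ i, α i ≤ 2 * j - 1) ∧
      n = ∑ i, 2 ^ (α i) * 3 ^ (i : ℕ)} := hn
  rw [Pool.Agent.WCC.frozen_set_eq j hj] at hmem
  obtain ⟨x, hx1, hx2, hx3⟩ := hmem
  exact ⟨x, hx1, hx2, by rw [← hx3]; exact hnr⟩

end Pool.Agent.S17484
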