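import Pool.Statements.S18633
import Pool.Agent.H5.RO5

set_option autoImplicit false
open Pool Pool.MP_d790dd_nt

namespace Pool.Agent.S18633

/-- If some h makes A minus any finite set an asymptotic basis of order at most h, then for some t every large integer is a sum of at most t distinct elements of A. -/
theorem result : ∀ A : Set ℕ,
    (∃ h : ℕ, ∀ F : Finset ℕ, ∃ N : ℕ, ∀ n ≥ N, ∃ s : Multiset ℕ,
        Multiset.card s ≤ h ∧ (∀ x ∈ s, x ∈ A ∧ x ∉ F) ∧ s.sum = n) →
    ∃ t : ℕ, ∃ N : ℕ, ∀ n ≥ N, ∃ s : Finset ℕ,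
        s.card ≤ t ∧ (↑s : Set ℕ) ⊆ A ∧ s.sum id = n := by
  rintro A ⟨h, hst⟩
  exact Pool.Agent.H5.RO.main A h hst

end Pool.Agent.S18633
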