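import Pool.Statements.S19123
import Pool.Agent.IP49.Top

set_option autoImplicit false
open Filter Topology
open Pool Pool.MP_06b7e0_pr

namespace Pool.Agent.S19123

/-- There is a real t_c such that, whenever m,n→∞ with m/n→t, the chance that m uniform random ±1 vectors v_k give every cube point w some ⟨v_k,w⟩<0 tends to 1 if t>t_c and to 0 if t<t_c. -/
theorem result :
    ∃ tc : ℝ, ∀ (m n : ℕ → ℕ) (t : ℝ),
      Tendsto m atTop atTop → Tendsto n atTop atTop →
      Tendsto (fun j => (m j : ℝ) / (n j : ℝ)) atTop (𝓝 t) →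
      (tc < t → Tendsto (fun j =>
          ((Finset.univ.filter (fun V : Fin (m j) → Fin (n j) → Bool =>
              ∀ w : Fin (n j) → Bool, ∃ k : Fin (m j),
                ∑ i, (if V k i then (1 : ℤ) else -1) * (if w i then (1 : ℤ) else -1) < 0)).card : ℝ)
            / (2 : ℝ) ^ (n j * m j)) atTop (𝓝 1)) ∧
      (t < tc → Tendsto (fun j =>
          ((Finset.univ.filter (fun V : Fin (m j) → Fin (n j) → Bool =>
              ∀ w : Fin (n j) → Bool, ∃ k : Fin (m j),
                ∑ i, (if V k i then (1 : ℤ) else -1) * (if w i then (1 : ℤ) else -1) < 0)).card : ℝ)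
            / (2 : ℝ) ^ (n j * m j)) atTop (𝓝 0)) := by
  obtain ⟨tc, hL, hU⟩ := Pool.Agent.IP49.threshold
  exact ⟨tc, Pool.Agent.IP49.frozen_of_gauss hL hU⟩

end Pool.Agent.S19123
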