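-- Frozen statement S19275 (MP_3b31ab_pr).  Proof: project ZR (helper1 and the whole team).
import Pool.Statements.S19275
import Pool.Agent.ZRM.P33

set_option autoImplicit false
open MeasureTheory ProbabilityTheory
open Pool Pool.MP_3b31ab_pr

namespace Pool.Agent.S19275

/-- For uniform symmetric ±1 matrices with zero row sums scaled by 1/√n (spectrum on 1^⊥), window-averaged k-point bulk statistics with window n^(−1+ε) differ from the GOE ones by o(1) as even n→∞. -/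
theorem result :
  ∀ ε : ℝ, 0 < ε → ε < 1 →
  ∀ k : ℕ, 1 ≤ k →
  ∀ E : ℝ, -2 < E → E < 2 →
  ∀ F : (Fin k → ℝ) → ℝ, Continuous F → HasCompactSupport F →
  ∀ ρ : ℝ → ℝ, (∀ x : ℝ, ρ x = Real.sqrt (4 - x ^ 2) / (2 * Real.pi)) →
  ∀ T : ℕ → ℝ → Multiset ℝ → ℝ,
    (∀ (n : ℕ) (x : ℝ) (s : Multiset ℝ),
      T n x s = ∑ f : Fin k ↪ Fin s.toList.length,
        F (fun t => (n : ℝ) * ρ x * (s.toList.get (f t) - x))) →
  ∀ S : ℕ → ℝ → ℝ,
    (∀ (n : ℕ) (x : ℝ),
      S n x =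
        (∑ σ ∈ Finset.univ.filter (fun σ : Fin n → Fin n → Bool =>
              (∀ i j, σ i j = σ j i) ∧ ∀ i, ∑ j, (if σ i j then (1 : ℤ) else -1) = 0),
            T n x ((Matrix.of (fun i j : Fin n =>
              (if σ i j then (1 : ℝ) else -1) / Real.sqrt (n : ℝ))).charpoly.roots.erase 0))
        / ((Finset.univ.filter (fun σ : Fin n → Fin n → Bool =>
              (∀ i j, σ i j = σ j i) ∧ ∀ i, ∑ j, (if σ i j then (1 : ℤ) else -1) = 0)).card : ℝ)) →
  ∀ SG : ℕ → ℝ → ℝ,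
    (∀ (n : ℕ) (x : ℝ),
      SG n x =
        MeasureTheory.integral
          (MeasureTheory.Measure.pi (fun _ : Fin n × Fin n => ProbabilityTheory.gaussianReal 0 1))
          (fun X : Fin n × Fin n → ℝ =>
            T n x ((Matrix.of (fun i j : Fin n =>
              (X (i, j) + X (j, i)) / Real.sqrt (2 * (n : ℝ)))).charpoly.roots))) →
  Filter.Tendsto
    (fun m : ℕ =>
      intervalIntegral (fun x => S (2 * m) x)
          (E - ((2 * m : ℕ) : ℝ) ^ (-1 + ε)) (E + ((2 * m : ℕ) : ℝ) ^ (-1 + ε))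
          MeasureTheory.volume / (2 * ((2 * m : ℕ) : ℝ) ^ (-1 + ε))
      - intervalIntegral (fun x => SG (2 * m) x)
          (E - ((2 * m : ℕ) : ℝ) ^ (-1 + ε)) (E + ((2 * m : ℕ) : ℝ) ^ (-1 + ε))
          MeasureTheory.volume / (2 * ((2 * m : ℕ) : ℝ) ^ (-1 + ε)))
    Filter.atTop (nhds 0) := by
  exact Pool.Agent.ZR.s19275 Pool.Agent.ZR.j1 Pool.Agent.ZR.mainFullF

end Pool.Agent.S19275
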