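import Pool.Statements.S19308
import Pool.Agent.LacunaryLD.Core

set_option autoImplicit false
open Filter Topology MeasureTheory Real
open Pool Pool.MP_4e696d_pr

namespace Pool.Agent.S19308

/-- There is a real transcendental number greater than `2`. -/
lemma exists_transcendental : ∃ η : ℝ, 2 < η ∧ Transcendental ℚ η := by
  by_contra hcon
  push Not at hcon
  have hcount : {x : ℝ | IsAlgebraic ℚ x}.Countable := Algebraic.countable ℚ ℝ
  have hsub : Set.Ioi (2 : ℝ) ⊆ {x : ℝ | IsAlgebraic ℚ x} := by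
    intro x hx
    by_contra h
    exact hcon x hx h
  have h1 := (hcount.mono hsub).le_aleph0
  rw [Cardinal.mk_Ioi_real] at h1
  exact absurd h1 (not_le.mpr Cardinal.aleph0_lt_continuum)

/-- The integer parts of the powers of `η > 1` have ratios tending to `η`. -/
lemma floor_ratio (η : ℝ) (hη : 1 < η) :
    Tendsto (fun k : ℕ => ((⌊η ^ (k + 1 + 1)⌋₊ : ℕ) : ℝ) / ((⌊η ^ (k + 1)⌋₊ : ℕ) : ℝ))
      atTop (𝓝 η) := by
  have h0 : 0 < η := by linarith
  have hpow : Tendsto (fun k : ℕ => η ^ (k + 1)) atTop atTop :=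
    (tendsto_pow_atTop_atTop_of_one_lt hη).comp (tendsto_add_atTop_nat 1)
  have hf : Tendsto (fun k : ℕ => ((⌊η ^ (k + 1)⌋₊ : ℕ) : ℝ) / η ^ (k + 1)) atTop (𝓝 1) :=
    (tendsto_nat_floor_div_atTop (R := ℝ)).comp hpow
  have hf1 : Tendsto (fun k : ℕ => ((⌊η ^ (k + 1 + 1)⌋₊ : ℕ) : ℝ) / η ^ (k + 1 + 1))
      atTop (𝓝 1) := hf.comp (tendsto_add_atTop_nat 1)
  have hq : Tendsto (fun k : ℕ => ((((⌊η ^ (k + 1 + 1)⌋₊ : ℕ) : ℝ) / η ^ (k + 1 + 1)) /
      (((⌊η ^ (k + 1)⌋₊ : ℕ) : ℝ) / η ^ (k + 1))) * η) atTop (𝓝 η) := by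
    have := (hf1.div hf one_ne_zero).mul_const η
    simpa using this
  refine hq.congr fun k => ?_
  have hp : η ^ (k + 1) ≠ 0 := by positivity
  rw [pow_succ η (k + 1)]
  rcases eq_or_ne (((⌊η ^ (k + 1)⌋₊ : ℕ) : ℝ)) 0 with h | h
  · rw [h]; simp
  · field_simp

/-- The negation of the preceding statement: For positive integers a_k with a_{k+1}/a_k tending to a transcendental η>1, the averages (1/n)Σcos(2π a_k ω), ω uniform on [0,1], satisfy an LDP with speed n and the i.i.d. Cramér rate function of cos(2πU). -/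
theorem result :
    ¬ (∀ (a : ℕ → ℕ) (η : ℝ), 1 < η → Transcendental ℚ η → (∀ k, 0 < a k) →
      Tendsto (fun k : ℕ => (a (k + 1) : ℝ) / (a k : ℝ)) atTop (𝓝 η) →
      ((∀ F : Set ℝ, IsClosed F →
          limsup (fun n : ℕ => ((((n : ℝ)⁻¹ : ℝ)) : EReal) *
              ENNReal.log (volume (Set.Icc (0 : ℝ) 1 ∩
                {ω : ℝ | (∑ k ∈ Finset.range n, Real.cos (2 * π * (a k : ℝ) * ω)) / (n : ℝ) ∈ F})))
            atTop
          ≤ - ⨅ x ∈ F, ⨆ l : ℝ,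
              (((l * x - Real.log (∫ t in (0 : ℝ)..1, Real.exp (l * Real.cos (2 * π * t)))) : ℝ) : EReal)) ∧
       (∀ G : Set ℝ, IsOpen G →
          - (⨅ x ∈ G, ⨆ l : ℝ,
              (((l * x - Real.log (∫ t in (0 : ℝ)..1, Real.exp (l * Real.cos (2 * π * t)))) : ℝ) : EReal))
          ≤ liminf (fun n : ℕ => ((((n : ℝ)⁻¹ : ℝ)) : EReal) *
              ENNReal.log (volume (Set.Icc (0 : ℝ) 1 ∩
                {ω : ℝ | (∑ k ∈ Finset.range n, Real.cos (2 * π * (a k : ℝ) * ω)) / (n : ℝ) ∈ G})))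
            atTop))) := by
  intro hall
  obtain ⟨η, hη2, hηt⟩ := exists_transcendental
  have hη1 : 1 < η := by linarith
  set a : ℕ → ℕ := fun k => ⌊η ^ (k + 1)⌋₊ with ha
  have hapos : ∀ k, 0 < a k := by
    intro k
    have h1 : (1 : ℝ) ≤ η ^ (k + 1) := one_le_pow₀ hη1.le
    exact Nat.floor_pos.mpr h1
  have hratio : Tendsto (fun k : ℕ => (a (k + 1) : ℝ) / (a k : ℝ)) atTop (𝓝 η) :=
    floor_ratio η hη1
  obtain ⟨K, hK⟩ := Pool.Agent.LacunaryLD.growth a η hapos hratio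
  obtain ⟨F, hF, hnot⟩ := Pool.Agent.LacunaryLD.upper_bound_fails a K hK.frequently
  exact hnot ((hall a η hη1 hηt hapos hratio).1 F hF)

end Pool.Agent.S19308
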